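import Pool.Agent.Lib.MP_8152b2_gt.Chain

/-!
The step is real analytic; consequence for closing orbits.
-/

namespace MixedChains

open Real Letter Metric Set
open scoped ContDiff

section
variable {k : Coef ℝ}

lemma contDiff_step (hk : Good k) : ContDiff ℝ ω (step k) := by
  have hA : ContDiff ℝ ω (fA k) := by
    unfold fA
    exact ((contDiff_const.mul (contDiff_const.add contDiff_cos)).div_const _).add
      ((contDiff_const.mul (contDiff_const.sub contDiff_cos)).div_const _)
  have hB : ContDiff ℝ ω (fB k) := by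
    unfold fB
    exact (contDiff_const.mul contDiff_sin).div_const _
  have hD : ContDiff ℝ ω (fD k) := by
    unfold fD
    exact ((contDiff_const.mul (contDiff_const.add contDiff_cos)).div_const _).add
      ((contDiff_const.mul (contDiff_const.sub contDiff_cos)).div_const _)
  have h1 : ContDiff ℝ ω (disc k) := by
    unfold disc
    exact (hB.pow 2).sub (hA.mul hD)
  have h2 : ContDiff ℝ ω (b2 k) := by
    unfold b2
    exact (((hD.sub hA).mul contDiff_sin).div_const _).add (hB.mul contDiff_cos)
  have h3 : ContDiff ℝ ω (gp k) := by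
    unfold gp
    exact (((hA.mul (contDiff_const.sub contDiff_cos)).div_const _).sub
      (hB.mul contDiff_sin)).add
      ((hD.mul (contDiff_const.add contDiff_cos)).div_const _)
  have h4 : ContDiff ℝ ω (tau k) := by
    unfold tau
    exact (h2.neg.add (h1.sqrt (fun x => (disc_pos (hk x).1 (hk x).2).ne'))).div h3
      (fun x => (hk x).2.ne')
  unfold step
  exact contDiff_id.add (contDiff_const.mul (contDiff_arctan.comp h4))

end

section
variable {R r d : ℝ}

lemma contDiff_orb (h : Adm R r d) (a : ℕ → Letter) (j : ℕ) :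
    ContDiff ℝ ω (fun x => orb R r d a x j) := by
  induction j with
  | zero => exact contDiff_id
  | succ j ih =>
    have : (fun x => orb R r d a x (j+1)) =
      step (coef R r d (a j) (a (j+1))) ∘ (fun x => orb R r d a x j) := rfl
    rw [this]
    exact (contDiff_step (h.good _ _)).comp ih

/-- a continuous function with values in `2πℤ` on an open set is locally constant there; if it is
analytic it is constant -/
lemma analytic_const {φ : ℝ → ℝ} (hφ : AnalyticOnNhd ℝ φ univ) {x : ℝ}
    (hx : ∀ᶠ y in nhds x, ∃ k : ℤ, φ y = 2*π*k) : ∀ y, φ y = φ x := by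
  have hc : ContinuousAt φ x := (hφ x (mem_univ _)).continuousAt
  have h2 : ∀ᶠ y in nhds x, |φ y - φ x| < π := by
    rw [Metric.continuousAt_iff] at hc
    obtain ⟨δ, hδ, hδ2⟩ := hc π pi_pos
    filter_upwards [Metric.ball_mem_nhds x hδ] with y hy
    have := hδ2 hy
    rwa [Real.dist_eq] at this
  have h3 : φ =ᶠ[nhds x] fun _ => φ x := by
    filter_upwards [h2, hx] with y hy ⟨k, hk1⟩
    obtain ⟨l, hl1⟩ := hx.self_of_nhds
    rw [hk1, hl1] at hy ⊢
    have h4 : |((k - l : ℤ) : ℝ)| < 1 := by
      have : |2*π*(k:ℝ) - 2*π*l| = 2*π*|((k - l : ℤ) : ℝ)| := by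
        push_cast
        rw [← mul_sub, abs_mul, abs_of_pos two_pi_pos]
      rw [this] at hy
      nlinarith [pi_pos, abs_nonneg ((k - l : ℤ) : ℝ)]
    have h5 : |k - l| < 1 := by exact_mod_cast h4
    have h6 : k = l := by
      have := Int.abs_lt_one_iff.mp h5
      omega
    rw [h6]
  have h4 := AnalyticOnNhd.eq_of_eventuallyEq hφ (analyticOnNhd_const (v := φ x)) h3
  intro y
  rw [h4]

/-- if from every direction the forward orbit from it or from its mirror image closes, then
all orbits close -/
lemma all_closed {φ : ℝ → ℝ} (hφ : AnalyticOnNhd ℝ φ univ)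
    (hx : ∀ x, (∃ k : ℤ, φ x = 2*π*k) ∨ (∃ k : ℤ, φ (-x) = 2*π*k)) :
    ∃ k : ℤ, ∀ x, φ x = 2*π*k := by
  have hcont : Continuous φ := by
    rw [← continuousOn_univ]; exact hφ.continuousOn
  set E : Set ℝ := {x | ∃ k : ℤ, φ x = 2*π*k} with hE
  have hclosed : IsClosed E := by
    have : E = (fun x => φ x / (2*π)) ⁻¹' (range ((↑) : ℤ → ℝ)) := by
      ext x
      simp only [hE, mem_ofPred_eq, mem_preimage, mem_range]
      constructor
      · rintro ⟨k, hk⟩
        exact ⟨k, by rw [hk]; field_simp⟩
      · rintro ⟨k, hk⟩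
        exact ⟨k, by rw [hk]; field_simp⟩
    rw [this]
    exact (Int.isClosedEmbedding_coe_real.isClosed_range).preimage (hcont.div_const _)
  have hint : (interior E).Nonempty := by
    by_contra hcon
    rw [not_nonempty_iff_eq_empty, interior_eq_empty_iff_dense_compl] at hcon
    have hopen : IsOpen ((fun x : ℝ => -x) ⁻¹' Eᶜ) := hclosed.isOpen_compl.preimage continuous_neg
    obtain ⟨z, hz⟩ := hcon.nonempty
    have hne : ((fun x : ℝ => -x) ⁻¹' Eᶜ).Nonempty := ⟨-z, by simpa using hz⟩
    obtain ⟨y, hy1, hy2⟩ := hcon.inter_open_nonempty _ hopen hne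
    rcases hx y with h1 | h1
    · exact hy2 h1
    · exact hy1 h1
  obtain ⟨x, hxE⟩ := hint
  have hev : ∀ᶠ y in nhds x, ∃ k : ℤ, φ y = 2*π*k := by
    filter_upwards [isOpen_interior.mem_nhds hxE] with y hy
    have : y ∈ E := interior_subset hy
    exact this
  obtain ⟨k, hk⟩ := hev.self_of_nhds
  exact ⟨k, fun y => by rw [analytic_const hφ hev y, hk]⟩

lemma analytic_orb (h : Adm R r d) (a : ℕ → Letter) (j : ℕ) :
    AnalyticOnNhd ℝ (fun x => orb R r d a x j - x) univ := by
  rw [← contDiff_omega_iff_analyticOnNhd]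
  exact (contDiff_orb h a j).sub contDiff_id

end

end MixedChains
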