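import Pool.Agent.Lib.MP_8152b2_gt.Contact

/-!
Forward orbits of directions give chains in the standard annulus.
-/

namespace MixedChains

open Real Letter Metric

/-- the forward orbit of directions for a sequence of letters -/
noncomputable def orb (R r d : ℝ) (a : ℕ → Letter) (x : ℝ) : ℕ → ℝ
  | 0 => x
  | j + 1 => step (coef R r d (a j) (a (j+1))) (orb R r d a x j)

lemma orb_zero (R r d : ℝ) (a : ℕ → Letter) (x : ℝ) : orb R r d a x 0 = x := rfl
lemma orb_succ (R r d : ℝ) (a : ℕ → Letter) (x : ℝ) (j : ℕ) :
    orb R r d a x (j+1) = step (coef R r d (a j) (a (j+1))) (orb R r d a x j) := rfl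

section
variable {R r d : ℝ}

lemma orb_rel (h : AdmC R r d) (a : ℕ → Letter) (x : ℝ) (j : ℕ) :
    Rel (coef R r d (a j) (a (j+1))) (orb R r d a x j) (orb R r d a x (j+1)) = 0 :=
  rel_step (h.g0_nonpos _ _ _) (h.gp_pos _ _ _)

lemma orb_le (h : AdmC R r d) (a : ℕ → Letter) (x : ℝ) (j : ℕ) :
    orb R r d a x j ≤ orb R r d a x (j+1) :=
  le_step (h.g0_nonpos _ _ _) (h.gp_pos _ _ _)

lemma orb_lt (h : Adm R r d) (a : ℕ → Letter) (x : ℝ) (j : ℕ) :
    orb R r d a x j < orb R r d a x (j+1) :=
  lt_step (h.good _ _ _).1 (h.good _ _ _).2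

lemma orb_lt_add (a : ℕ → Letter) (x : ℝ) (j : ℕ) :
    orb R r d a x (j+1) < orb R r d a x j + π :=
  step_lt _

lemma orb_add (a : ℕ → Letter) (x : ℝ) (i j : ℕ) :
    orb R r d a x (i+j) = orb R r d (fun m => a (i+m)) (orb R r d a x i) j := by
  induction j with
  | zero => rfl
  | succ j ih =>
    rw [← add_assoc, orb_succ, ih, orb_succ]
    rfl

lemma orb_shift (a : ℕ → Letter) (x : ℝ) (j : ℕ) (k : ℕ) :
    orb R r d a (x + 2*π*k) j = orb R r d a x j + 2*π*k := by
  induction j with
  | zero => rfl
  | succ j ih =>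
    rw [orb_succ, ih, orb_succ]
    clear ih
    induction k with
    | zero => simp
    | succ k ih2 =>
      rw [show orb R r d a x j + 2*π*((k+1 : ℕ):ℝ) = (orb R r d a x j + 2*π*k) + 2*π by
        push_cast; ring, step_add, ih2]
      push_cast; ring

lemma letter_add {n : ℕ} [NeZero n] (w : Fin n → Letter) (i : ℕ) :
    letter w (i + n) = letter w i := by
  unfold letter
  congr 1
  apply Fin.ext
  simp [Fin.ofNat]

lemma link_eq_iff (h : Adm R r d) (a : Letter) (x y : ℝ) :
    link R r d a x = link R r d a y ↔ ∃ k : ℤ, x - y = 2*π*k := by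
  constructor
  · intro heq
    have h1 : ({pt r x 0} : Set ℂ) = {pt r y 0} := by
      cases a
      · rw [← circle_inter_inner h x, ← circle_inter_inner h y, heq]
      · rw [← chord_inter_inner h x, ← chord_inter_inner h y, heq]
    have h2 := Set.singleton_injective h1
    have h3 := congrArg Complex.re h2
    have h4 := congrArg Complex.im h2
    rw [pt_re, pt_re] at h3
    rw [pt_im, pt_im] at h4
    have hr := h.1
    have h5 : cos x = cos y := by
      have : r * (cos x - cos y) = 0 := by linear_combination h3
      have := (mul_eq_zero.mp this).resolve_left hr.ne'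
      linarith
    have h6 : sin x = sin y := by
      have : r * (sin x - sin y) = 0 := by linear_combination h4
      have := (mul_eq_zero.mp this).resolve_left hr.ne'
      linarith
    have h7 := Real.Angle.cos_sin_inj h5 h6
    rwa [Real.Angle.angle_eq_iff_two_pi_dvd_sub] at h7
  · rintro ⟨k, hk⟩
    have hx : x = y + k * (2*π) := by linarith
    have hc : cos x = cos y := by rw [hx]; exact cos_add_int_mul_two_pi y k
    have hs : sin x = sin y := by rw [hx]; exact sin_add_int_mul_two_pi y k
    cases a
    · simp only [link, cen, rad, sf, mf, Qf, hc, hs]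
    · simp only [link, pt, tp, tm, dd, hc, hs]

/-- the geometric chain of a forward orbit -/
noncomputable def gchain (R r d : ℝ) {n : ℕ} [NeZero n] (w : Fin n → Letter) (x : ℝ) :
    Fin (n+1) → Set ℂ :=
  fun i => link R r d (letter w i) (orb R r d (letter w) x i)

theorem isChain_gchain (h : Adm R r d) {n : ℕ} [NeZero n] (w : Fin n → Letter) (x : ℝ) :
    IsChain (std h) w (gchain R r d w x) := by
  refine ⟨fun i => isLink h _ _, ?_⟩
  have hex : ∀ i : ℕ, ∃ p, IsContact (std h) (letter w i) (letter w (i+1))
      (link R r d (letter w i) (orb R r d (letter w) x i))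
      (link R r d (letter w (i+1)) (orb R r d (letter w) x (i+1))) p ∧
      0 < side R r d (letter w i) (orb R r d (letter w) x i) p ∧
      side R r d (letter w (i+1)) (orb R r d (letter w) x (i+1)) p < 0 := fun i =>
    exists_contact h _ _ (orb_rel h.toC _ _ _) (orb_lt h _ _ _) (orb_lt_add _ _ _)
  choose p hp1 hp2 hp3 using hex
  refine ⟨fun i => p i, fun i => ?_, fun i j hij => ?_⟩
  · have := hp1 i
    simpa [gchain] using this
  · have h1 := hp1 i
    have h2 := hp3 i
    have h3 := hp1 j
    have h4 := hp2 j
    rw [← hij] at h1 h2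
    have m1 : p i ∈ link R r d (letter w j) (orb R r d (letter w) x j) := by
      have : p i ∈ ({p i} : Set ℂ) := rfl
      rw [← h1.1] at this
      exact this.2
    have m2 : p j ∈ link R r d (letter w j) (orb R r d (letter w) x j) := by
      have : p j ∈ ({p j} : Set ℂ) := rfl
      rw [← h3.1] at this
      exact this.1
    have := separated_of_side h _ m1 m2 h2 h4
    simpa [gchain] using this

theorem closes_gchain_iff (h : Adm R r d) {n : ℕ} [NeZero n] (w : Fin n → Letter) (x : ℝ) :
    Closes (gchain R r d w x) ↔ ∃ k : ℤ, orb R r d (letter w) x n - x = 2*π*k := by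
  unfold Closes gchain
  have h1 : letter w n = letter w 0 := by
    have := letter_add w 0
    rwa [zero_add] at this
  simp only [Fin.val_last, Fin.val_zero, h1]
  rw [link_eq_iff h, orb_zero]

end

end MixedChains
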