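import Pool.Agent.Lib.MP_8152b2_gt.Complete
import Pool.Agent.Lib.MP_8152b2_gt.Chain

/-!
Every closed chain in the standard annulus is a forward or a backward orbit.
-/

namespace MixedChains

open Real Letter Metric Set

section
variable {R r d : ℝ}

/-- contact of two links of the standard annulus -/
lemma contact_rel (h : Adm R r d) (a b : Letter) {x y : ℝ} {p : ℂ}
    (hp : IsContact (std h) a b (link R r d a x) (link R r d b y) p) :
    Rel (coef R r d a b) x y = 0 ∨
      (link R r d b y ∩ (std h).inner = {p} ∧ link R r d a x ∩ (std h).inner = {p}) := by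
  cases a <;> cases b
  · exact Or.inl (contact_cc h hp.1)
  · rcases contact_cs h hp.1 with h1 | ⟨h1, h2, h3⟩
    · exact Or.inl h1
    · right
      rw [circle_inter_inner, chord_inter_inner, h3]
      refine ⟨?_, rfl⟩
      simp [pt, h1, h2]
  · have := hp.1
    rw [inter_comm] at this
    rcases contact_cs h this with h1 | ⟨h1, h2, h3⟩
    · exact Or.inl (rel_symm h1)
    · right
      rw [circle_inter_inner, chord_inter_inner, h3]
      refine ⟨rfl, ?_⟩
      simp [pt, h1, h2]
  · exact Or.inl (contact_ss h hp.1 (hp.2 rfl rfl))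

lemma normalize {k : Coef ℝ} (hk : Good k) {x y : ℝ} (hrel : Rel k x y = 0) :
    ∃ y', cos y = cos y' ∧ sin y = sin y' ∧ Rel k x y' = 0 ∧
      ((x < y' ∧ y' < x + π) ∨ (y' < x ∧ x < y' + π)) := by
  obtain ⟨y', hy'⟩ : ∃ y', y' = toIocMod two_pi_pos (x - π) y := ⟨_, rfl⟩
  have hmem := toIocMod_mem_Ioc two_pi_pos (x - π) y
  rw [← hy'] at hmem
  have he : y' = y - (toIocDiv two_pi_pos (x - π) y) * (2*π) := by
    rw [hy', ← self_sub_toIocDiv_zsmul, zsmul_eq_mul]
  have hc : cos y = cos y' := by rw [he, cos_sub_int_mul_two_pi]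
  have hs : sin y = sin y' := by rw [he, sin_sub_int_mul_two_pi]
  have hrel' : Rel k x y' = 0 := by rw [← rel_congr k hc hs]; exact hrel
  refine ⟨y', hc, hs, hrel', ?_⟩
  have hx : y' ≠ x := by
    intro heq
    rw [heq, rel_self] at hrel'
    exact (hk x).1.ne hrel'
  have hp : y' ≠ x + π := by
    intro heq
    rw [heq, rel_add_pi] at hrel'
    exact (hk x).2.ne' hrel'
  obtain ⟨h1, h2⟩ := hmem
  have h3 : y' ≤ x + π := by linarith
  have h4 : y' < x + π := lt_of_le_of_ne h3 hp
  rcases lt_or_gt_of_ne hx with h5 | h5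
  · exact Or.inr ⟨h5, by linarith⟩
  · exact Or.inl ⟨h5, h4⟩

lemma eq_step {k : Coef ℝ} (hk : Good k) {x y : ℝ} (hrel : Rel k x y = 0) (h1 : x < y)
    (h2 : y < x + π) : y = step k x := by
  obtain ⟨t, ht⟩ : ∃ t, t = tan ((y-x)/2) := ⟨_, rfl⟩
  have ht0 : 0 < t := by
    rw [ht]; exact tan_pos_of_pos_of_lt_pi_div_two (by linarith) (by linarith)
  have hy : y = x + 2 * arctan t := by
    rw [ht, arctan_tan (by linarith) (by linarith)]; ring
  have hq := rel_quad k x t
  rw [← hy, hrel, mul_zero] at hq
  have hτ := tau_root (hk x).1.le (hk x).2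
  have hτ0 := tau_pos (hk x).1 (hk x).2
  have h3 : (t - tau k x) * (gp k x * t * tau k x - g0 k x) = 0 := by
    linear_combination (-tau k x) * hq - t * hτ
  have h4 : 0 < gp k x * t * tau k x - g0 k x := by
    have := (hk x).1
    have := (hk x).2
    have : 0 < gp k x * t * tau k x := by positivity
    linarith
  have h5 := (mul_eq_zero.mp h3).resolve_right h4.ne'
  have h6 : t = tau k x := by linarith
  rw [hy, h6]
  rfl

lemma rel_neg (k : Coef ℝ) (x y : ℝ) : Rel k (-x) (-y) = Rel k x y := by
  simp only [Rel, fA, fB, fD, cos_neg, sin_neg]; ring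

/-- the link after `link a x` is the forward or the backward one -/
theorem step_cases (h : Adm R r d) (a b : Letter) {x : ℝ} {v : Set ℂ} {p : ℂ}
    (hv : IsLink (std h) b v) (hp : IsContact (std h) a b (link R r d a x) v p) :
    (v ∩ (std h).inner = {p} ∧ link R r d a x ∩ (std h).inner = {p}) ∨
    (v = link R r d b (step (coef R r d a b) x) ∧ 0 < side R r d a x p ∧
      side R r d b (step (coef R r d a b) x) p < 0) ∨
    (v = link R r d b (-step (coef R r d a b) (-x)) ∧ side R r d a x p < 0 ∧
      0 < side R r d b (-step (coef R r d a b) (-x)) p) := by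
  obtain ⟨y, rfl⟩ := exists_link h b hv
  rcases contact_rel h a b hp with hrel | hdeg
  · right
    have hk := h.good a b
    obtain ⟨y', hc, hs, hrel', hcase⟩ := normalize hk hrel
    have hl : link R r d b y = link R r d b y' := link_congr b hc hs
    rw [hl] at hp ⊢
    rcases hcase with ⟨h1, h2⟩ | ⟨h1, h2⟩
    · left
      obtain ⟨p', hp', hs1, hs2⟩ := exists_contact h a b hrel' h1 h2
      have hpp : p = p' := by
        have := hp.1.symm.trans hp'.1
        exact singleton_injective this
      have he := eq_step hk hrel' h1 h2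
      rw [hpp, ← he]
      exact ⟨rfl, hs1, hs2⟩
    · right
      obtain ⟨p', hp', hs1, hs2⟩ := exists_contact h b a (rel_symm hrel') h1 h2
      have hpp : p = p' := by
        have := hp.1.symm.trans ((inter_comm _ _).trans hp'.1)
        exact singleton_injective this
      have he := eq_step hk (x := -x) (y := -y') (by rw [rel_neg]; exact hrel')
        (by linarith) (by linarith)
      rw [hpp, ← he, neg_neg]
      exact ⟨rfl, hs2, hs1⟩
  · exact Or.inl hdeg

lemma sep_ne {A : Annulus} {b : Letter} {v : Set ℂ} {p q T : ℂ} (hs : Separated A b v p q)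
    (hT : v ∩ A.inner = {T}) : p ≠ T ∧ q ≠ T := by
  cases b
  · obtain ⟨X, Y, hX, -, -, h1, h2⟩ := hs
    have : T = X := singleton_injective (hT.symm.trans hX)
    rw [this]
    constructor
    · intro h; rw [h] at h1; exact h1 (left_mem_affineSpan_pair ℝ X Y)
    · intro h; rw [h] at h2; exact h2 (left_mem_affineSpan_pair ℝ X Y)
  · obtain ⟨X, hX, h0, h1, h2⟩ := hs
    have : T = X := singleton_injective (hT.symm.trans hX)
    rw [this]
    exact ⟨h1.symm, h2.symm⟩

lemma pt_ne_bb (h : Adm R r d) (x : ℝ) : pt r x 0 ≠ bb R r d x := by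
  intro heq
  have h1 : pt r x 0 ∈ (std h).inner := by
    have : pt r x 0 ∈ link R r d c x ∩ (std h).inner := by rw [circle_inter_inner]; rfl
    exact this.2
  have h2 : bb R r d x ∈ (std h).outer := by
    have : bb R r d x ∈ link R r d c x ∩ (std h).outer := by rw [circle_inter_outer]; rfl
    exact this.2
  rw [← heq] at h2
  have e1 : dist (pt r x 0) 0 = r := h1
  have e2 : dist (pt r x 0) (d:ℂ) = R := h2
  have e3 : dist (0:ℂ) (d:ℂ) = d := by
    rw [dist_zero_left, Complex.norm_real, norm_eq_abs, abs_of_nonneg h.2]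
  have := dist_triangle (pt r x 0) 0 (d:ℂ)
  have := h.3
  linarith

/-- the two contact points are on different sides of a link -/
theorem sep_side (h : Adm R r d) (a : Letter) {x : ℝ} {p q : ℂ}
    (hp : p ∈ link R r d a x) (hq : q ∈ link R r d a x)
    (hs : Separated (std h) a (link R r d a x) p q) :
    side R r d a x p * side R r d a x q < 0 := by
  cases a
  · obtain ⟨X, Y, hX, hY, ⟨p1, hp1, p2, hp2, hray⟩, h1, h2⟩ := hs
    have eX : pt r x 0 = X := singleton_injective ((circle_inter_inner h x).symm.trans hX)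
    have eY : bb R r d x = Y := singleton_injective ((circle_inter_outer h x).symm.trans hY)
    have hne := pt_ne_bb h x
    subst eX eY
    simp only [side]
    have c1 := cross_of_mem_line hp1
    have c2 := cross_of_mem_line hp2
    have n1 : cross (pt r x 0) (bb R r d x) p ≠ 0 := fun h0 => h1 (mem_line_of_cross hne h0)
    have n2 : cross (pt r x 0) (bb R r d x) q ≠ 0 := fun h0 => h2 (mem_line_of_cross hne h0)
    rcases hray with h0 | h0 | ⟨r1, r2, hr1, hr2, he⟩
    · exfalso
      have : p = p1 := by rwa [vsub_eq_sub, sub_eq_zero] at h0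
      rw [this] at h1
      exact h1 hp1
    · exfalso
      have : q = p2 := by rw [vsub_eq_sub, sub_eq_zero] at h0; exact h0.symm
      rw [this] at h2
      exact h2 hp2
    · have e1 := congrArg Complex.re he
      have e2 := congrArg Complex.im he
      simp only [vsub_eq_sub, Complex.real_smul, Complex.mul_re, Complex.mul_im,
        Complex.ofReal_re, Complex.ofReal_im, Complex.sub_re, Complex.sub_im] at e1 e2
      have key : r1 * cross (pt r x 0) (bb R r d x) p = -(r2 * cross (pt r x 0) (bb R r d x) q) := by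
        unfold cross at c1 c2 ⊢
        linear_combination (-((bb R r d x).im - (pt r x 0).im)) * e1 +
          ((bb R r d x).re - (pt r x 0).re) * e2 + r1 * c1 + r2 * c2
      have hsq : 0 < cross (pt r x 0) (bb R r d x) q ^2 := by positivity
      have : r1 * (cross (pt r x 0) (bb R r d x) p * cross (pt r x 0) (bb R r d x) q) =
        -(r2 * cross (pt r x 0) (bb R r d x) q ^2) := by
        rw [← mul_assoc, key]; ring
      by_contra hcon
      push Not at hcon
      have l1 : 0 ≤ r1 * (cross (pt r x 0) (bb R r d x) p * cross (pt r x 0) (bb R r d x) q) :=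
        mul_nonneg hr1.le hcon
      have l2 : 0 < r2 * cross (pt r x 0) (bb R r d x) q ^2 := mul_pos hr2 hsq
      linarith
  · obtain ⟨X, hX, ⟨l, ⟨hl0, hl1⟩, hl⟩, h1, h2⟩ := hs
    have eX : pt r x 0 = X := singleton_injective ((chord_inter_inner h x).symm.trans hX)
    subst eX
    unfold link at hp hq
    rw [mem_segment_pt (tm_lt_tp h _)] at hp hq
    obtain ⟨t1, -, -, rfl⟩ := hp
    obtain ⟨t2, -, -, rfl⟩ := hq
    rw [side_pt, side_pt]
    have hz : (1-l)*t1 + l*t2 = 0 := by
      have e1 := congrArg (side R r d s x) hl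
      rw [side_pt] at e1
      rw [← e1]
      simp only [side, AffineMap.lineMap_apply, vsub_eq_sub, vadd_eq_add, Complex.add_re,
        Complex.real_smul, Complex.mul_re, Complex.ofReal_re, Complex.ofReal_im, Complex.sub_re,
        Complex.add_im, Complex.mul_im, Complex.sub_im, pt]
      linear_combination (-((1-l)*t1+l*t2)) * sin_sq_add_cos_sq x
    have n1 : t1 ≠ 0 := by rintro rfl; exact h1 rfl
    have n2 : t2 ≠ 0 := by rintro rfl; exact h2 rfl
    have l0 : 0 < l := by
      rcases lt_or_eq_of_le hl0 with h' | h'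
      · exact h'
      · exfalso; rw [← h'] at hz; apply n1; linarith
    have l1 : 0 < 1 - l := by
      rcases lt_or_eq_of_le (sub_nonneg.mpr hl1) with h' | h'
      · exact h'
      · exfalso; rw [← h'] at hz
        have : l = 1 := by linarith
        rw [this] at hz
        apply n2; linarith
    have hsq : 0 < t2^2 := by positivity
    have : (1-l)*(t1*t2) = -(l*t2^2) := by linear_combination t2*hz
    by_contra hcon
    push Not at hcon
    have l1 : 0 ≤ (1-l)*(t1*t2) := mul_nonneg l1.le hcon
    have l2 : 0 < l*t2^2 := mul_pos l0 hsq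
    linarith

end

end MixedChains
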