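import Pool.Agent.Lib.MP_8152b2_gt.Cases

/-!
A closed chain in the standard annulus with first link `link a x` gives a closed forward orbit
from `x` or from `-x`.
-/

namespace MixedChains

open Real Letter Metric Set

section
variable {R r d : ℝ}

lemma step_dir (h : Adm R r d) (a b : Letter) {x : ℝ} {v : Set ℂ} {p : ℂ}
    (hv : IsLink (std h) b v) (hp : IsContact (std h) a b (link R r d a x) v p) :
    (v ∩ (std h).inner = {p} ∧ link R r d a x ∩ (std h).inner = {p}) ∨
    ∃ ε : ℝ, (ε = 1 ∨ ε = -1) ∧ v = link R r d b (ε * step (coef R r d a b) (ε * x)) ∧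
      0 < ε * side R r d a x p ∧
      ε * side R r d b (ε * step (coef R r d a b) (ε * x)) p < 0 := by
  rcases step_cases h a b hv hp with h1 | ⟨h1, h2, h3⟩ | ⟨h1, h2, h3⟩
  · exact Or.inl h1
  · refine Or.inr ⟨1, Or.inl rfl, ?_, ?_, ?_⟩ <;> simp only [one_mul] <;> assumption
  · refine Or.inr ⟨-1, Or.inr rfl, ?_, ?_, ?_⟩
    · simpa using h1
    · linarith
    · have : (-1 : ℝ) * step (coef R r d a b) (-1 * x) = -step (coef R r d a b) (-x) := by
        rw [neg_one_mul, neg_one_mul]
      rw [this]; linarith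

/-- the closed orbit of a closed chain -/
theorem closes_cases (h : Adm R r d) {n : ℕ} [NeZero n] (w : Fin n → Letter) {x : ℝ}
    {u : Fin (n+1) → Set ℂ} (hu : IsChain (std h) w u) (h0 : u 0 = link R r d (letter w 0) x)
    (hc : Closes u) :
    ∃ ε : ℝ, (ε = 1 ∨ ε = -1) ∧ ∃ k : ℤ, orb R r d (letter w) (ε * x) n - ε * x = 2*π*k := by
  obtain ⟨hlink, p, hcon, hsep⟩ := hu
  have hn0 : n ≠ 0 := NeZero.ne n
  have hln : letter w n = letter w 0 := by
    have := letter_add w 0
    rwa [zero_add] at this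
  have hcon' : ∀ (i : ℕ) (hi : i < n), IsContact (std h) (letter w i) (letter w (i+1))
      (u ⟨i, by omega⟩) (u ⟨i+1, by omega⟩) (p ⟨i, hi⟩) := fun i hi => hcon ⟨i, hi⟩
  have hsep' : ∀ (i : ℕ) (hi : i + 1 < n), Separated (std h) (letter w (i+1))
      (u ⟨i+1, by omega⟩) (p ⟨i, by omega⟩) (p ⟨i+1, hi⟩) := fun i hi =>
    hsep ⟨i, by omega⟩ ⟨i+1, hi⟩ rfl
  have hlink' : ∀ (i : ℕ) (hi : i < n + 1), IsLink (std h) (letter w i) (u ⟨i, hi⟩) :=
    fun i hi => hlink ⟨i, hi⟩
  have hclose : u ⟨n, by omega⟩ = u ⟨0, by omega⟩ := hc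
  have h0' : u ⟨0, by omega⟩ = link R r d (letter w 0) x := h0
  clear hlink hcon hsep hc h0
  by_cases hn1 : n = 1
  · exfalso
    subst hn1
    have h1 := (hcon' 0 (by omega))
    rw [h0'] at h1
    have h2 : u ⟨0+1, by omega⟩ = link R r d (letter w 0) x := by
      rw [← h0']; exact hclose
    rw [h2] at h1
    have h3 : letter w (0+1) = letter w 0 := hln
    rw [h3] at h1
    have hg := h.good (letter w 0) (letter w 0) x
    rcases hw : letter w 0 with _ | _
    · rw [hw] at h1 hg
      have := contact_cc h h1.1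
      rw [rel_self] at this
      exact hg.1.ne this
    · rw [hw] at h1 hg
      have := contact_ss h h1.1 (h1.2 rfl rfl)
      rw [rel_self] at this
      exact hg.1.ne this
  have hn2 : 2 ≤ n := by omega
  -- no degenerate contact
  have hdeg : ∀ (i : ℕ) (hi : i < n), ¬ (u ⟨i+1, by omega⟩ ∩ (std h).inner = {p ⟨i, hi⟩} ∧
      u ⟨i, by omega⟩ ∩ (std h).inner = {p ⟨i, hi⟩}) := by
    rintro i hi ⟨h1, h2⟩
    rcases Nat.eq_zero_or_pos i with hi0 | hi0
    · subst hi0
      exact (sep_ne (hsep' 0 (by omega)) h1).1 rfl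
    · obtain ⟨j, rfl⟩ : ∃ j, i = j + 1 := ⟨i-1, by omega⟩
      exact (sep_ne (hsep' j (by omega)) h2).2 rfl
  -- the first contact
  have hstep : ∀ (i : ℕ) (hi : i < n) (y : ℝ), u ⟨i, by omega⟩ = link R r d (letter w i) y →
      ∃ ε : ℝ, (ε = 1 ∨ ε = -1) ∧ u ⟨i+1, by omega⟩ = link R r d (letter w (i+1))
        (ε * step (coef R r d (letter w i) (letter w (i+1))) (ε * y)) ∧
      0 < ε * side R r d (letter w i) y (p ⟨i, hi⟩) ∧
      ε * side R r d (letter w (i+1))
        (ε * step (coef R r d (letter w i) (letter w (i+1))) (ε * y)) (p ⟨i, hi⟩) < 0 := by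
    intro i hi y hy
    have hc := hcon' i hi
    rw [hy] at hc
    rcases step_dir h _ _ (hlink' (i+1) (by omega)) hc with h1 | h1
    · rw [← hy] at h1
      exact absurd h1 (hdeg i hi)
    · exact h1
  obtain ⟨ε, hε, -, hs0, -⟩ := hstep 0 (by omega) x h0'
  have hεε : ε * ε = 1 := by rcases hε with rfl | rfl <;> norm_num
  have hind : ∀ (i : ℕ) (hi : i < n),
      u ⟨i, by omega⟩ = link R r d (letter w i) (ε * orb R r d (letter w) (ε*x) i) ∧
      0 < ε * side R r d (letter w i) (ε * orb R r d (letter w) (ε*x) i) (p ⟨i, hi⟩) ∧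
      u ⟨i+1, by omega⟩ = link R r d (letter w (i+1))
        (ε * orb R r d (letter w) (ε*x) (i+1)) := by
    intro i
    induction i with
    | zero =>
      intro hi
      have e0 : ε * orb R r d (letter w) (ε*x) 0 = x := by
        rw [orb_zero, ← mul_assoc, hεε, one_mul]
      obtain ⟨ε', hε', h1, h2, h3⟩ := hstep 0 hi x h0'
      have hee : ε' = ε := by
        rcases hε with rfl | rfl <;> rcases hε' with rfl | rfl <;> first | rfl | (exfalso; linarith)
      subst hee
      rw [e0]
      refine ⟨h0', h2, ?_⟩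
      rw [h1, orb_succ, orb_zero]
    | succ i ih =>
      intro hi
      obtain ⟨h1, h2, h3⟩ := ih (by omega)
      obtain ⟨ε1, hε1, k1, k2, k3⟩ := hstep i (by omega) _ h1
      have hee1 : ε1 = ε := by
        rcases hε with rfl | rfl <;> rcases hε1 with rfl | rfl <;>
          first | rfl | (exfalso; linarith)
      subst hee1
      have ee : ε1 * step (coef R r d (letter w i) (letter w (i+1)))
          (ε1 * (ε1 * orb R r d (letter w) (ε1*x) i)) =
          ε1 * orb R r d (letter w) (ε1*x) (i+1) := by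
        rw [← mul_assoc ε1 ε1, hεε, one_mul, orb_succ]
      rw [ee] at k3
      -- separation on link i+1
      have hsp := hsep' i hi
      rw [h3] at hsp
      have m1 : p ⟨i, by omega⟩ ∈ link R r d (letter w (i+1))
          (ε1 * orb R r d (letter w) (ε1*x) (i+1)) := by
        have : p ⟨i, by omega⟩ ∈ ({p ⟨i, by omega⟩} : Set ℂ) := rfl
        rw [← (hcon' i (by omega)).1, h3] at this
        exact this.2
      have m2 : p ⟨i+1, hi⟩ ∈ link R r d (letter w (i+1))
          (ε1 * orb R r d (letter w) (ε1*x) (i+1)) := by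
        have : p ⟨i+1, hi⟩ ∈ ({p ⟨i+1, hi⟩} : Set ℂ) := rfl
        rw [← (hcon' (i+1) hi).1, h3] at this
        exact this.1
      have hss := sep_side h _ m1 m2 hsp
      have hside : 0 < ε1 * side R r d (letter w (i+1))
          (ε1 * orb R r d (letter w) (ε1*x) (i+1)) (p ⟨i+1, hi⟩) := by
        by_contra hcon
        push Not at hcon
        have := mul_nonneg_of_nonpos_of_nonpos k3.le hcon
        have e : ε1 * side R r d (letter w (i+1)) (ε1 * orb R r d (letter w) (ε1*x) (i+1))
            (p ⟨i, by omega⟩) * (ε1 * side R r d (letter w (i+1))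
            (ε1 * orb R r d (letter w) (ε1*x) (i+1)) (p ⟨i+1, hi⟩)) = (ε1*ε1) *
            (side R r d (letter w (i+1)) (ε1 * orb R r d (letter w) (ε1*x) (i+1))
            (p ⟨i, by omega⟩) * side R r d (letter w (i+1))
            (ε1 * orb R r d (letter w) (ε1*x) (i+1)) (p ⟨i+1, hi⟩)) := by ring
        rw [e, hεε, one_mul] at this
        linarith
      refine ⟨h3, hside, ?_⟩
      obtain ⟨ε2, hε2, j1, j2, j3⟩ := hstep (i+1) hi _ h3
      have hee2 : ε2 = ε1 := by
        rcases hε with rfl | rfl <;> rcases hε2 with rfl | rfl <;>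
          first | rfl | (exfalso; linarith)
      subst hee2
      rw [j1, ← mul_assoc ε2 ε2, hεε, one_mul, ← orb_succ]
  obtain ⟨-, -, hlast⟩ := hind (n-1) (by omega)
  have hnn : n - 1 + 1 = n := by omega
  have hlast' : u ⟨n, by omega⟩ = link R r d (letter w n)
      (ε * orb R r d (letter w) (ε*x) n) := by
    have : (⟨n-1+1, by omega⟩ : Fin (n+1)) = ⟨n, by omega⟩ := Fin.ext hnn
    rw [this, hnn] at hlast
    exact hlast
  rw [hclose, h0', hln, eq_comm, link_eq_iff h] at hlast'
  obtain ⟨k, hk⟩ := hlast'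
  rcases hε with rfl | rfl
  · exact ⟨1, Or.inl rfl, k, by linarith⟩
  · refine ⟨-1, Or.inr rfl, -k, ?_⟩
    push_cast
    linarith

end

end MixedChains
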