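import Pool.Agent.Lib.MP_8152b2_gt.Converse

/-!
Every chain in the standard annulus is a forward or a backward orbit.
-/

namespace MixedChains

open Real Letter Metric Set

section
variable {R r d : ℝ}

lemma link_congr (a : Letter) {x y : ℝ} (hc : cos x = cos y) (hs : sin x = sin y) :
    link R r d a x = link R r d a y := by
  cases a
  · simp only [link, cen, rad, sf, mf, Qf, hc, hs]
  · simp only [link, pt, tp, tm, dd, hc, hs]

lemma rel_congr (k : Coef ℝ) {x y y' : ℝ} (hc : cos y = cos y') (hs : sin y = sin y') :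
    Rel k x y = Rel k x y' := by
  simp only [Rel, hc, hs]

lemma rel_add_pi (k : Coef ℝ) (x : ℝ) : Rel k x (x + π) = gp k x := by
  simp only [Rel, gp, cos_add_pi, sin_add_pi]; ring

lemma rel_self (k : Coef ℝ) (x : ℝ) : Rel k x x = g0 k x := rfl

lemma cos_eq_one_of_same {x y : ℝ} (h : cos (y - x) = 1) : cos x = cos y ∧ sin x = sin y := by
  have hs : sin (y - x) = 0 := by
    have := sin_sq_add_cos_sq (y-x)
    rw [h] at this
    have h2 : sin (y-x)^2 = 0 := by linarith
    exact pow_eq_zero_iff (two_ne_zero) |>.mp h2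
  have e1 : cos y = cos ((y-x) + x) := by congr 1; ring
  have e2 : sin y = sin ((y-x) + x) := by congr 1; ring
  rw [e1, e2, cos_add, sin_add, h, hs]
  constructor <;> ring

/-- contact of two inscribed circles -/
lemma contact_cc (h : Adm R r d) {x y : ℝ} {p : ℂ}
    (hp : link R r d c x ∩ link R r d c y = {p}) : Rel (coef R r d c c) x y = 0 := by
  have h1 := rad_pos h x
  have h2 := rad_pos h y
  have hpm : p ∈ link R r d c x ∩ link R r d c y := by rw [hp]; rfl
  have hu : ∀ q, (q.re - (cen R r d x).re)^2 + (q.im - (cen R r d x).im)^2 = rad R r d x^2 →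
      (q.re - (cen R r d y).re)^2 + (q.im - (cen R r d y).im)^2 = rad R r d y^2 → q = p := by
    intro q hq1 hq2
    have : q ∈ link R r d c x ∩ link R r d c y :=
      ⟨(mem_sphere_coord h1.le).mpr hq1, (mem_sphere_coord h2.le).mpr hq2⟩
    rw [hp] at this
    exact this
  have p1 := (mem_sphere_coord h1.le).mp hpm.1
  have p2 := (mem_sphere_coord h2.le).mp hpm.2
  set P := cen R r d x with hP
  set P' := cen R r d y with hP'
  set ρ := rad R r d x with hρ
  set ρ' := rad R r d y with hρ'
  set a := P'.re - P.re with ha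
  set b := P'.im - P.im with hb
  set w1 := p.re - P.re with hw1
  set w2 := p.im - P.im with hw2
  have p2' : (w1 - a)^2 + (w2 - b)^2 = ρ'^2 := by
    rw [← p2, hw1, hw2, ha, hb]; ring
  -- the centres are distinct
  have hD : 0 < a^2 + b^2 := by
    rcases lt_or_eq_of_le (add_nonneg (sq_nonneg a) (sq_nonneg b)) with h' | h'
    · exact h'
    · exfalso
      have a0 : a = 0 := by nlinarith [sq_nonneg a, sq_nonneg b]
      have b0 : b = 0 := by nlinarith [sq_nonneg a, sq_nonneg b]
      rw [a0, b0] at p2'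
      have q := hu ⟨P.re - w1, P.im - w2⟩ (by simp only; rw [← p1]; ring) (by
        simp only
        have e1 : P'.re = P.re := by linarith
        have e2 : P'.im = P.im := by linarith
        rw [e1, e2, ← p2']; ring)
      have q1 := congrArg Complex.re q
      have q2 := congrArg Complex.im q
      simp only at q1 q2
      have r1 : w1 = 0 := by linarith
      have r2 : w2 = 0 := by linarith
      rw [r1, r2] at p1
      nlinarith
  -- reflection
  obtain ⟨l, hl⟩ : ∃ l, l = (w1*a + w2*b)/(a^2+b^2) := ⟨_, rfl⟩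
  have hl' : l*(a^2+b^2) = w1*a + w2*b := by rw [hl]; field_simp
  have q := hu ⟨P.re + (2*l*a - w1), P.im + (2*l*b - w2)⟩ (by
      simp only
      have : (P.re + (2*l*a - w1) - P.re)^2 + (P.im + (2*l*b - w2) - P.im)^2 =
        4*l*(l*(a^2+b^2)) - 4*l*(w1*a+w2*b) + (w1^2 + w2^2) := by ring
      rw [this, hl', p1]; ring) (by
      simp only
      have : (P.re + (2*l*a - w1) - P'.re)^2 + (P.im + (2*l*b - w2) - P'.im)^2 =
        4*l*(l*(a^2+b^2)) - 4*l*(w1*a+w2*b) - 4*(l*(a^2+b^2)) + 4*(w1*a+w2*b) +
          ((w1-a)^2 + (w2-b)^2) := by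
        rw [ha, hb]; ring
      rw [this, hl', p2']; ring)
  have q1 := congrArg Complex.re q
  have q2 := congrArg Complex.im q
  simp only at q1 q2
  have r1 : w1 = l*a := by linarith
  have r2 : w2 = l*b := by linarith
  rw [r1, r2] at p1 p2'
  have k1 : l^2*(a^2+b^2) = ρ^2 := by rw [← p1]; ring
  have k2 : (1-l)^2*(a^2+b^2) = ρ'^2 := by rw [← p2']; ring
  have k3 : ((a^2+b^2) - (ρ+ρ')^2) * ((a^2+b^2) - (ρ-ρ')^2) = 0 := by
    have e : (a^2+b^2) - ρ^2 - ρ'^2 = 2*l*(1-l)*(a^2+b^2) := by rw [← k1, ← k2]; ring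
    have e2 : ((a^2+b^2) - (ρ+ρ')^2) * ((a^2+b^2) - (ρ-ρ')^2) =
      ((a^2+b^2) - ρ^2 - ρ'^2)^2 - 4*(ρ^2)*(ρ'^2) := by ring
    rw [e2, e, ← k1, ← k2]; ring
  -- the distance between the centres
  have s1 := sf_eq h x
  have s2 := sf_eq h y
  have dist2 : a^2 + b^2 = (sf R r d x)^2 + (sf R r d y)^2 -
      2*sf R r d x*sf R r d y*cos (y-x) := by
    rw [ha, hb, hP, hP', cos_sub]
    simp only [cen]
    linear_combination sf R r d x^2 * sin_sq_add_cos_sq x + sf R r d y^2 * sin_sq_add_cos_sq y
  have hsx := sf_pos h x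
  have hsy := sf_pos h y
  rcases mul_eq_zero.mp k3 with k | k
  · -- external tangency
    rw [rel_cc]
    have e3 := sf_mul h x
    have e4 := sf_mul h y
    have e5 := rad_mul h x
    have e6 := rad_mul h y
    have key : sf R r d x * sf R r d y * (1 - cos (y-x)) = 2 * ρ * ρ' := by
      rw [dist2] at k
      have : ρ = sf R r d x - r := by linarith
      have : ρ' = sf R r d y - r := by linarith
      have e : (sf R r d x - sf R r d y)^2 = (ρ-ρ')^2 := by congr 1; linarith
      linear_combination k/2 - e/2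
    have : Kf R r d^2 * (1 - cos (y-x))/2 - Qf R r d x * Qf R r d y =
      2 * mf R r d x * mf R r d y *
        (sf R r d x * sf R r d y * (1 - cos (y-x)) - 2*ρ*ρ') := by
      rw [← e5, ← e6]
      have : Kf R r d^2 = (2 * sf R r d x * mf R r d x) * (2 * sf R r d y * mf R r d y) := by
        rw [e3, e4]; ring
      rw [this]; ring
    rw [this, key]; ring
  · exfalso
    have e : (sf R r d x - sf R r d y)^2 = (ρ-ρ')^2 := by congr 1; linarith
    have : 2*sf R r d x*sf R r d y*(1 - cos (y-x)) = 0 := by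
      rw [dist2] at k
      linear_combination k - e
    have := (mul_eq_zero.mp this).resolve_left (by positivity)
    obtain ⟨hc, hs⟩ := cos_eq_one_of_same (x := x) (y := y) (by linarith)
    have : P' = P := by
      rw [hP, hP']; simp only [cen, sf, mf, hc, hs]
    rw [this] at ha hb
    rw [ha, hb] at hD
    simp at hD

/-- contact of an inscribed circle and a tangent chord -/
lemma contact_cs (h : Adm R r d) {x y : ℝ} {p : ℂ}
    (hp : link R r d c x ∩ link R r d s y = {p}) :
    Rel (coef R r d c s) x y = 0 ∨ (cos x = cos y ∧ sin x = sin y ∧ p = pt r x 0) := by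
  have hρ := rad_pos h x
  have hpm : p ∈ link R r d c x ∩ link R r d s y := by rw [hp]; rfl
  have hp2 := hpm.2
  unfold link at hp2
  rw [mem_segment_pt (tm_lt_tp h y)] at hp2
  obtain ⟨t, -, -, hpt⟩ := hp2
  have hc : cos x = cos (x-y) * cos y - sin (x-y) * sin y := by
    rw [← cos_add]; ring_nf
  have hs : sin x = sin (x-y) * cos y + cos (x-y) * sin y := by
    rw [← sin_add]; ring_nf
  have hon : ∀ t', pt r y t' ∈ link R r d c x ↔
      (r - sf R r d x * cos (x-y))^2 + (t' - sf R r d x * sin (x-y))^2 = rad R r d x^2 := by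
    intro t'
    unfold link
    rw [mem_sphere_coord hρ.le]
    have : ((pt r y t').re - (cen R r d x).re)^2 + ((pt r y t').im - (cen R r d x).im)^2 =
        (r - sf R r d x * cos (x-y))^2 + (t' - sf R r d x * sin (x-y))^2 := by
      unfold pt cen
      simp only
      rw [hc, hs]
      have : (r * cos y - t' * sin y - sf R r d x * (cos (x-y) * cos y - sin (x-y) * sin y))^2 +
        (r * sin y + t' * cos y - sf R r d x * (sin (x-y) * cos y + cos (x-y) * sin y))^2 =
        ((r - sf R r d x * cos (x-y))^2 + (t' - sf R r d x * sin (x-y))^2) *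
          (sin y^2 + cos y^2) := by ring
      rw [this, sin_sq_add_cos_sq, mul_one]
    rw [this]
  have hp1 := hpm.1
  rw [hpt, hon] at hp1
  have hmem : ∀ t', pt r y t' ∈ link R r d c x → pt r y t' ∈ link R r d s y := by
    intro t' hcirc
    apply pt_mem_chord h
    have hreg : pt r y t' ∈ closedBall (d:ℂ) R :=
      (circle_subset_region h x (sphere_subset_closedBall hcirc)).1
    rw [mem_closedBall_coord h.toC.R_pos.le, pt_re, pt_im] at hreg
    simp only [Complex.ofReal_re, Complex.ofReal_im, sub_zero] at hreg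
    have e : (r*cos y - t'*sin y - d)^2 + (r*sin y + t'*cos y)^2 =
      (r^2 + t'^2) * (sin y ^2 + cos y^2) - 2*d*(r*cos y - t'*sin y) + d^2 := by ring
    rw [e, sin_sq_add_cos_sq] at hreg
    unfold dd
    have := sin_sq' y
    nlinarith
  set T := sf R r d x * sin (x-y) with hT
  have hrefl : pt r y (2*T - t) ∈ link R r d c x := by
    rw [hon, ← hp1]; ring
  have heq : pt r y (2*T - t) = p := by
    have : pt r y (2*T - t) ∈ link R r d c x ∩ link R r d s y := ⟨hrefl, hmem _ hrefl⟩
    rw [hp] at this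
    exact this
  have ht : t = T := by
    have := congrArg (side R r d s y) heq
    rw [hpt, side_pt, side_pt] at this
    linarith
  rw [ht, sub_self] at hp1
  have hp1' : (r - sf R r d x * cos (x-y))^2 = rad R r d x^2 := by linarith
  have e1 := sf_eq h x
  have e3 := sf_mul h x
  have e5 := rad_mul h x
  have hcc : cos (x-y) = cos (y-x) := by rw [← cos_neg]; congr 1; ring
  rcases sq_eq_sq_iff_eq_or_eq_neg.mp hp1' with k | k
  · left
    rw [rel_cs, ← hcc]
    linear_combination (-(1 - cos (x-y))/2) * e3 + e5 + mf R r d x * k +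
      (mf R r d x) * e1
  · right
    have hsp := sf_pos h x
    have : sf R r d x * (cos (y-x) - 1) = 0 := by
      rw [← hcc]; linear_combination -k - e1
    have := (mul_eq_zero.mp this).resolve_left hsp.ne'
    obtain ⟨hc', hs'⟩ := cos_eq_one_of_same (x := x) (y := y) (by linarith)
    refine ⟨hc', hs', ?_⟩
    have hT0 : T = 0 := by
      rw [hT, sin_sub, hc', hs']; ring
    rw [hpt, ht, hT0]
    unfold pt
    rw [hc', hs']

/-- two chords with a common endpoint -/
lemma contact_ss (h : Adm R r d) {x y : ℝ} {p : ℂ}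
    (hp : link R r d s x ∩ link R r d s y = {p}) (hpo : p ∈ (std h).outer) :
    Rel (coef R r d s s) x y = 0 := by
  have hr := h.1
  have hpm : p ∈ link R r d s x ∩ link R r d s y := by rw [hp]; rfl
  have hp1 := hpm.1
  have hp2 := hpm.2
  unfold link at hp1 hp2
  rw [mem_segment_pt (tm_lt_tp h _)] at hp1 hp2
  obtain ⟨t1, -, -, hpt1⟩ := hp1
  obtain ⟨t2, -, -, hpt2⟩ := hp2
  have ho := hpo
  rw [hpt1, pt_mem_outer h] at ho
  have e1 : r*cos x - t1*sin x = r*cos y - t2*sin y := by
    have := congrArg Complex.re (hpt1.symm.trans hpt2)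
    simpa [pt] using this
  have e2 : r*sin x + t1*cos x = r*sin y + t2*cos y := by
    have := congrArg Complex.im (hpt1.symm.trans hpt2)
    simpa [pt] using this
  have e3 : t1^2 = t2^2 := by
    have k1 : (r*cos x - t1*sin x)^2 + (r*sin x + t1*cos x)^2 = r^2 + t1^2 := by
      linear_combination (r^2+t1^2) * sin_sq_add_cos_sq x
    have k2 : (r*cos y - t2*sin y)^2 + (r*sin y + t2*cos y)^2 = r^2 + t2^2 := by
      linear_combination (r^2+t2^2) * sin_sq_add_cos_sq y
    rw [e1, e2, k2] at k1
    linarith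
  have hne : ¬ (cos x = cos y ∧ sin x = sin y) := by
    rintro ⟨hc, hs⟩
    rw [link_congr s hc hs, inter_self] at hp
    have m1 : pt r y (tm R r d y) ∈ link R r d s y :=
      pt_mem_chord h _ _ (tm_sq h y).le
    have m2 : pt r y (tp R r d y) ∈ link R r d s y :=
      pt_mem_chord h _ _ (tp_sq h y).le
    rw [hp] at m1 m2
    have : pt r y (tm R r d y) = pt r y (tp R r d y) := by
      rw [mem_singleton_iff.mp m1, mem_singleton_iff.mp m2]
    have := congrArg (side R r d s y) this
    rw [side_pt, side_pt] at this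
    exact (tm_lt_tp h y).ne this
  rcases sq_eq_sq_iff_eq_or_eq_neg.mp e3 with k | k
  · exfalso
    apply hne
    rw [← k] at e1 e2
    have n0 : 0 < r^2 + t1^2 := by positivity
    have m1 : (r^2+t1^2)*(cos x - cos y) = 0 := by linear_combination r*e1 + t1*e2
    have m2 : (r^2+t1^2)*(sin x - sin y) = 0 := by linear_combination r*e2 - t1*e1
    have := (mul_eq_zero.mp m1).resolve_left n0.ne'
    have := (mul_eq_zero.mp m2).resolve_left n0.ne'
    constructor <;> linarith
  · have k' : t2 = -t1 := by linarith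
    rw [k'] at e1 e2
    have n0 : 0 < r^2 + t1^2 := by positivity
    have sx := sin_sq_add_cos_sq x
    have sy := sin_sq_add_cos_sq y
    have g1 : (r^2+t1^2)*(cos x + cos y) = 2*r*(r*cos x - t1*sin x) := by
      linear_combination (-r)*e1 + t1*e2
    have g2 : (r^2+t1^2)*(1 + cos (y-x)) = 2*r^2 := by
      rw [cos_sub]
      have f1 : r^2*(1 - (cos y*cos x + sin y*sin x)) = t1^2*(1 + (cos y*cos x + sin y*sin x)) := by
        have f2 : (r*(cos x - cos y))^2 + (r*(sin y - sin x))^2 =
          (t1*(sin x + sin y))^2 + (t1*(cos x + cos y))^2 := by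
          have f3 : r*(cos x - cos y) = t1*(sin x + sin y) := by linarith
          have f4 : r*(sin y - sin x) = t1*(cos x + cos y) := by linarith
          rw [f3, f4]
        linear_combination f2/2 - (r^2/2 - t1^2/2)*sx - (r^2/2 - t1^2/2)*sy
      linarith
    rw [rel_ss]
    have key : (r^2+t1^2) * (r^2 - r*d*(cos x + cos y) - (R^2-d^2)*(1+cos (y-x))/2) = 0 := by
      have : (r^2+t1^2) * (r^2 - r*d*(cos x + cos y) - (R^2-d^2)*(1+cos (y-x))/2) =
        r^2*(r^2+t1^2) - r*d*((r^2+t1^2)*(cos x + cos y)) -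
          (R^2-d^2)/2*((r^2+t1^2)*(1+cos (y-x))) := by ring
      rw [this, g1, g2]
      unfold dd at ho
      linear_combination r^2*ho - r^2*d^2*sin_sq' x
    exact (mul_eq_zero.mp key).resolve_left n0.ne'

end

end MixedChains
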