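import Pool.Agent.Lib.MP_8152b2_gt.Sides

/-!
Links whose directions satisfy the relation are in contact.
-/

namespace MixedChains

open Real Letter Metric

section
variable {R r d : ℝ}

/-- On which side of the link is the point (positive: forward). -/
noncomputable def side (R r d : ℝ) : Letter → ℝ → ℂ → ℝ
  | .c, x, p => cross (pt r x 0) (bb R r d x) p
  | .s, x, p => p.im * cos x - p.re * sin x

lemma side_pt (x t : ℝ) : side R r d s x (pt r x t) = t := by
  simp only [side, pt]
  linear_combination t * sin_sq_add_cos_sq x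

lemma cos_add_two (x t : ℝ) :
    cos (x + 2*t) = cos x * (2*cos t^2 - 1) - 2*sin t*cos t*sin x := by
  rw [cos_add, cos_two_mul, sin_two_mul]; ring

lemma sin_add_two (x t : ℝ) :
    sin (x + 2*t) = sin x * (2*cos t^2 - 1) + cos x*(2*sin t*cos t) := by
  rw [sin_add, cos_two_mul, sin_two_mul]

lemma rel_cs' {x t : ℝ} (hrel : Rel (coef R r d c s) x (x+2*t) = 0) :
    Kf R r d * sin t^2 = Qf R r d x := by
  rw [rel_cs, show x + 2*t - x = 2*t by ring, cos_two_mul] at hrel
  linear_combination hrel + Kf R r d * sin_sq' t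

lemma rel_sc' {x t : ℝ} (hrel : Rel (coef R r d s c) x (x+2*t) = 0) :
    Kf R r d * sin t^2 = Qf R r d (x+2*t) := by
  rw [rel_sc, show x + 2*t - x = 2*t by ring, cos_two_mul] at hrel
  linear_combination hrel + Kf R r d * sin_sq' t

lemma rel_cc' {x t : ℝ} (hrel : Rel (coef R r d c c) x (x+2*t) = 0) :
    Kf R r d^2 * sin t^2 = Qf R r d x * Qf R r d (x+2*t) := by
  rw [rel_cc, show x + 2*t - x = 2*t by ring, cos_two_mul] at hrel
  linear_combination hrel + Kf R r d^2 * sin_sq' t

lemma rel_ss' {x t : ℝ} (hrel : Rel (coef R r d s s) x (x+2*t) = 0) :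
    (R^2-d^2) * cos t^2 = r^2 - r*d*(cos x + cos (x+2*t)) := by
  rw [rel_ss, show x + 2*t - x = 2*t by ring, cos_two_mul] at hrel
  linear_combination -hrel

lemma Kf_sq_eq (x : ℝ) (h : Adm R r d) : sf R r d x * (2 * mf R r d x) = Kf R r d := by
  have := sf_mul h x; linarith

/-- contact point of two inscribed circles -/
noncomputable def cptcc (R r d x y : ℝ) : ℂ :=
  ⟨(cen R r d x).re + rad R r d x/(rad R r d x + rad R r d y) *
      ((cen R r d y).re - (cen R r d x).re),
   (cen R r d x).im + rad R r d x/(rad R r d x + rad R r d y) *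
      ((cen R r d y).im - (cen R r d x).im)⟩

lemma cptcc_symm (h : Adm R r d) (x y : ℝ) : cptcc R r d x y = cptcc R r d y x := by
  have h1 := rad_pos h x
  have h2 := rad_pos h y
  unfold cptcc
  have h3 : rad R r d x + rad R r d y ≠ 0 := by positivity
  have h4 : rad R r d y + rad R r d x ≠ 0 := by positivity
  apply Complex.ext <;> field_simp <;> ring

lemma inter_cc (h : Adm R r d) {x t : ℝ} (hrel : Rel (coef R r d c c) x (x+2*t) = 0) :
    link R r d c x ∩ link R r d c (x+2*t) = {cptcc R r d x (x+2*t)} := by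
  have h1 := rad_pos h x
  have h2 := rad_pos h (x+2*t)
  have hr := rel_cc' hrel
  unfold link cptcc
  rw [sphere_inter_sphere h1.le h2.le rfl (by positivity)]
  simp only [cen]
  have e1 := sf_eq h x
  have e2 := sf_eq h (x+2*t)
  have e3 := sf_mul h x
  have e4 := sf_mul h (x+2*t)
  have e5 := rad_mul h x
  have e6 := rad_mul h (x+2*t)
  have m1 := h.toC.mf_pos x
  have m2 := h.toC.mf_pos (x+2*t)
  have key : sf R r d x * sf R r d (x+2*t) * sin t^2 = rad R r d x * rad R r d (x+2*t) := by
    have : (4 * mf R r d x * mf R r d (x+2*t)) *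
      (sf R r d x * sf R r d (x+2*t) * sin t^2 - rad R r d x * rad R r d (x+2*t)) = 0 := by
      have : (4 * mf R r d x * mf R r d (x+2*t)) *
        (sf R r d x * sf R r d (x+2*t) * sin t^2 - rad R r d x * rad R r d (x+2*t)) =
        (2 * sf R r d x * mf R r d x) * (2 * sf R r d (x+2*t) * mf R r d (x+2*t)) * sin t^2 -
        (2 * rad R r d x * mf R r d x) * (2 * rad R r d (x+2*t) * mf R r d (x+2*t)) := by ring
      rw [this, e3, e4, e5, e6]
      linarith
    have := (mul_eq_zero.mp this).resolve_left (by positivity)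
    linarith
  have hcos : cos x * cos (x+2*t) + sin x * sin (x+2*t) = 1 - 2*sin t^2 := by
    rw [← cos_sub, show x - (x+2*t) = -(2*t) by ring, cos_neg, cos_two_mul]
    linear_combination 2 * sin_sq' t
  have s1 := sin_sq_add_cos_sq x
  have s2 := sin_sq_add_cos_sq (x+2*t)
  have : (sf R r d (x+2*t) * cos (x+2*t) - sf R r d x * cos x)^2 +
      (sf R r d (x+2*t) * sin (x+2*t) - sf R r d x * sin x)^2 =
      sf R r d (x+2*t)^2 * (sin (x+2*t)^2 + cos (x+2*t)^2) +
      sf R r d x^2 * (sin x^2 + cos x^2) -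
      2*sf R r d x*sf R r d (x+2*t)*(cos x * cos (x+2*t) + sin x * sin (x+2*t)) := by ring
  rw [this, s1, s2, hcos]
  rw [e1, e2] at key ⊢
  linear_combination 4 * key

lemma side_cc (h : Adm R r d) {x t : ℝ} (hrel : Rel (coef R r d c c) x (x+2*t) = 0)
    (hC : 0 < cos t) (hS : sin t ≠ 0) :
    0 < sin t * side R r d c x (cptcc R r d x (x+2*t)) := by
  have hr := rel_cc' hrel
  have h1 := rad_pos h x
  have h2 := rad_pos h (x+2*t)
  have hlt := rad_lt h x
  have m1 := h.toC.mf_pos x
  have m2 := h.toC.mf_pos (x+2*t)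
  have q1 := h.Qf_pos x
  have e4 := sf_mul h (x+2*t)
  unfold Qf mf at *
  rw [cos_add_two] at hr m2 e4
  have hs := sign_circ (s' := sf R r d (x+2*t)) h (by linarith [sin_sq_add_cos_sq x] :
    cos x^2 + sin x^2 = 1) (by linarith [sin_sq_add_cos_sq t] : cos t^2 + sin t^2 = 1) hC hS
    (by linarith) m2 e4 q1 m1
  have e1 := sf_eq h x
  have e2 := sf_eq h (x+2*t)
  have hcr : side R r d c x (cptcc R r d x (x+2*t)) =
      rad R r d x^2/((R - rad R r d x)*(rad R r d x + rad R r d (x+2*t))) *
      (sf R r d (x+2*t) * ((R+r)*(2*sin t*cos t) - d*(sin x + (sin x * (2*cos t^2 - 1) +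
        cos x*(2*sin t*cos t)))) + 2*r*d*sin x) := by
    have n1 : rad R r d x - R ≠ 0 := by linarith
    have n2 : R - rad R r d x ≠ 0 := by linarith
    have n3 : rad R r d x + rad R r d (x+2*t) ≠ 0 := by positivity
    have hsin : sin (x+2*t) * cos x - cos (x+2*t) * sin x = 2*sin t*cos t := by
      rw [← sin_sub, show x+2*t - x = 2*t by ring, sin_two_mul]
    rw [← sin_add_two]
    simp only [side, cross, cptcc, bb, pt, cen, zero_mul, sub_zero, add_zero]
    rw [← hsin, e1, e2]
    field_simp
    ring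
  rw [hcr]
  have hp : 0 < rad R r d x^2/((R - rad R r d x)*(rad R r d x + rad R r d (x+2*t))) := by
    apply div_pos (by positivity)
    exact mul_pos (by linarith) (by positivity)
  nlinarith

/-- contact point of an inscribed circle (direction `x`) and a chord (direction `y`) -/
noncomputable def cptcs (R r d x y : ℝ) : ℂ := pt r y (sf R r d x * sin (x-y))

/-- the circle with direction `x` touches the chord with direction `y` -/
lemma cos_cs (h : Adm R r d) {x t : ℝ} (hrel : Kf R r d * sin t^2 = Qf R r d x) :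
    sf R r d x * cos (2*t) = r - rad R r d x := by
  have e1 := sf_eq h x
  have e3 := sf_mul h x
  have e5 := rad_mul h x
  have m1 := h.toC.mf_pos x
  have : (2*mf R r d x) * (sf R r d x * sin t^2 - rad R r d x) = 0 := by
    linear_combination hrel + sin t^2 * e3 - e5
  have := (mul_eq_zero.mp this).resolve_left (by positivity)
  rw [cos_two_mul]
  linear_combination (-2)*this + 2*sf R r d x * sin_sq' t + e1

lemma cptcs_eq (h : Adm R r d) {x y t : ℝ} (hrel : Kf R r d * sin t^2 = Qf R r d x)
    (hy : y = x + 2*t ∨ y = x - 2*t) :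
    cptcs R r d x y = ⟨(cen R r d x).re + rad R r d x * cos y,
      (cen R r d x).im + rad R r d x * sin y⟩ := by
  have h1 : cos (x - y) = cos (2*t) := by
    rcases hy with rfl | rfl
    · rw [show x - (x + 2*t) = -(2*t) by ring, cos_neg]
    · rw [show x - (x - 2*t) = 2*t by ring]
  have h2 := cos_cs h hrel
  rw [← h1] at h2
  have hx : x = (x - y) + y := by ring
  have hc : cos x = cos (x-y) * cos y - sin (x-y) * sin y := by
    rw [← cos_add]; ring_nf
  have hs : sin x = sin (x-y) * cos y + cos (x-y) * sin y := by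
    rw [← sin_add]; ring_nf
  unfold cptcs pt cen
  apply Complex.ext
  · simp only
    rw [hc]
    linear_combination (-cos y) * h2
  · simp only
    rw [hs]
    linear_combination (-sin y) * h2

lemma inter_cs (h : Adm R r d) {x y t : ℝ} (hrel : Kf R r d * sin t^2 = Qf R r d x)
    (hy : y = x + 2*t ∨ y = x - 2*t) :
    link R r d c x ∩ link R r d s y = {cptcs R r d x y} := by
  have hρ := rad_pos h x
  have h1 : cos (x - y) = cos (2*t) := by
    rcases hy with rfl | rfl
    · rw [show x - (x + 2*t) = -(2*t) by ring, cos_neg]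
    · rw [show x - (x - 2*t) = 2*t by ring]
  have h2 := cos_cs h hrel
  rw [← h1] at h2
  have hc : cos x = cos (x-y) * cos y - sin (x-y) * sin y := by
    rw [← cos_add]; ring_nf
  have hs : sin x = sin (x-y) * cos y + cos (x-y) * sin y := by
    rw [← sin_add]; ring_nf
  have hon : ∀ t', pt r y t' ∈ link R r d c x ↔ t' = sf R r d x * sin (x-y) := by
    intro t'
    unfold link
    rw [mem_sphere_coord hρ.le]
    have : ((pt r y t').re - (cen R r d x).re)^2 + ((pt r y t').im - (cen R r d x).im)^2 =
        (r - sf R r d x * cos (x-y))^2 + (t' - sf R r d x * sin (x-y))^2 := by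
      unfold pt cen
      simp only
      rw [hc, hs]
      have : (r * cos y - t' * sin y - sf R r d x * (cos (x-y) * cos y - sin (x-y) * sin y))^2 +
        (r * sin y + t' * cos y - sf R r d x * (sin (x-y) * cos y + cos (x-y) * sin y))^2 =
        ((r - sf R r d x * cos (x-y))^2 + (t' - sf R r d x * sin (x-y))^2) *
          (sin y^2 + cos y^2) := by ring
      rw [this, sin_sq_add_cos_sq, mul_one]
    rw [this, h2]
    constructor
    · intro h3
      have h4 : (t' - sf R r d x * sin (x-y))^2 = 0 := by linear_combination h3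
      have := pow_eq_zero_iff (two_ne_zero) |>.mp h4
      linarith
    · intro h3
      rw [h3]; ring
  ext z
  rw [Set.mem_inter_iff, Set.mem_singleton_iff]
  constructor
  · rintro ⟨h3, h4⟩
    unfold link at h4
    rw [mem_segment_pt (tm_lt_tp h y)] at h4
    obtain ⟨t', -, -, rfl⟩ := h4
    rw [(hon t').mp h3]
    rfl
  · intro hz
    have hz' : z = pt r y (sf R r d x * sin (x-y)) := hz
    rw [hz']
    have hcirc := (hon (sf R r d x * sin (x-y))).mpr rfl
    refine ⟨hcirc, ?_⟩
    apply pt_mem_chord h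
    have hreg : pt r y (sf R r d x * sin (x-y)) ∈ closedBall (d:ℂ) R :=
      (circle_subset_region h x (sphere_subset_closedBall hcirc)).1
    rw [mem_closedBall_coord h.toC.R_pos.le, pt_re, pt_im] at hreg
    simp only [Complex.ofReal_re, Complex.ofReal_im, sub_zero] at hreg
    set T := sf R r d x * sin (x-y)
    have e : (r*cos y - T*sin y - d)^2 + (r*sin y + T*cos y)^2 =
      (r^2 + T^2) * (sin y ^2 + cos y^2) - 2*d*(r*cos y - T*sin y) + d^2 := by ring
    rw [e, sin_sq_add_cos_sq] at hreg
    unfold dd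
    have := sin_sq' y
    nlinarith

lemma side_cs (h : Adm R r d) {x t : ℝ} (hrel : Kf R r d * sin t^2 = Qf R r d x)
    (hC : 0 < cos t) (hS : sin t ≠ 0) :
    0 < sin t * side R r d c x (cptcs R r d x (x+2*t)) := by
  have hs := sign_seg h (by linarith [sin_sq_add_cos_sq x] :
    cos x^2 + sin x^2 = 1) (by linarith [sin_sq_add_cos_sq t] : cos t^2 + sin t^2 = 1) hC hS
    (by unfold Qf at hrel; exact hrel)
  have h1 := rad_pos h x
  have hlt := rad_lt h x
  have e1 := sf_eq h x
  have hcr : side R r d c x (cptcs R r d x (x+2*t)) =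
      rad R r d x^2/(R - rad R r d x) *
      ((R+r)*(2*sin t*cos t) - d*(sin x + (sin x * (2*cos t^2 - 1) +
        cos x*(2*sin t*cos t)))) := by
    have n1 : rad R r d x - R ≠ 0 := by linarith
    have n2 : R - rad R r d x ≠ 0 := by linarith
    have hsin : sin (x+2*t) * cos x - cos (x+2*t) * sin x = 2*sin t*cos t := by
      rw [← sin_sub, show x+2*t - x = 2*t by ring, sin_two_mul]
    rw [← sin_add_two, cptcs_eq h hrel (Or.inl rfl)]
    simp only [side, cross, bb, pt, cen, zero_mul, sub_zero, add_zero]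
    rw [← hsin, e1]
    field_simp
    ring
  rw [hcr]
  have hp : 0 < rad R r d x^2/(R - rad R r d x) := by
    apply div_pos (by positivity) (by linarith)
  nlinarith

lemma side_sc (h : Adm R r d) {y t : ℝ} (hC : 0 < cos t) (hS : sin t ≠ 0) :
    0 < sin t * side R r d s y (cptcs R r d (y+2*t) y) := by
  unfold cptcs
  rw [side_pt, show y + 2*t - y = 2*t by ring, sin_two_mul]
  have h1 := sf_pos h (y+2*t)
  have h2 : 0 < sin t^2 := by positivity
  have : sin t * (sf R r d (y+2*t) * (2*sin t*cos t)) =
    2 * sf R r d (y+2*t) * cos t * sin t^2 := by ring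
  rw [this]
  positivity

lemma ss_coord {x t : ℝ} (hC : cos t ≠ 0)
    (hrel : Rel (coef R r d s s) x (x+2*t) = 0) :
    (r*(sin t/cos t) + d*sin x)^2 = dd R r d x := by
  have hr := rel_ss' hrel
  rw [cos_add_two] at hr
  obtain ⟨T, hT⟩ : ∃ T, T = sin t/cos t := ⟨_, rfl⟩
  have hS : sin t = T*cos t := by rw [hT]; field_simp
  rw [← hT]
  rw [hS] at hr
  have h2 := sin_sq' t
  rw [hS] at h2
  have h3 : (1 + T^2) * cos t^2 = 1 := by linear_combination h2
  have h4 : cos t^2 * (r^2*(1+T^2) - 2*r*d*(cos x - T*sin x) - (R^2-d^2)) = 0 := by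
    linear_combination r^2*h3 - hr
  have h5 := (mul_eq_zero.mp h4).resolve_left (by positivity)
  unfold dd
  linear_combination h5 + d^2 * sin_sq' x

/-- the common endpoint of two chords -/
lemma pt_symm {x t : ℝ} (hC : cos t ≠ 0) :
    pt r x (r*(sin t/cos t)) = pt r (x+2*t) (-(r*(sin t/cos t))) := by
  have e1 := cos_add_two x t
  have e2 := sin_add_two x t
  unfold pt
  apply Complex.ext
  · simp only
    rw [e1, e2]
    field_simp
    linear_combination (-2*r*cos x*cos t)*(sin_sq' t)
  · simp only
    rw [e1, e2]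
    field_simp
    linear_combination (-2*r*sin x*cos t)*(sin_sq' t)

lemma rel_symm {a b : Letter} {x y : ℝ} (hrel : Rel (coef R r d a b) x y = 0) :
    Rel (coef R r d b a) y x = 0 := by
  rw [← coef_swap, rel_swap, hrel]

lemma inter_ss (h : Adm R r d) {x t : ℝ} (hC : cos t ≠ 0) (hS : sin t ≠ 0)
    (hrel : Rel (coef R r d s s) x (x+2*t) = 0) :
    link R r d s x ∩ link R r d s (x+2*t) = {pt r x (r*(sin t/cos t))} := by
  have hsym := pt_symm (r := r) (x := x) (t := t) hC
  ext z
  rw [Set.mem_inter_iff, Set.mem_singleton_iff]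
  constructor
  · rintro ⟨h3, h4⟩
    unfold link at h3 h4
    rw [mem_segment_pt (tm_lt_tp h _)] at h3 h4
    obtain ⟨t1, -, -, hz1⟩ := h3
    obtain ⟨t2, -, -, hz2⟩ := h4
    have l1 : z.re * cos x + z.im * sin x = r := by
      rw [hz1, pt_re, pt_im]
      linear_combination r * sin_sq_add_cos_sq x
    have l2 : z.re * cos (x+2*t) + z.im * sin (x+2*t) = r := by
      rw [hz2, pt_re, pt_im]
      linear_combination r * sin_sq_add_cos_sq (x+2*t)
    have l3 : t1 * (2 * sin t * cos t) = 2 * r * sin t ^2 := by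
      rw [hz1, pt_re, pt_im, cos_add_two, sin_add_two] at l2
      have := sin_sq_add_cos_sq x
      have h2 := sin_sq' t
      linear_combination l2 + (-r*(2*cos t^2-1) - t1 * (2*sin t*cos t)) * this - 2*r*h2
    have l4 : t1 = r * (sin t/cos t) := by
      have : (2 * sin t) * (t1 * cos t - r * sin t) = 0 := by linear_combination l3
      have := (mul_eq_zero.mp this).resolve_left (by positivity)
      field_simp
      linarith
    rw [hz1, l4]
  · rintro rfl
    constructor
    · exact pt_mem_chord h _ _ (ss_coord hC hrel).le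
    · rw [hsym]
      apply pt_mem_chord h
      have hrel' : Rel (coef R r d s s) (x+2*t) ((x+2*t)+2*(-t)) = 0 := by
        rw [show (x+2*t)+2*(-t) = x by ring]
        exact rel_symm hrel
      have := ss_coord (t := -t) (by rwa [cos_neg]) hrel'
      rw [sin_neg, cos_neg, neg_div, mul_neg] at this
      exact this.le

/-- consecutive links of a forward chain are in contact -/
theorem exists_contact (h : Adm R r d) (a b : Letter) {x y : ℝ}
    (hrel : Rel (coef R r d a b) x y = 0) (hxy : x < y) (hyx : y < x + π) :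
    ∃ p, IsContact (std h) a b (link R r d a x) (link R r d b y) p ∧
      0 < side R r d a x p ∧ side R r d b y p < 0 := by
  obtain ⟨t, ht⟩ : ∃ t, t = (y - x)/2 := ⟨_, rfl⟩
  have hy : y = x + 2*t := by rw [ht]; ring
  have ht0 : 0 < t := by rw [ht]; linarith
  have ht1 : t < π/2 := by rw [ht]; linarith
  have hC : 0 < cos t := cos_pos_of_mem_Ioo ⟨by linarith, ht1⟩
  have hS : 0 < sin t := sin_pos_of_pos_of_lt_pi ht0 (by linarith)
  have hC' : 0 < cos (-t) := by rwa [cos_neg]
  have hS' : sin (-t) ≠ 0 := by rw [sin_neg]; exact (neg_lt_zero.mpr hS).ne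
  subst hy
  have hback : x = (x+2*t) + 2*(-t) := by ring
  have hneg : ∀ v, 0 < sin (-t) * v → v < 0 := by
    intro v hv
    rw [sin_neg] at hv
    by_contra hcon
    push Not at hcon
    nlinarith
  have hpos : ∀ v, 0 < sin t * v → 0 < v := fun v hv => (mul_pos_iff_of_pos_left hS).mp hv
  cases a <;> cases b
  · refine ⟨cptcc R r d x (x+2*t), ⟨inter_cc h hrel, by simp⟩, hpos _ (side_cc h hrel hC hS.ne'),
      hneg _ ?_⟩
    rw [cptcc_symm h]
    have hrel' := rel_symm hrel
    rw [hback] at hrel'
    have := side_cc h (x := x+2*t) (t := -t) (by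
      rw [← hback] at hrel' ⊢; exact hrel') hC' hS'
    rwa [← hback] at this
  · have hr := rel_cs' hrel
    refine ⟨cptcs R r d x (x+2*t), ⟨inter_cs h hr (Or.inl rfl), by simp⟩,
      hpos _ (side_cs h hr hC hS.ne'), hneg _ ?_⟩
    have := side_sc h (y := x+2*t) (t := -t) hC' hS'
    rwa [← hback] at this
  · have hr := rel_sc' hrel
    have hr' : Kf R r d * sin (-t)^2 = Qf R r d (x+2*t) := by
      rw [sin_neg, neg_sq]; exact hr
    refine ⟨cptcs R r d (x+2*t) x, ⟨?_, by simp⟩,
      hpos _ (side_sc h hC hS.ne'), hneg _ ?_⟩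
    · rw [Set.inter_comm]
      exact inter_cs h hr (Or.inr (by ring))
    · have := side_cs h (x := x+2*t) (t := -t) hr' hC' hS'
      rwa [← hback] at this
  · have hI := inter_ss h hC.ne' hS.ne' hrel
    refine ⟨pt r x (r*(sin t/cos t)), ⟨hI, fun _ _ => ?_⟩, ?_, ?_⟩
    · rw [pt_mem_outer]
      exact ss_coord hC.ne' hrel
    · rw [side_pt]
      have := h.1
      positivity
    · rw [pt_symm hC.ne', side_pt]
      have := h.1
      have : 0 < r*(sin t/cos t) := by positivity
      linarith

/-- separation from signs -/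
theorem separated_of_side (h : Adm R r d) (a : Letter) {x : ℝ} {p q : ℂ}
    (hp : p ∈ link R r d a x) (hq : q ∈ link R r d a x)
    (hp' : side R r d a x p < 0) (hq' : 0 < side R r d a x q) :
    Separated (std h) a (link R r d a x) p q := by
  cases a
  · exact ⟨_, _, circle_inter_inner h x, circle_inter_outer h x, sOppSide_of_cross hp' hq'⟩
  · refine ⟨_, chord_inter_inner h x, ?_⟩
    unfold link at hp hq
    rw [mem_segment_pt (tm_lt_tp h _)] at hp hq
    obtain ⟨t1, -, -, rfl⟩ := hp
    obtain ⟨t2, -, -, rfl⟩ := hq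
    rw [side_pt] at hp' hq'
    have hne : ∀ u v, u ≠ v → pt r x u ≠ pt r x v := by
      intro u v huv heq
      apply huv
      have := congrArg (side R r d s x) heq
      rwa [side_pt, side_pt] at this
    refine ⟨?_, hne _ _ hp'.ne', hne _ _ hq'.ne⟩
    have h12 : t1 < t2 := by linarith
    have := (mem_segment_pt (r := r) (x := x) h12 (pt r x 0)).mpr ⟨0, hp'.le, hq'.le, rfl⟩
    exact mem_segment_iff_wbtw.mp this

end

end MixedChains
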