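import Pool.Agent.Lib.MP_8152b2_gt.Chain

/-!
All links and all contacts in the standard annulus.
-/

namespace MixedChains

open Real Letter Metric Set

section
variable {R r d : ℝ}

lemma dist_sq (z w : ℂ) : dist z w ^ 2 = (z.re - w.re)^2 + (z.im - w.im)^2 := by
  rw [Complex.dist_eq_re_im, sq_sqrt (by positivity)]

/-- every inscribed circle is one of the circles `link c x` -/
theorem exists_circle (h : Adm R r d) {u : Set ℂ} (hu : IsInscribedCircle (std h) u) :
    ∃ x, u = link R r d c x := by
  obtain ⟨P, ρ, hρ, rfl, hsub, ⟨A, hA⟩, ⟨B, hB⟩⟩ := hu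
  have hA' : A ∈ sphere P ρ ∩ (std h).inner := by rw [hA]; rfl
  have hB' : B ∈ sphere P ρ ∩ (std h).outer := by rw [hB]; rfl
  have hreg : (std h).region = closedBall (d:ℂ) R \ ball (0:ℂ) r := rfl
  rw [hreg] at hsub
  have hA1 : dist A P = ρ := hA'.1
  have hA2 : dist A 0 = r := hA'.2
  have hB1 : dist B P = ρ := hB'.1
  have hB2 : dist B (d:ℂ) = R := hB'.2
  have hr := h.1
  -- distance to the origin
  have n1 : dist P 0 = r + ρ := by
    apply le_antisymm
    · have := dist_triangle P A 0
      rw [dist_comm P A] at this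
      linarith
    · by_contra hcon
      push Not at hcon
      rw [dist_zero_right] at hcon
      rcases le_or_gt ‖P‖ ρ with hle | hgt
      · have : (0:ℂ) ∈ closedBall P ρ := by
          rw [mem_closedBall, dist_comm, dist_zero_right]; exact hle
        have := (hsub this).2
        apply this
        rw [mem_ball, dist_self]
        exact hr
      · have hP : 0 < ‖P‖ := lt_trans hρ hgt
        have hz : ((1 - ρ/‖P‖ : ℝ) : ℂ) * P ∈ closedBall P ρ := by
          rw [mem_closedBall, dist_eq_norm]
          have : ((1 - ρ/‖P‖ : ℝ) : ℂ) * P - P = -(((ρ/‖P‖ : ℝ) : ℂ) * P) := by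
            push_cast; ring
          rw [this, norm_neg, norm_mul, Complex.norm_real, norm_eq_abs, abs_of_pos (by positivity)]
          field_simp
          exact le_rfl
        have := (hsub hz).2
        apply this
        rw [mem_ball, dist_zero_right, norm_mul, Complex.norm_real, norm_eq_abs,
          abs_of_pos (by rw [sub_pos, div_lt_one hP]; exact hgt)]
        have : (1 - ρ/‖P‖) * ‖P‖ = ‖P‖ - ρ := by field_simp
        rw [this]
        linarith
  -- distance to the other centre
  have n2 : dist P (d:ℂ) = R - ρ := by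
    apply le_antisymm
    · rcases eq_or_ne P (d:ℂ) with hPd | hPd
      · rw [hPd, dist_self]
        have hz : P + (ρ:ℂ) ∈ closedBall P ρ := by
          rw [mem_closedBall, dist_eq_norm, add_sub_cancel_left, Complex.norm_real,
            norm_eq_abs, abs_of_pos hρ]
        have := (hsub hz).1
        rw [mem_closedBall, dist_eq_norm, hPd, add_sub_cancel_left, Complex.norm_real,
            norm_eq_abs, abs_of_pos hρ] at this
        linarith
      · have hP : 0 < ‖P - (d:ℂ)‖ := norm_pos_iff.mpr (sub_ne_zero.mpr hPd)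
        have hz : P + ((ρ/‖P - (d:ℂ)‖ : ℝ) : ℂ) * (P - (d:ℂ)) ∈ closedBall P ρ := by
          rw [mem_closedBall, dist_eq_norm, add_sub_cancel_left, norm_mul, Complex.norm_real,
            norm_eq_abs, abs_of_pos (by positivity)]
          field_simp
          exact le_rfl
        have := (hsub hz).1
        rw [mem_closedBall, dist_eq_norm] at this
        have e : P + ((ρ/‖P - (d:ℂ)‖ : ℝ) : ℂ) * (P - (d:ℂ)) - (d:ℂ) =
          ((1 + ρ/‖P - (d:ℂ)‖ : ℝ) : ℂ) * (P - (d:ℂ)) := by push_cast; ring
        rw [e, norm_mul, Complex.norm_real, norm_eq_abs, abs_of_pos (by positivity)] at this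
        have e2 : (1 + ρ/‖P - (d:ℂ)‖) * ‖P - (d:ℂ)‖ = ‖P - (d:ℂ)‖ + ρ := by field_simp
        rw [e2] at this
        rw [dist_eq_norm]
        linarith
    · have := dist_triangle B P (d:ℂ)
      linarith
  refine ⟨Complex.arg P, ?_⟩
  have c1 : (r + ρ) * cos (Complex.arg P) = P.re := by
    rw [← n1, dist_zero_right]; exact Complex.norm_mul_cos_arg P
  have c2 : (r + ρ) * sin (Complex.arg P) = P.im := by
    rw [← n1, dist_zero_right]; exact Complex.norm_mul_sin_arg P
  set x := Complex.arg P
  have c3 : (P.re - d)^2 + P.im^2 = (R - ρ)^2 := by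
    rw [← n2, dist_sq]; simp
  rw [← c1, ← c2] at c3
  have c4 : (r + ρ) * (2 * mf R r d x) = Kf R r d := by
    unfold mf Kf
    have := sin_sq' x
    linear_combination c3 - (r+ρ)^2 * this
  have hm := h.toC.mf_pos x
  have c5 : sf R r d x = r + ρ := by
    unfold sf
    rw [← c4]
    field_simp
  have c6 : rad R r d x = ρ := by
    have := sf_eq h x
    linarith
  have c7 : cen R r d x = P := by
    unfold cen
    rw [c5, c1, c2]
  simp only [link, c6, c7]

/-- every tangent chord is one of the chords `link s x` -/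
theorem exists_chord (h : Adm R r d) {u : Set ℂ} (hu : IsTangentChord (std h) u) :
    ∃ x, u = link R r d s x := by
  obtain ⟨A, B, hA, hB, hAB, rfl, ⟨T, hT⟩⟩ := hu
  have hT' : T ∈ segment ℝ A B ∩ (std h).inner := by rw [hT]; rfl
  have hr := h.1
  have hlt := h.3
  have hd := h.2
  rw [outer_mem] at hA hB
  obtain ⟨⟨v, t, hv, ht, hvt, hTe⟩, hTi⟩ := hT'
  have hTi0 := hTi
  rw [inner_mem] at hTi
  have hv' : v = 1 - t := by linarith
  -- points on `k` are outside `ω`
  have hout : ∀ z : ℂ, (z.re - d)^2 + z.im^2 = R^2 → r^2 < z.re^2 + z.im^2 := by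
    intro z hz
    have h1 : (z.re^2 + z.im^2) = R^2 + 2*d*z.re - d^2 := by linarith
    by_contra hcon
    push Not at hcon
    have h2 : z.re^2 ≤ r^2 := by nlinarith only [hcon, sq_nonneg z.im]
    have h3 : -r ≤ z.re := (abs_le_of_sq_le_sq' h2 hr.le).1
    nlinarith only [h3, hcon, hd, hlt, hr, hz]
  have hA1 := hout A hA
  have hB1 := hout B hB
  have Tre : T.re = A.re + t*(B.re - A.re) := by
    rw [← hTe, hv']; simp; ring
  have Tim : T.im = A.im + t*(B.im - A.im) := by
    rw [← hTe, hv']; simp; ring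
  -- quadratic function on the line
  set α := (B.re - A.re)^2 + (B.im - A.im)^2 with hα
  set β := A.re*(B.re - A.re) + A.im*(B.im - A.im) with hβ
  have hαpos : 0 < α := by
    rcases lt_or_eq_of_le (add_nonneg (sq_nonneg (B.re - A.re)) (sq_nonneg (B.im - A.im)))
      with h' | h'
    · exact h'
    · exfalso
      apply hAB
      apply Complex.ext <;> nlinarith only [h', sq_nonneg (B.re - A.re), sq_nonneg (B.im - A.im)]
  have f0 : (A.re^2 + A.im^2) + 2*β*t + α*t^2 = r^2 := by
    rw [← hTi, Tre, Tim, hα, hβ]; ring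
  have f1 : B.re^2 + B.im^2 = (A.re^2 + A.im^2) + 2*β + α := by
    rw [hα, hβ]; ring
  -- the other root
  obtain ⟨t', ht'⟩ : ∃ t', t' = -2*β/α - t := ⟨_, rfl⟩
  have ht'' : α * (t + t') = -2*β := by rw [ht']; field_simp; ring
  have e0 : α*(t*t') = (A.re^2 + A.im^2) - r^2 := by
    have : α*(t*t') = t*(α*(t+t')) - α*t^2 := by ring
    rw [this, ht'']; linarith only [f0]
  have e1 : α*((1-t)*(1-t')) = (B.re^2+B.im^2) - r^2 := by
    have : α*((1-t)*(1-t')) = α - α*(t+t') + α*(t*t') := by ring
    rw [this, ht'', e0, f1]; ring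
  have p0 : 0 < t*t' := by
    have : 0 < α*(t*t') := by rw [e0]; linarith
    exact (mul_pos_iff_of_pos_left hαpos).mp this
  have p1 : 0 < (1-t)*(1-t') := by
    have : 0 < α*((1-t)*(1-t')) := by rw [e1]; linarith
    exact (mul_pos_iff_of_pos_left hαpos).mp this
  have t0 : 0 < t := lt_of_le_of_ne ht (by rintro rfl; simp at p0)
  have t1 : 0 < 1 - t := lt_of_le_of_ne (by linarith) (by intro h0; rw [← h0] at p1; simp at p1)
  have t'0 : 0 < t' := (mul_pos_iff_of_pos_left t0).mp p0
  have t'1 : 0 < 1 - t' := (mul_pos_iff_of_pos_left t1).mp p1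
  have f2 : (A.re^2 + A.im^2) + 2*β*t' + α*t'^2 = r^2 := by
    have e2 : α*t' = -2*β - α*t := by linarith only [ht'']
    have : α*t'^2 = t'*(α*t') := by ring
    have e3 : t' * (-2*β - α*t) = -2*β*t' - α*(t*t') := by ring
    rw [this, e2, e3, e0]; ring
  -- the other root gives the same point
  have hmem : (⟨A.re + t'*(B.re-A.re), A.im + t'*(B.im-A.im)⟩ : ℂ) ∈
      segment ℝ A B ∩ (std h).inner := by
    refine ⟨⟨1-t', t', t'1.le, t'0.le, by ring, ?_⟩, ?_⟩
    · apply Complex.ext <;> simp <;> ring
    · rw [inner_mem]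
      simp only
      rw [← f2, hα, hβ]; ring
  rw [hT] at hmem
  have hTeq : (⟨A.re + t'*(B.re-A.re), A.im + t'*(B.im-A.im)⟩ : ℂ) = T := hmem
  have g1 : t' = t := by
    have q1 := congrArg Complex.re hTeq
    have q2 := congrArg Complex.im hTeq
    simp only at q1 q2
    rw [Tre] at q1
    rw [Tim] at q2
    have : α * (t' - t)^2 = 0 := by
      rw [hα]
      have r1 : (t'-t)*(B.re-A.re) = 0 := by linarith
      have r2 : (t'-t)*(B.im-A.im) = 0 := by linarith
      have : ((B.re - A.re)^2 + (B.im - A.im)^2) * (t' - t)^2 =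
        ((t'-t)*(B.re-A.re))^2 + ((t'-t)*(B.im-A.im))^2 := by ring
      rw [this, r1, r2]; ring
    have := (mul_eq_zero.mp this).resolve_left hαpos.ne'
    have := pow_eq_zero_iff (two_ne_zero) |>.mp this
    linarith
  have hβt : β + α*t = 0 := by rw [g1] at ht''; linarith only [ht'']
  -- direction of `T`
  have nT : ‖T‖ = r := by
    have : dist T 0 = r := hTi0
    rwa [dist_zero_right] at this
  refine ⟨Complex.arg T, ?_⟩
  have c1 : r * cos (Complex.arg T) = T.re := by
    rw [← nT]; exact Complex.norm_mul_cos_arg T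
  have c2 : r * sin (Complex.arg T) = T.im := by
    rw [← nT]; exact Complex.norm_mul_sin_arg T
  set x := Complex.arg T
  have hperp : (B.re-A.re)*cos x + (B.im-A.im)*sin x = 0 := by
    have : r * ((B.re-A.re)*cos x + (B.im-A.im)*sin x) = 0 := by
      have : r * ((B.re-A.re)*cos x + (B.im-A.im)*sin x) =
        (B.re-A.re)*(r*cos x) + (B.im-A.im)*(r*sin x) := by ring
      rw [this, c1, c2, Tre, Tim]
      have : (B.re-A.re)*(A.re + t*(B.re-A.re)) + (B.im-A.im)*(A.im+t*(B.im-A.im)) = β + α*t := by
        rw [hα, hβ]; ring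
      rw [this, hβt]
    exact (mul_eq_zero.mp this).resolve_left hr.ne'
  obtain ⟨μ, hμ⟩ : ∃ μ, μ = (B.im-A.im)*cos x - (B.re-A.re)*sin x := ⟨_, rfl⟩
  have s1 := sin_sq_add_cos_sq x
  have b1 : B.re - A.re = -μ*sin x := by
    rw [hμ]; linear_combination (-(B.re-A.re))*s1 + cos x*hperp
  have b2 : B.im - A.im = μ*cos x := by
    rw [hμ]; linear_combination (-(B.im-A.im))*s1 + sin x*hperp
  have A1 : A = pt r x (-t*μ) := by
    apply Complex.ext
    · rw [pt_re]; rw [b1] at Tre; linarith
    · rw [pt_im]; rw [b2] at Tim; linarith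
  have B1 : B = pt r x ((1-t)*μ) := by
    apply Complex.ext
    · rw [pt_re]; rw [b1] at Tre; linarith
    · rw [pt_im]; rw [b2] at Tim; linarith
  have hμ0 : μ ≠ 0 := by
    intro h0
    apply hAB
    rw [A1, B1, h0]; simp
  have kA : (-t*μ + d*sin x)^2 = dd R r d x := by
    rw [← pt_mem_outer h, ← A1, outer_mem]; exact hA
  have kB : ((1-t)*μ + d*sin x)^2 = dd R r d x := by
    rw [← pt_mem_outer h, ← B1, outer_mem]; exact hB
  have hs : √(dd R r d x)^2 = dd R r d x := sq_sqrt (dd_pos h x).le
  rw [← hs] at kA kB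
  have kA' := sq_eq_sq_iff_eq_or_eq_neg.mp kA
  have kB' := sq_eq_sq_iff_eq_or_eq_neg.mp kB
  have hsp := sqrt_pos.mpr (dd_pos h x)
  unfold link
  rcases lt_or_gt_of_ne hμ0 with hneg | hpos
  · have q1 : (1-t)*μ < -t*μ := by nlinarith only [hneg]
    have q2 : -t*μ = tp R r d x := by
      unfold tp
      rcases kA' with h' | h' <;> rcases kB' with h'' | h'' <;> linarith
    have q3 : (1-t)*μ = tm R r d x := by
      unfold tm
      rcases kA' with h' | h' <;> rcases kB' with h'' | h'' <;> linarith
    rw [A1, B1, q2, q3, segment_symm]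
  · have q1 : -t*μ < (1-t)*μ := by nlinarith only [hpos]
    have q2 : -t*μ = tm R r d x := by
      unfold tm
      rcases kA' with h' | h' <;> rcases kB' with h'' | h'' <;> linarith
    have q3 : (1-t)*μ = tp R r d x := by
      unfold tp
      rcases kA' with h' | h' <;> rcases kB' with h'' | h'' <;> linarith
    rw [A1, B1, q2, q3]

theorem exists_link (h : Adm R r d) (a : Letter) {u : Set ℂ} (hu : IsLink (std h) a u) :
    ∃ x, u = link R r d a x := by
  cases a
  · exact exists_circle h hu
  · exact exists_chord h hu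

end

end MixedChains
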