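import Mathlib

/-!
# Mixed circle-segment chains in an annulus

Definitions for problem MP_8152b2_gt.  The Euclidean plane is `ℂ`.
-/

namespace MixedChains

open Metric

/-- The two letters of the words: `c` stands for a circle, `s` for a segment. -/
inductive Letter
  | c
  | s
  deriving DecidableEq

/-- Two circles of the plane: `k` with centre `K` and radius `R`, and `ω` with centre `O` and
radius `r > 0`, such that `ω` lies in the interior of `k`. -/
structure Annulus where
  K : ℂ
  O : ℂ
  R : ℝ
  r : ℝ
  r_pos : 0 < r
  inside : dist K O < R - r

/-- The outer circle `k`. -/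
def Annulus.outer (a : Annulus) : Set ℂ := sphere a.K a.R

/-- The inner circle `ω`. -/
def Annulus.inner (a : Annulus) : Set ℂ := sphere a.O a.r

/-- The annulus between `ω` and `k`: the points in or on `k` and on or outside `ω`. -/
def Annulus.region (a : Annulus) : Set ℂ := closedBall a.K a.R \ ball a.O a.r

/-- `u` is a circle inscribed in the annulus: a circle of positive radius whose disk lies in the
annulus and which is tangent to `ω` and to `k` (meets each of them in exactly one point). -/
def IsInscribedCircle (a : Annulus) (u : Set ℂ) : Prop :=
  ∃ (P : ℂ) (ρ : ℝ), 0 < ρ ∧ u = sphere P ρ ∧ closedBall P ρ ⊆ a.region ∧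
    (∃ A, u ∩ a.inner = {A}) ∧ (∃ B, u ∩ a.outer = {B})

/-- `u` is a chord of `k` (the segment between two distinct points of `k`) that is tangent to `ω`
(meets it in exactly one point). -/
def IsTangentChord (a : Annulus) (u : Set ℂ) : Prop :=
  ∃ A B : ℂ, A ∈ a.outer ∧ B ∈ a.outer ∧ A ≠ B ∧ u = segment ℝ A B ∧ ∃ T, u ∩ a.inner = {T}

/-- `u` is a link of the type given by the letter. -/
def IsLink (a : Annulus) : Letter → Set ℂ → Prop
  | .c, u => IsInscribedCircle a u
  | .s, u => IsTangentChord a u

/-- The consecutive links `u` (of type `x`) and `v` (of type `y`) are in contact at the point `p`: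
`p` is their only common point and, if both are segments, it is a common endpoint of them
(the endpoints of a chord of `k` are its points on `k`). -/
def IsContact (a : Annulus) (x y : Letter) (u v : Set ℂ) (p : ℂ) : Prop :=
  u ∩ v = {p} ∧ (x = .s → y = .s → p ∈ a.outer)

/-- On the link `u`, the points `p` and `q` are separated by the contact points of `u` with `ω`
and `k` (if `u` is a circle: `p` and `q` lie strictly on opposite sides of the line through these
two points of the circle `u`), or by the contact point of `u` with `ω` (if `u` is a segment:
this point lies strictly between `p` and `q`). -/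
def Separated (a : Annulus) : Letter → Set ℂ → ℂ → ℂ → Prop
  | .c, u, p, q => ∃ A B, u ∩ a.inner = {A} ∧ u ∩ a.outer = {B} ∧ (line[ℝ, A, B]).SOppSide p q
  | .s, u, p, q => ∃ T, u ∩ a.inner = {T} ∧ Sbtw ℝ p T q

/-- The letter `a_{i+1}` of the word `w = a_1 ... a_n`, indices being read modulo `n`. -/
def letter {n : ℕ} [NeZero n] (w : Fin n → Letter) (i : ℕ) : Letter := w (Fin.ofNat n i)

/-- `u_0, ..., u_n` is a chain for the word `w = a_1 ... a_n` (so the links called
`u_1, ..., u_{n+1}` in the problem are here `u_0, ..., u_n`). -/
structure IsChain (a : Annulus) {n : ℕ} [NeZero n] (w : Fin n → Letter)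
    (u : Fin (n + 1) → Set ℂ) : Prop where
  /-- every link is of the type given by its letter -/
  link : ∀ i : Fin (n + 1), IsLink a (letter w i) (u i)
  /-- consecutive links are in contact; on every link but the first and the last, the contact
  points with its two neighbours are separated -/
  contact : ∃ p : Fin n → ℂ,
    (∀ i : Fin n, IsContact a (letter w i) (letter w (i + 1)) (u i.castSucc) (u i.succ) (p i)) ∧
    ∀ i j : Fin n, (j : ℕ) = i + 1 → Separated a (letter w j) (u j.castSucc) (p i) (p j)

/-- The chain closes: its last link is its first link. -/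
def Closes {n : ℕ} (u : Fin (n + 1) → Set ℂ) : Prop := u (Fin.last n) = u 0

/-- The chain for `w` closes for the initial link `v`: there is a chain for `w` with first link
`v` that closes.  (From a given initial link one can start a chain in either of the two
directions around the annulus.) -/
def ClosesFrom (a : Annulus) {n : ℕ} [NeZero n] (w : Fin n → Letter) (v : Set ℂ) : Prop :=
  ∃ u : Fin (n + 1) → Set ℂ, IsChain a w u ∧ u 0 = v ∧ Closes u

/-- `w` is a closure sequence: in every annulus, if the chain for `w` closes for some initial
link, then it closes for every initial link (of the type `a_1`); and in some annulus it closes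
for some initial link. -/
def IsClosureSequence {n : ℕ} [NeZero n] (w : Fin n → Letter) : Prop :=
  (∀ a : Annulus, (∃ v, ClosesFrom a w v) →
      ∀ v, IsLink a (letter w 0) v → ClosesFrom a w v) ∧
    ∃ a : Annulus, ∃ v, ClosesFrom a w v

/-- The triple `(R, r, d)` is admissible: `R > r > 0` and `0 ≤ d < R - r`. -/
def Admissible (R r d : ℝ) : Prop := 0 < r ∧ r < R ∧ 0 ≤ d ∧ d < R - r

/-- The set `Z_w`: the triple `(R, r, d)` belongs to it if the chain for `w` closes for some
initial link in some annulus with radii `R`, `r` and distance `d` between the centres. -/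
def ClosureLocus {n : ℕ} [NeZero n] (w : Fin n → Letter) (R r d : ℝ) : Prop :=
  ∃ a : Annulus, a.R = R ∧ a.r = r ∧ dist a.K a.O = d ∧ ∃ v, ClosesFrom a w v

end MixedChains
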