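import Pool.Agent.Lib.MP_8152b2_gt.Chain

/-!
Words with `a_{j+2} = a_j`: the chain started at the symmetric position is given by a
polynomial recursion.
-/

namespace MixedChains

open Real Letter Metric

/-- one step of the recursion -/
def nxt {A : Type} [CommRing A] (k : Coef A) (α γ : A) (p q : A × A) : A × A :=
  (p.1 * ((k.ga*γ*q.1^2 - k.ze*α*q.2^2) - (k.al*γ*q.1^2 - k.be*α*q.2^2)) +
      2*k.mu*α*q.1*q.2*p.2,
   p.2 * ((k.al*γ*q.1^2 - k.be*α*q.2^2) - (k.ga*γ*q.1^2 - k.ze*α*q.2^2)) -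
      2*k.mu*γ*q.1*q.2*p.1)

/-- two consecutive pairs of the recursion -/
def pstate {A : Type} [CommRing A] (R r d : A) (a : ℕ → Letter) : ℕ → (A × A) × (A × A)
  | 0 => ((1, 0), (1, 1))
  | j + 1 => ((pstate R r d a j).2,
      nxt (coef R r d (a (j+1)) (a (j+2))) (coef R r d (a 0) (a 1)).al
        (coef R r d (a 0) (a 1)).ga (pstate R r d a j).1 (pstate R r d a j).2)

lemma pstate_map {A B : Type} [CommRing A] [CommRing B] (φ : A →+* B) (R r d : A)
    (a : ℕ → Letter) (j : ℕ) :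
    pstate (φ R) (φ r) (φ d) a j =
      ((φ (pstate R r d a j).1.1, φ (pstate R r d a j).1.2),
       (φ (pstate R r d a j).2.1, φ (pstate R r d a j).2.2)) := by
  have hcoef : ∀ x y : Letter, coef (φ R) (φ r) (φ d) x y =
      ⟨φ (coef R r d x y).al, φ (coef R r d x y).be, φ (coef R r d x y).ga,
       φ (coef R r d x y).ze, φ (coef R r d x y).mu⟩ := by
    intro x y
    cases x <;> cases y <;> simp [coef, map_ofNat φ 2]
  induction j with
  | zero => simp [pstate]
  | succ j ih =>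
    simp only [pstate, ih, hcoef, nxt, map_add, map_sub, map_mul, map_pow, map_ofNat]

lemma rel_half (k : Coef ℝ) (x y : ℝ) :
    Rel k x y = (k.al * cos (x/2)^2 + k.be * sin (x/2)^2) * cos (y/2)^2 +
      2 * (k.mu * cos (x/2) * sin (x/2)) * cos (y/2) * sin (y/2) +
      (k.ga * cos (x/2)^2 + k.ze * sin (x/2)^2) * sin (y/2)^2 := by
  have h1 : cos x = 2*cos (x/2)^2 - 1 := by rw [← cos_two_mul]; congr 1; ring
  have h2 : sin x = 2*sin (x/2)*cos (x/2) := by rw [← sin_two_mul]; congr 1; ring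
  have h3 : cos y = 2*cos (y/2)^2 - 1 := by rw [← cos_two_mul]; congr 1; ring
  have h4 : sin y = 2*sin (y/2)*cos (y/2) := by rw [← sin_two_mul]; congr 1; ring
  have h5 := sin_sq' (x/2)
  have h6 := sin_sq' (y/2)
  unfold Rel fA fB fD
  rw [h1, h2, h3, h4, h5, h6]
  ring

lemma other_root {A B D p1 p2 q1 q2 : ℝ} (h1 : A*p1^2 + 2*B*p1*p2 + D*p2^2 = 0)
    (h2 : A*q1^2 + 2*B*q1*q2 + D*q2^2 = 0) (hc : p1*q2 - p2*q1 ≠ 0)
    (hp : p1^2 + p2^2 = 1) (hne : ¬ (A = 0 ∧ B = 0 ∧ D = 0)) :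
    ∃ ν : ℝ, ν ≠ 0 ∧ q1 = ν*(p1*(D-A) - 2*B*p2) ∧ q2 = ν*(p2*(A-D) - 2*B*p1) := by
  obtain ⟨v1, hv1⟩ : ∃ v1, v1 = p1*(D-A) - 2*B*p2 := ⟨_, rfl⟩
  obtain ⟨v2, hv2⟩ : ∃ v2, v2 = p2*(A-D) - 2*B*p1 := ⟨_, rfl⟩
  have hE : q1*v2 - q2*v1 = 0 := by
    have : (p1*q2 - p2*q1) * (q1*v2 - q2*v1) = 0 := by
      rw [hv1, hv2]
      linear_combination (q1^2+q2^2)*h1 - (p1^2+p2^2)*h2
    exact (mul_eq_zero.mp this).resolve_left hc
  have hv : 0 < v1^2 + v2^2 := by
    rcases lt_or_eq_of_le (add_nonneg (sq_nonneg v1) (sq_nonneg v2)) with h | h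
    · exact h
    · exfalso
      have e1 : v1 = 0 := by nlinarith [sq_nonneg v1, sq_nonneg v2]
      have e2 : v2 = 0 := by nlinarith [sq_nonneg v1, sq_nonneg v2]
      rw [e1] at hv1
      rw [e2] at hv2
      have hB : B = 0 := by
        linear_combination (-B)*hp + p2/2*hv1 + p1/2*hv2
      rw [hB] at hv1 hv2 h1
      have hDA : D - A = 0 := by
        linear_combination (-(D-A))*hp - p1*hv1 + p2*hv2
      have hA : A = 0 := by
        linear_combination h1 - p2^2*hDA - A*hp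
      exact hne ⟨hA, hB, by linarith⟩
  refine ⟨(q1*v1+q2*v2)/(v1^2+v2^2), ?_, ?_, ?_⟩
  · intro h0
    have h3 : q1*v1+q2*v2 = 0 := by
      rcases div_eq_zero_iff.mp h0 with h | h
      · exact h
      · exact absurd h hv.ne'
    have h4 : q1 * (v1^2+v2^2) = 0 := by linear_combination v1*h3 + v2*hE
    have h5 : q2 * (v1^2+v2^2) = 0 := by linear_combination v2*h3 - v1*hE
    have h6 := (mul_eq_zero.mp h4).resolve_right hv.ne'
    have h7 := (mul_eq_zero.mp h5).resolve_right hv.ne'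
    apply hc
    rw [h6, h7]; ring
  · rw [← hv1]
    field_simp
    linear_combination v2*hE
  · rw [← hv2]
    field_simp
    linear_combination (-v1)*hE

section
variable {R r d : ℝ}

/-- the recursion computes the half angle coordinates of the orbit of `0` -/
theorem pstate_spec (h : Adm R r d) (a : ℕ → Letter) (ha : ∀ j, a (j+2) = a j) (j : ℕ) :
    let σ := tau (coef R r d (a 0) (a 1)) 0
    (∃ l : ℝ, l ≠ 0 ∧ cos (orb R r d a 0 j / 2) = l * (pstate R r d a j).1.1 ∧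
      sin (orb R r d a 0 j / 2) = l * σ * (pstate R r d a j).1.2) ∧
    (∃ l : ℝ, l ≠ 0 ∧ cos (orb R r d a 0 (j+1) / 2) = l * (pstate R r d a j).2.1 ∧
      sin (orb R r d a 0 (j+1) / 2) = l * σ * (pstate R r d a j).2.2) := by
  intro σ
  have hk := h.good (a 0) (a 1)
  have hg := hk 0
  have hg0 : g0 (coef R r d (a 0) (a 1)) 0 = (coef R r d (a 0) (a 1)).al := by
    simp [g0, fA, fB, fD]; ring
  have hgp : gp (coef R r d (a 0) (a 1)) 0 = (coef R r d (a 0) (a 1)).ga := by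
    simp [gp, fA, fB, fD]; ring
  have hb2 : b2 (coef R r d (a 0) (a 1)) 0 = 0 := by
    simp [b2, fB]
  have hσ := tau_root hg.1.le hg.2
  have hσ0 : 0 < σ := tau_pos hg.1 hg.2
  rw [hg0, hgp, hb2] at hσ
  rw [hg0, hgp] at hg
  have hσ' : (coef R r d (a 0) (a 1)).ga * σ^2 = -(coef R r d (a 0) (a 1)).al := by
    linarith
  induction j with
  | zero =>
    refine ⟨⟨1, one_ne_zero, by simp [orb, pstate], by simp [orb, pstate]⟩, ?_⟩
    refine ⟨cos (arctan σ), (cos_arctan_pos σ).ne', ?_, ?_⟩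
    · simp only [orb, pstate, step]
      rw [zero_add, mul_one]
      congr 1
      ring
    · simp only [orb, pstate, step]
      rw [zero_add, mul_one, show 2 * arctan σ / 2 = arctan σ by ring]
      rw [← tan_mul_cos (cos_arctan_pos σ).ne', tan_arctan]
      ring
  | succ j ih =>
    obtain ⟨⟨l1, hl1, hc1, hs1⟩, ⟨l2, hl2, hc2, hs2⟩⟩ := ih
    refine ⟨⟨l2, hl2, hc2, hs2⟩, ?_⟩
    set k := coef R r d (a (j+1)) (a (j+2)) with hkdef
    have r1 : Rel k (orb R r d a 0 (j+1)) (orb R r d a 0 (j+2)) = 0 := orb_rel h.toC a 0 (j+1)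
    have r2 : Rel k (orb R r d a 0 (j+1)) (orb R r d a 0 j) = 0 := by
      rw [hkdef, ha j]
      exact rel_symm (orb_rel h.toC a 0 j)
    rw [rel_half] at r1 r2
    have hgood := (h.good (a (j+1)) (a (j+2)) (orb R r d a 0 (j+1))).1
    rw [← hkdef] at hgood
    have hgood' : g0 k (orb R r d a 0 (j+1)) =
        (k.al * cos (orb R r d a 0 (j+1)/2)^2 + k.be * sin (orb R r d a 0 (j+1)/2)^2) *
          cos (orb R r d a 0 (j+1)/2)^2 +
        2 * (k.mu * cos (orb R r d a 0 (j+1)/2) * sin (orb R r d a 0 (j+1)/2)) *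
          cos (orb R r d a 0 (j+1)/2) * sin (orb R r d a 0 (j+1)/2) +
        (k.ga * cos (orb R r d a 0 (j+1)/2)^2 + k.ze * sin (orb R r d a 0 (j+1)/2)^2) *
          sin (orb R r d a 0 (j+1)/2)^2 := by
      rw [← rel_half]; rfl
    have l01 := orb_lt h a 0 j
    have l12 := orb_lt h a 0 (j+1)
    have u01 := orb_lt_add (R := R) (r := r) (d := d) a 0 j
    have u12 := orb_lt_add (R := R) (r := r) (d := d) a 0 (j+1)
    have hcross : cos (orb R r d a 0 j/2) * sin (orb R r d a 0 (j+2)/2) -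
        sin (orb R r d a 0 j/2) * cos (orb R r d a 0 (j+2)/2) ≠ 0 := by
      have : cos (orb R r d a 0 j/2) * sin (orb R r d a 0 (j+2)/2) -
        sin (orb R r d a 0 j/2) * cos (orb R r d a 0 (j+2)/2) =
        sin (orb R r d a 0 (j+2)/2 - orb R r d a 0 j/2) := by
        rw [sin_sub]; ring
      rw [this]
      apply (sin_pos_of_pos_of_lt_pi _ _).ne'
      · have : orb R r d a 0 (j+1) < orb R r d a 0 (j+2) := l12
        linarith
      · have : orb R r d a 0 (j+2) < orb R r d a 0 (j+1) + π := u12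
        linarith
    obtain ⟨ν, hν, hq1, hq2⟩ := other_root
      (A := k.al * cos (orb R r d a 0 (j+1)/2)^2 + k.be * sin (orb R r d a 0 (j+1)/2)^2)
      (B := k.mu * cos (orb R r d a 0 (j+1)/2) * sin (orb R r d a 0 (j+1)/2))
      (D := k.ga * cos (orb R r d a 0 (j+1)/2)^2 + k.ze * sin (orb R r d a 0 (j+1)/2)^2)
      (p1 := cos (orb R r d a 0 j/2)) (p2 := sin (orb R r d a 0 j/2))
      (q1 := cos (orb R r d a 0 (j+2)/2)) (q2 := sin (orb R r d a 0 (j+2)/2))
      r2 r1 hcross (by linarith [sin_sq_add_cos_sq (orb R r d a 0 j/2)])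
      (by
        rintro ⟨h1, h2, h3⟩
        rw [hgood', h1, h2, h3] at hgood
        simp at hgood)
    set α := (coef R r d (a 0) (a 1)).al
    set γ := (coef R r d (a 0) (a 1)).ga
    have hγ : 0 < γ := hg.2
    refine ⟨ν*l1*l2^2/γ, by positivity, ?_, ?_⟩
    · have e : orb R r d a 0 (j+1+1) = orb R r d a 0 (j+2) := rfl
      rw [e, hq1, hc1, hs1, hc2, hs2]
      simp only [pstate, nxt]
      rw [← hkdef]
      field_simp
      linear_combination ((pstate R r d a j).1.1 * (k.ze - k.be) *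
        (pstate R r d a j).2.2^2 - 2*k.mu*(pstate R r d a j).2.1*(pstate R r d a j).2.2*
        (pstate R r d a j).1.2) * hσ'
    · have e : orb R r d a 0 (j+1+1) = orb R r d a 0 (j+2) := rfl
      rw [e, hq2, hc1, hs1, hc2, hs2]
      simp only [pstate, nxt]
      rw [← hkdef]
      field_simp
      linear_combination ((pstate R r d a j).1.2 * (k.be - k.ze) *
        (pstate R r d a j).2.2^2) * hσ'

theorem orb_closes_iff (h : Adm R r d) (a : ℕ → Letter) (ha : ∀ j, a (j+2) = a j) (n : ℕ) :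
    (∃ k : ℤ, orb R r d a 0 n - 0 = 2*π*k) ↔ (pstate R r d a n).1.2 = 0 := by
  obtain ⟨⟨l, hl, -, hs⟩, -⟩ := pstate_spec h a ha n
  have hσ0 : 0 < tau (coef R r d (a 0) (a 1)) 0 :=
    tau_pos (h.good _ _ _).1 (h.good _ _ _).2
  have h1 : (pstate R r d a n).1.2 = 0 ↔ sin (orb R r d a 0 n / 2) = 0 := by
    rw [hs]
    constructor
    · intro h0; rw [h0, mul_zero]
    · intro h0
      exact (mul_eq_zero.mp h0).resolve_left (by positivity)
  rw [h1, sin_eq_zero_iff]
  constructor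
  · rintro ⟨k, hk⟩
    exact ⟨k, by linarith⟩
  · rintro ⟨k, hk⟩
    exact ⟨k, by linarith⟩

end

end MixedChains
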