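import Pool.Agent.Lib.MP_8152b2_gt.Ivt
import Pool.Agent.Lib.MP_8152b2_gt.Pure
import Pool.Agent.Lib.MP_8152b2_gt.Closed
import Pool.Agent.Lib.MP_8152b2_gt.Analytic

/-!
A closure sequence satisfies `a_{j+2} = a_j`.
-/

namespace MixedChains

open Real Letter Metric Set

/-- contribution of the `j`-th step -/
noncomputable def kj (R d : ℝ) (b : ℕ → Letter) (j : ℕ) : ℝ :=
  kap R 1 d (b j) (b (j+1)) (orb R 1 d b 0 j) (orb R 1 d b 0 (j+1))

section
variable {R d : ℝ} {b : ℕ → Letter} {n : ℕ}

lemma cos_orb_le (h : Adm R 1 d) (hR : 18 ≤ R) (hd : R - 17 ≤ d) (hn : 3 ≤ n)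
    (h1 : b 1 = c) (h2 : b (n-1) = s) (hclose : orb R 1 d b 0 n = 2*π) {j : ℕ}
    (hj1 : 1 ≤ j) (hj2 : j ≤ n - 1) : cos (orb R 1 d b 0 j) ≤ 1/2 := by
  have hmono : StrictMono (orb R 1 d b 0) := strictMono_nat_of_lt_succ (orb_lt h b 0)
  have hn1 : n - 1 + 1 = n := by omega
  have e1 : cos (orb R 1 d b 0 1) ≤ 1/2 := by
    have hrel := orb_rel h.toC b 0 0
    rw [zero_add, h1, orb_zero] at hrel
    exact first_cos h hR hd _ hrel
  have e2 : cos (orb R 1 d b 0 (n-1)) ≤ 1/2 := by
    have hrel := orb_rel h.toC b 0 (n-1)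
    rw [hn1, h2, hclose] at hrel
    exact last_cos h hR hd _ hrel
  have l1 : 0 < orb R 1 d b 0 1 := orb_lt h b 0 0
  have l2 : orb R 1 d b 0 1 < π := by
    have := orb_lt_add (R := R) (r := 1) (d := d) b 0 0
    rwa [orb_zero, zero_add, zero_add] at this
  have l3 : orb R 1 d b 0 (n-1) < 2*π := by
    have := orb_lt h b 0 (n-1)
    rwa [hn1, hclose] at this
  have l4 : π < orb R 1 d b 0 (n-1) := by
    have := orb_lt_add (R := R) (r := 1) (d := d) b 0 (n-1)
    rw [hn1, hclose] at this
    linarith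
  have m1 : π/3 ≤ orb R 1 d b 0 1 := by
    by_contra hcon
    push Not at hcon
    have := cos_lt_cos_of_nonneg_of_le_pi l1.le (by linarith [pi_pos]) hcon
    rw [cos_pi_div_three] at this
    linarith
  have m2 : orb R 1 d b 0 (n-1) ≤ 2*π - π/3 := by
    by_contra hcon
    push Not at hcon
    have hcon' : 2*π - orb R 1 d b 0 (n-1) < π/3 := by linarith
    have := cos_lt_cos_of_nonneg_of_le_pi (by linarith : 0 ≤ 2*π - orb R 1 d b 0 (n-1))
      (by linarith [pi_pos]) hcon'
    rw [cos_pi_div_three, cos_two_pi_sub] at this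
    linarith
  have k1 : π/3 ≤ orb R 1 d b 0 j := m1.trans (hmono.monotone hj1)
  have k2 : orb R 1 d b 0 j ≤ 2*π - π/3 := (hmono.monotone hj2).trans m2
  rw [← cos_pi_div_three]
  rcases le_total (orb R 1 d b 0 j) π with hle | hle
  · exact cos_le_cos_of_nonneg_of_le_pi (by linarith [pi_pos]) hle k1
  · rw [← cos_two_pi_sub (orb R 1 d b 0 j)]
    exact cos_le_cos_of_nonneg_of_le_pi (by linarith [pi_pos]) (by linarith) (by linarith)

/-- bound for the contribution of a step -/
lemma kj_le (h : Adm R 1 d) (hR : 18 ≤ R) (hd : R - 17 ≤ d) (hn : 3 ≤ n)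
    (hper : ∀ j, b (j+n) = b j)
    (h1 : b 1 = c) (h2 : b (n-1) = s) (hclose : orb R 1 d b 0 n = 2*π) {j : ℕ} (hj : j < n) :
    kj R d b j ≤ 16 ∧
      ((j = 0 ∧ b 0 = c ∨ j = n-1 ∧ b 0 = s) → kj R d b j ≤ 144/(R+1)) := by
  have hn1 : n - 1 + 1 = n := by omega
  have hbn : b n = b 0 := by have := hper 0; rwa [zero_add] at this
  have hcos : ∀ j, 1 ≤ j → j ≤ n - 1 → cos (orb R 1 d b 0 j) ≤ 1/2 := fun j h3 h4 =>
    cos_orb_le h hR hd hn h1 h2 hclose h3 h4
  have hlt := h.3
  have hd0 := h.2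
  have hR1 : (0:ℝ) < R + 1 := by linarith
  have hmp := fun x => h.toC.mf_pos x
  have hm2 : ∀ x, mf R 1 d x ≤ 2*(R+1) := mf_le hd0 (by linarith)
  have hm1 : ∀ j, 1 ≤ j → j ≤ n - 1 → (R+1)/2 ≤ mf R 1 d (orb R 1 d b 0 j) := fun j h3 h4 =>
    mf_ge (by linarith) hd0 (hcos j h3 h4)
  have hm0 : mf R 1 d 0 ≤ 18 := by
    have := mf_zero_le (R := R) (d := d) hd 0
    simpa using this
  have hm2pi : mf R 1 d (2*π) ≤ 18 := by
    have := mf_zero_le (R := R) (d := d) hd 1
    simpa using this
  unfold kj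
  rcases hb : b j with _ | _ <;> rcases hb' : b (j+1) with _ | _
  · -- circle, circle
    have hjn : j ≠ n-1 := by
      intro h3
      rw [h3, h2] at hb
      exact absurd hb (by decide)
    have hrel := orb_rel h.toC b 0 j
    rw [hb, hb'] at hrel
    have q := Qf_le_four h hrel
    have q1 := h.Qf_pos (orb R 1 d b 0 j)
    have q2 := h.Qf_pos (orb R 1 d b 0 (j+1))
    have m1 := hm1 (j+1) (by omega) (by omega)
    have m2 := hmp (orb R 1 d b 0 (j+1))
    have m3 := hmp (orb R 1 d b 0 j)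
    have bound : ∀ M, mf R 1 d (orb R 1 d b 0 j) ≤ M →
        kap R 1 d c c (orb R 1 d b 0 j) (orb R 1 d b 0 (j+1)) ≤ 8*M/(R+1) := by
      intro M hM
      have hM0 : 0 < M := lt_of_lt_of_le m3 hM
      unfold kap
      rw [div_le_div_iff₀ (mul_pos q1 m2) hR1]
      have e1 : Qf R 1 d (orb R 1 d b 0 (j+1)) * mf R 1 d (orb R 1 d b 0 j) ≤
          (4 * Qf R 1 d (orb R 1 d b 0 j)) * M :=
        mul_le_mul q hM m3.le (by positivity)
      have e2 : R + 1 ≤ 2 * mf R 1 d (orb R 1 d b 0 (j+1)) := by linarith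
      calc Qf R 1 d (orb R 1 d b 0 (j+1)) * mf R 1 d (orb R 1 d b 0 j) * (R+1)
          ≤ ((4 * Qf R 1 d (orb R 1 d b 0 j)) * M) * (2 * mf R 1 d (orb R 1 d b 0 (j+1))) :=
            mul_le_mul e1 e2 hR1.le (by positivity)
        _ = 8 * M * (Qf R 1 d (orb R 1 d b 0 j) * mf R 1 d (orb R 1 d b 0 (j+1))) := by ring
    constructor
    · have := bound _ (hm2 _)
      have e : 8*(2*(R+1))/(R+1) = 16 := by field_simp; norm_num
      rwa [e] at this
    · rintro (⟨h3, -⟩ | ⟨h3, -⟩)
      · have h4 : orb R 1 d b 0 j = 0 := by rw [h3]; rfl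
        have := bound 18 (by rw [h4]; exact hm0)
        norm_num at this
        exact this
      · exact absurd h3 hjn
  · -- circle, segment
    refine ⟨by unfold kap; norm_num, ?_⟩
    rintro (⟨h3, -⟩ | ⟨h3, -⟩)
    · rw [h3, zero_add, h1] at hb'
      exact absurd hb' (by decide)
    · rw [h3, h2] at hb
      exact absurd hb (by decide)
  · -- segment, circle
    refine ⟨by unfold kap; norm_num, ?_⟩
    rintro (⟨h3, h4⟩ | ⟨h3, h4⟩)
    · rw [h3, h4] at hb
      exact absurd hb (by decide)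
    · rw [h3, hn1, hbn, h4] at hb'
      exact absurd hb' (by decide)
  · -- segment, segment
    have hj0 : j ≠ 0 := by
      intro h3
      rw [h3, zero_add, h1] at hb'
      exact absurd hb' (by decide)
    have m1 := hm1 j (by omega) (by omega)
    have m2 := hmp (orb R 1 d b 0 (j+1))
    have m3 := hmp (orb R 1 d b 0 j)
    have bound : ∀ M, mf R 1 d (orb R 1 d b 0 (j+1)) ≤ M →
        kap R 1 d s s (orb R 1 d b 0 j) (orb R 1 d b 0 (j+1)) ≤ 2*M/(R+1) := by
      intro M hM
      have hM0 : 0 < M := lt_of_lt_of_le m2 hM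
      unfold kap
      rw [div_le_div_iff₀ m3 hR1]
      have e2 : R + 1 ≤ 2 * mf R 1 d (orb R 1 d b 0 j) := by linarith
      calc mf R 1 d (orb R 1 d b 0 (j+1)) * (R+1)
          ≤ M * (2 * mf R 1 d (orb R 1 d b 0 j)) := mul_le_mul hM e2 hR1.le hM0.le
        _ = 2 * M * mf R 1 d (orb R 1 d b 0 j) := by ring
    constructor
    · have := bound _ (hm2 _)
      have e : 2*(2*(R+1))/(R+1) = 4 := by field_simp; norm_num
      rw [e] at this
      linarith
    · rintro (⟨h3, -⟩ | ⟨h3, -⟩)
      · exact absurd h3 hj0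
      · have h4 : orb R 1 d b 0 (j+1) = 2*π := by rw [h3, hn1, hclose]
        have := bound 18 (by rw [h4]; exact hm2pi)
        have e : 2*18/(R+1) ≤ 144/(R+1) := by
          apply div_le_div_of_nonneg_right _ hR1.le
          norm_num
        linarith

lemma prod_kj_lt (h : Adm R 1 d) (hR : 144*16^n ≤ R) (hd : R - 17 ≤ d) (hn : 3 ≤ n)
    (hper : ∀ j, b (j+n) = b j)
    (h1 : b 1 = c) (h2 : b (n-1) = s) (hclose : orb R 1 d b 0 n = 2*π) :
    ∏ j ∈ Finset.range n, kj R d b j < 1 := by
  have h16 : (1:ℝ) ≤ 16^n := one_le_pow₀ (by norm_num)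
  have hR18 : 18 ≤ R := by linarith
  have hR1 : (0:ℝ) < R + 1 := by linarith
  have hb := fun j (hj : j < n) => kj_le h hR18 hd hn hper h1 h2 hclose hj
  obtain ⟨i, hi, hi2⟩ : ∃ i, i < n ∧ kj R d b i ≤ 144/(R+1) := by
    rcases hb0 : b 0 with _ | _
    · exact ⟨0, by omega, (hb 0 (by omega)).2 (Or.inl ⟨rfl, hb0⟩)⟩
    · exact ⟨n-1, by omega, (hb (n-1) (by omega)).2 (Or.inr ⟨rfl, hb0⟩)⟩
  have hpos : ∀ j, 0 < kj R d b j := fun j => kap_pos h _ _ _ _
  rw [← Finset.mul_prod_erase _ _ (Finset.mem_range.mpr hi)]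
  have h3 : ∏ j ∈ (Finset.range n).erase i, kj R d b j ≤ 16^(n-1) := by
    calc ∏ j ∈ (Finset.range n).erase i, kj R d b j
        ≤ ∏ _j ∈ (Finset.range n).erase i, (16:ℝ) := by
          apply Finset.prod_le_prod
          · intro j _; exact (hpos j).le
          · intro j hj
            exact (hb j (Finset.mem_range.mp (Finset.mem_of_mem_erase hj))).1
      _ = 16^(n-1) := by
          rw [Finset.prod_const, Finset.card_erase_of_mem (Finset.mem_range.mpr hi),
            Finset.card_range]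
  have h4 : (16:ℝ)^(n-1) ≤ 16^n := pow_le_pow_right₀ (by norm_num) (by omega)
  calc kj R d b i * ∏ j ∈ (Finset.range n).erase i, kj R d b j
      ≤ 144/(R+1) * 16^n := by
        apply mul_le_mul hi2 (h3.trans h4)
        · exact Finset.prod_nonneg (fun j _ => (hpos j).le)
        · positivity
    _ < 1 := by
        rw [div_mul_eq_mul_div, div_lt_one hR1]
        linarith

end

lemma letter_add_mul {n : ℕ} [NeZero n] (w : Fin n → Letter) (m k : ℕ) :
    letter w (k*n + m) = letter w m := by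
  induction k with
  | zero => simp
  | succ k ih => rw [show (k+1)*n + m = (k*n + m) + n by ring, letter_add, ih]

/-- a periodic sequence that is not `2`-periodic contains both `s ? c` -/
lemma exists_pattern {a : ℕ → Letter} {n : ℕ} (hn : n ≠ 0) (hper : ∀ k m, a (k*n+m) = a m)
    (hne : ¬ ∀ j, a (j+2) = a j) : ∃ i, a i = s ∧ a (i+2) = c := by
  by_contra hcon
  push Not at hcon
  apply hne
  have hs : ∀ i m, a i = s → a (i + 2*m) = s := by
    intro i m hi
    induction m with
    | zero => exact hi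
    | succ m ih =>
      have := hcon _ ih
      have e : i + 2*(m+1) = i + 2*m + 2 := by ring
      rw [e]
      rcases h : a (i + 2*m + 2) with _ | _
      · exact absurd h this
      · rfl
  intro j
  rcases h1 : a j with _ | _
  · rcases h2 : a (j+2) with _ | _
    · rfl
    · exfalso
      have h3 := hs (j+2) (n-1) h2
      have h4 : j + 2 + 2*(n-1) = 2*n + j := by omega
      rw [h4, hper, h1] at h3
      exact absurd h3 (by decide)
  · exact hs j 1 h1

/-- a differentiable function whose displacement takes values in `2πℤ` has derivative `1` -/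
lemma deriv_eq_one {F : ℝ → ℝ} {D x : ℝ} (hF : HasDerivAt F D x)
    (hk : ∀ y, ∃ k : ℤ, F y - y = 2*π*k) : D = 1 := by
  have h1 : HasDerivAt (fun y => F y - y) (D - 1) x := hF.sub (hasDerivAt_id' x)
  have h2 : ∀ᶠ y in nhds x, |(F y - y) - (F x - x)| < π := by
    have := h1.continuousAt
    rw [Metric.continuousAt_iff] at this
    obtain ⟨δ, hδ, hδ2⟩ := this π pi_pos
    filter_upwards [Metric.ball_mem_nhds x hδ] with y hy
    have := hδ2 hy
    rwa [Real.dist_eq] at this
  have h3 : (fun y => F y - y) =ᶠ[nhds x] fun _ => F x - x := by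
    filter_upwards [h2] with y hy
    obtain ⟨k, hk1⟩ := hk y
    obtain ⟨l, hl1⟩ := hk x
    rw [hk1, hl1] at hy ⊢
    have h4 : |((k - l : ℤ) : ℝ)| < 1 := by
      have : |2*π*(k:ℝ) - 2*π*l| = 2*π*|((k - l : ℤ) : ℝ)| := by
        push_cast
        rw [← mul_sub, abs_mul, abs_of_pos two_pi_pos]
      rw [this] at hy
      nlinarith [pi_pos, abs_nonneg ((k - l : ℤ) : ℝ)]
    have h5 : |k - l| < 1 := by exact_mod_cast h4
    have h6 : k = l := by
      have := Int.abs_lt_one_iff.mp h5
      omega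
    rw [h6]
  have h4 := h3.hasDerivAt_iff.mp h1
  have := h4.unique (hasDerivAt_const x (F x - x))
  linarith

/-- **Closure sequences are `2`-periodic.** -/
theorem two_periodic {n : ℕ} [NeZero n] (w : Fin n → Letter) (hw : IsClosureSequence w) :
    ∀ j, letter w (j+2) = letter w j := by
  by_contra hne
  have hn0 : n ≠ 0 := NeZero.ne n
  obtain ⟨i, hi1, hi2⟩ := exists_pattern hn0 (fun k m => letter_add_mul w m k) hne
  set b : ℕ → Letter := fun m => letter w (i+1+m) with hb
  have hper : ∀ j, b (j+n) = b j := fun j => by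
    show letter w (i+1+(j+n)) = letter w (i+1+j)
    rw [← add_assoc, letter_add]
  have hb1 : b 1 = c := hi2
  have hbn : b (n-1) = s := by
    have : i+1+(n-1) = i + n := by omega
    simp only [hb, this, letter_add, hi1]
  have hn3 : 3 ≤ n := by
    by_contra hcon
    have h12 : n = 1 ∨ n = 2 := by omega
    rcases h12 with h | h
    · have := letter_add_mul w i 2
      rw [show 2*n+i = i+2 by omega, hi1, hi2] at this
      exact absurd this (by decide)
    · have := letter_add_mul w i 1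
      rw [show 1*n+i = i+2 by omega, hi1, hi2] at this
      exact absurd this (by decide)
  obtain ⟨R, hR⟩ : ∃ R : ℝ, R = 144*16^n := ⟨_, rfl⟩
  have h16 : (1:ℝ) ≤ 16^n := one_le_pow₀ (by norm_num)
  have hR18 : 18 ≤ R := by linarith
  obtain ⟨d, hd1, hd2, hclose⟩ := exists_closing hR18 b hn3
  have h : Adm R 1 d := ⟨one_pos, by linarith, hd2⟩
  have hprod := prod_kj_lt h hR.ge hd1 hn3 hper hb1 hbn hclose
  -- the orbit is periodic
  have horb : ∀ m, orb R 1 d b 0 (m+n) = orb R 1 d b 0 m + 2*π := by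
    intro m
    have e1 := orb_add (R := R) (r := 1) (d := d) b 0 n m
    have e2 : (fun m => b (n+m)) = b := by
      funext m
      rw [add_comm]
      exact hper m
    rw [e2, hclose] at e1
    have e3 := orb_shift (R := R) (r := 1) (d := d) b 0 m 1
    rw [Nat.cast_one, mul_one, zero_add] at e3
    rw [add_comm, e1, e3]
  -- back to the word
  set L := (i+1)*(n-1) with hL
  have hbL : (fun m => b (L+m)) = letter w := by
    funext m
    have : i+1+(L+m) = (i+1)*n + m := by
      have : n = (n-1) + 1 := by omega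
      rw [hL]
      conv_rhs => rw [this]
      ring
    simp only [hb, this, letter_add_mul]
  set x0 := orb R 1 d b 0 L with hx0
  have horb2 : ∀ m, orb R 1 d (letter w) x0 m = orb R 1 d b 0 (L+m) := by
    intro m
    rw [orb_add, hbL]
  have hclose2 : orb R 1 d (letter w) x0 n = x0 + 2*π := by
    rw [horb2, horb]
  have hcl0 : ∃ v, ClosesFrom (std h) w v := by
    refine ⟨_, gchain R 1 d w x0, isChain_gchain h w x0, rfl, ?_⟩
    rw [closes_gchain_iff h w x0]
    exact ⟨1, by rw [hclose2]; push_cast; ring⟩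
  have hall : ∀ x, ∃ k : ℤ, orb R 1 d (letter w) x n - x = 2*π*k := by
    obtain ⟨k, hk⟩ := all_closed (analytic_orb h (letter w) n) (fun x => by
      obtain ⟨u, hu, hu0, huc⟩ := hw.1 (std h) hcl0 (link R 1 d (letter w 0) x) (isLink h _ _)
      obtain ⟨ε, hε, hk⟩ := closes_cases h w hu hu0 huc
      rcases hε with rfl | rfl
      · left
        rwa [one_mul] at hk
      · right
        rwa [neg_one_mul] at hk)
    exact fun x => ⟨k, hk x⟩
  obtain ⟨D, hD, hD2⟩ := orb_deriv h (letter w) x0 n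
  have hD1 := deriv_eq_one hD hall
  have hln : letter w n = letter w 0 := by
    have := letter_add w 0
    rwa [zero_add] at this
  have hwt : wt R 1 d (letter w 0) (x0 + 2*π) = wt R 1 d (letter w 0) x0 := by
    have := wt_add (R := R) (r := 1) (d := d) (letter w 0) x0 1
    simpa using this
  have hwp := wt_pos h (letter w 0) x0
  have hk : ∀ m, kap R 1 d (letter w m) (letter w (m+1)) (orb R 1 d (letter w) x0 m)
      (orb R 1 d (letter w) x0 (m+1)) = kj R d b (L+m) := by
    intro m
    rw [horb2, horb2]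
    have e1 := congrFun hbL m
    have e2 := congrFun hbL (m+1)
    rw [← e1, ← e2]
    rfl
  simp only [hk] at hD2
  have hkper : ∀ m, kj R d b (m+n) = kj R d b m := by
    intro m
    unfold kj
    have e1 : orb R 1 d b 0 (m+n+1) = orb R 1 d b 0 (m+1) + 2*π := by
      rw [← horb]; congr 1; ring
    have e2 : b (m+n+1) = b (m+1) := by
      rw [← hper (m+1)]; congr 1; ring
    rw [e1, e2, horb, hper]
    have hc1 : ∀ x : ℝ, cos (x + 2*π) = cos x := cos_add_two_pi
    cases b m <;> cases b (m+1) <;> simp only [kap, mf, Qf, hc1]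
  rw [prod_shift (kj R d b) (fun m => kap_pos h _ _ _ _) n hkper L, hD1, hclose2, hln, hwt] at hD2
  have : wt R 1 d (letter w 0) x0 * (1 - ∏ m ∈ Finset.range n, kj R d b m) = 0 := by
    linear_combination hD2
  have := (mul_eq_zero.mp this).resolve_left hwp.ne'
  linarith

end MixedChains
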