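import Pool.Agent.Lib.MP_8152b2_gt.Types

/-!
From the relations between directions to actual chains, in the annulus with `O = 0` and
`K = d ≥ 0`.
-/

namespace MixedChains

open Real Letter Metric

lemma mem_sphere_coord {z P : ℂ} {ρ : ℝ} (hρ : 0 ≤ ρ) :
    z ∈ sphere P ρ ↔ (z.re - P.re)^2 + (z.im - P.im)^2 = ρ^2 := by
  rw [mem_sphere, Complex.dist_eq_re_im, sqrt_eq_iff_eq_sq (by positivity) hρ]

lemma mem_closedBall_coord {z P : ℂ} {ρ : ℝ} (hρ : 0 ≤ ρ) :
    z ∈ closedBall P ρ ↔ (z.re - P.re)^2 + (z.im - P.im)^2 ≤ ρ^2 := by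
  rw [mem_closedBall, Complex.dist_eq_re_im, sqrt_le_left hρ]

lemma mem_ball_coord {z P : ℂ} {ρ : ℝ} (hρ : 0 < ρ) :
    z ∈ ball P ρ ↔ (z.re - P.re)^2 + (z.im - P.im)^2 < ρ^2 := by
  rw [mem_ball, Complex.dist_eq_re_im, sqrt_lt' hρ]

/-- the common point of two tangent circles (`ρ₂ < 0` encodes internal tangency) -/
lemma tangent_point {z P Q : ℂ} {ρ σ : ℝ} (h : ρ + σ ≠ 0)
    (hD : (Q.re - P.re)^2 + (Q.im - P.im)^2 = (ρ + σ)^2) :
    ((z.re - P.re)^2 + (z.im - P.im)^2 = ρ^2 ∧ (z.re - Q.re)^2 + (z.im - Q.im)^2 = σ^2) ↔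
      z = ⟨P.re + ρ/(ρ+σ) * (Q.re - P.re), P.im + ρ/(ρ+σ) * (Q.im - P.im)⟩ := by
  set l := ρ/(ρ+σ) with hl
  have hl' : l * (ρ + σ) = ρ := by rw [hl]; field_simp
  constructor
  · rintro ⟨h1, h2⟩
    have h3 : (z.re - P.re)*(Q.re-P.re) + (z.im - P.im)*(Q.im-P.im) = ρ*(ρ+σ) := by
      nlinarith
    have h4 : (z.re - (P.re + l*(Q.re-P.re)))^2 + (z.im - (P.im + l*(Q.im-P.im)))^2 = 0 := by
      have : (z.re - (P.re + l*(Q.re-P.re)))^2 + (z.im - (P.im + l*(Q.im-P.im)))^2 =
        ((z.re - P.re)^2 + (z.im - P.im)^2) -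
        2*l*((z.re - P.re)*(Q.re-P.re) + (z.im - P.im)*(Q.im-P.im)) +
        l^2*((Q.re - P.re)^2 + (Q.im - P.im)^2) := by ring
      rw [this, h1, h3, hD]
      have : l^2*(ρ+σ)^2 = ρ^2 := by rw [← mul_pow, hl']
      rw [this]
      have : 2*l*(ρ*(ρ+σ)) = 2*ρ*(l*(ρ+σ)) := by ring
      rw [this, hl']
      ring
    apply Complex.ext
    · have : z.re - (P.re + l*(Q.re-P.re)) = 0 := by
        nlinarith [sq_nonneg (z.re - (P.re + l*(Q.re-P.re))),
          sq_nonneg (z.im - (P.im + l*(Q.im-P.im)))]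
      simpa using sub_eq_zero.mp this
    · have : z.im - (P.im + l*(Q.im-P.im)) = 0 := by
        nlinarith [sq_nonneg (z.re - (P.re + l*(Q.re-P.re))),
          sq_nonneg (z.im - (P.im + l*(Q.im-P.im)))]
      simpa using sub_eq_zero.mp this
  · intro hz
    rw [hz]
    constructor
    · have : (P.re + l*(Q.re-P.re) - P.re)^2 + (P.im + l*(Q.im-P.im) - P.im)^2 =
        l^2*((Q.re - P.re)^2 + (Q.im - P.im)^2) := by ring
      simp only
      rw [this, hD, ← mul_pow, hl']
    · have : (P.re + l*(Q.re-P.re) - Q.re)^2 + (P.im + l*(Q.im-P.im) - Q.im)^2 =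
        (1-l)^2*((Q.re - P.re)^2 + (Q.im - P.im)^2) := by ring
      simp only
      rw [this, hD, ← mul_pow]
      have : (1-l)*(ρ+σ) = σ := by linarith
      rw [this]

/-- intersection of two tangent spheres -/
lemma sphere_inter_sphere {P Q : ℂ} {ρ σ : ℝ} (hρ : 0 ≤ ρ) (hσ : 0 ≤ σ) {σ' : ℝ}
    (hσ' : σ'^2 = σ^2) (h : ρ + σ' ≠ 0)
    (hD : (Q.re - P.re)^2 + (Q.im - P.im)^2 = (ρ + σ')^2) :
    sphere P ρ ∩ sphere Q σ =
      {⟨P.re + ρ/(ρ+σ') * (Q.re - P.re), P.im + ρ/(ρ+σ') * (Q.im - P.im)⟩} := by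
  ext z
  rw [Set.mem_inter_iff, mem_sphere_coord hρ, mem_sphere_coord hσ, Set.mem_singleton_iff,
    ← tangent_point h hD, hσ']

/-- the point with coordinates `(r, t)` in the frame turned by `x` -/
noncomputable def pt (r x t : ℝ) : ℂ := ⟨r*cos x - t*sin x, r*sin x + t*cos x⟩

lemma pt_re (r x t : ℝ) : (pt r x t).re = r*cos x - t*sin x := rfl
lemma pt_im (r x t : ℝ) : (pt r x t).im = r*sin x + t*cos x := rfl

lemma mem_segment_pt {r x t1 t2 : ℝ} (ht : t1 < t2) (z : ℂ) :
    z ∈ segment ℝ (pt r x t1) (pt r x t2) ↔ ∃ t, t1 ≤ t ∧ t ≤ t2 ∧ z = pt r x t := by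
  constructor
  · rintro ⟨u, v, hu, hv, huv, rfl⟩
    have hu' : u = 1 - v := by linarith
    have h1 := mul_nonneg hv (sub_nonneg.mpr ht.le)
    have h2 := mul_nonneg hu (sub_nonneg.mpr ht.le)
    refine ⟨u*t1+v*t2, by rw [hu']; linarith, ?_, ?_⟩
    · have : v = 1 - u := by linarith
      rw [this]; linarith
    · apply Complex.ext <;> simp [pt, hu'] <;> ring
  · rintro ⟨t, h1, h2, rfl⟩
    have hp : 0 < t2 - t1 := by linarith
    obtain ⟨v, hv⟩ : ∃ v, v = (t-t1)/(t2-t1) := ⟨_, rfl⟩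
    have hv1 : v * (t2 - t1) = t - t1 := by rw [hv]; field_simp
    have hv2 : 0 ≤ v := by rw [hv]; exact div_nonneg (by linarith) hp.le
    have hv3 : v ≤ 1 := by rw [hv, div_le_one hp]; linarith
    refine ⟨1 - v, v, by linarith, hv2, by ring, ?_⟩
    have ht' : t = t1 + v * (t2 - t1) := by linarith
    apply Complex.ext <;> simp [pt, ht'] <;> ring

section links
variable (R r d : ℝ)

/-- distance from the centre of `ω` to the centre of the inscribed circle with direction `x` -/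
noncomputable def sf (x : ℝ) : ℝ := Kf R r d / (2 * mf R r d x)
/-- radius of the inscribed circle with direction `x` -/
noncomputable def rad (x : ℝ) : ℝ := Qf R r d x / (2 * mf R r d x)
/-- centre of the inscribed circle with direction `x` -/
noncomputable def cen (x : ℝ) : ℂ := ⟨sf R r d x * cos x, sf R r d x * sin x⟩
/-- square of half the length of the tangent chord with direction `x` -/
noncomputable def dd (x : ℝ) : ℝ := R^2 - (r - d*cos x)^2
/-- coordinate of the end of the tangent chord -/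
noncomputable def tp (x : ℝ) : ℝ := -d*sin x + √(dd R r d x)
/-- coordinate of the start of the tangent chord -/
noncomputable def tm (x : ℝ) : ℝ := -d*sin x - √(dd R r d x)

/-- the link of given type with direction `x` -/
noncomputable def link : Letter → ℝ → Set ℂ
  | .c, x => sphere (cen R r d x) (rad R r d x)
  | .s, x => segment ℝ (pt r x (tm R r d x)) (pt r x (tp R r d x))

variable {R r d}

/-- the standard annulus -/
noncomputable def std (h : Adm R r d) : Annulus where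
  K := (d : ℂ)
  O := 0
  R := R
  r := r
  r_pos := h.1
  inside := by
    rw [dist_zero_right, Complex.norm_real, norm_eq_abs, abs_of_nonneg h.2]
    exact h.3

lemma outer_mem (h : Adm R r d) (z : ℂ) :
    z ∈ (std h).outer ↔ (z.re - d)^2 + z.im^2 = R^2 := by
  unfold Annulus.outer std
  simp only
  rw [mem_sphere_coord h.toC.R_pos.le]
  simp

lemma inner_mem (h : Adm R r d) (z : ℂ) :
    z ∈ (std h).inner ↔ z.re^2 + z.im^2 = r^2 := by
  unfold Annulus.inner std
  simp only
  rw [mem_sphere_coord h.1.le]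
  simp

lemma sf_eq (h : Adm R r d) (x : ℝ) : sf R r d x = r + rad R r d x := by
  have := (h.toC.mf_pos x).ne'
  have h2 := Kf_sub_Qf R r d x
  unfold sf rad
  field_simp
  linarith

lemma rad_pos (h : Adm R r d) (x : ℝ) : 0 < rad R r d x := by
  have := h.toC.mf_pos x
  have := h.Qf_pos x
  unfold rad
  positivity

lemma sf_pos (h : Adm R r d) (x : ℝ) : 0 < sf R r d x := by
  rw [sf_eq h]
  linarith [rad_pos h x, h.1]

lemma sf_mul (h : Adm R r d) (x : ℝ) : 2 * sf R r d x * mf R r d x = Kf R r d := by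
  have := (h.toC.mf_pos x).ne'
  unfold sf
  field_simp

lemma rad_mul (h : Adm R r d) (x : ℝ) : 2 * rad R r d x * mf R r d x = Qf R r d x := by
  have := (h.toC.mf_pos x).ne'
  unfold rad
  field_simp

lemma rad_lt (h : Adm R r d) (x : ℝ) : rad R r d x < R := by
  have h1 := rad_mul h x
  have hm := h.toC.mf_pos x
  have h2 := h.toC.dcos_le x
  have hd := h.2
  have hr := h.1
  have hlt := h.3
  by_contra hcon
  push Not at hcon
  have h3 : 2 * R * mf R r d x ≤ Qf R r d x := by nlinarith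
  unfold mf Qf at h3
  nlinarith [mul_nonneg hd hd, mul_nonneg h.toC.R_pos.le hd, h.toC.neg_le_dcos x]

lemma cen_dist (h : Adm R r d) (x : ℝ) :
    ((cen R r d x).re - d)^2 + (cen R r d x).im^2 = (R - rad R r d x)^2 := by
  have h1 := sf_eq h x
  have h2 := sf_mul h x
  have h3 : R - rad R r d x = R + r - sf R r d x := by linarith
  rw [h3]
  simp only [cen]
  unfold mf Kf at h2
  linear_combination (sf R r d x)^2 * sin_sq' x + h2

lemma cen_norm (x : ℝ) :
    (cen R r d x).re^2 + (cen R r d x).im^2 = (sf R r d x)^2 := by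
  simp only [cen]
  linear_combination (sf R r d x)^2 * sin_sq' x

end links

end MixedChains
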