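import Pool.Agent.Lib.MP_8152b2_gt.Mixed

/-!
Existence of an annulus in which the orbit of `0` closes after one turn.
-/

namespace MixedChains

open Real Letter Metric Set

lemma continuousOn_step (R : ℝ) (a b : Letter) {S : Set ℝ} {f : ℝ → ℝ}
    (hf : ContinuousOn f S) (hS : ∀ d ∈ S, AdmC R 1 d) :
    ContinuousOn (fun d => step (coef R 1 d a b) (f d)) S := by
  have h1 : ContinuousOn (fun d => gp (coef R 1 d a b) (f d)) S := by
    cases a <;> cases b
    · simp only [gp_cc, Kf, Qf]; fun_prop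
    · simp only [gp_cs, mf]; fun_prop
    · simp only [gp_sc]; fun_prop
    · simp only [gp_ss]; fun_prop
  have h2 : ContinuousOn (fun d => b2 (coef R 1 d a b) (f d)) S := by
    cases a <;> cases b
    · simp only [b2_cc, Qf]; fun_prop
    · simp only [b2_cs]; fun_prop
    · simp only [b2_sc]; fun_prop
    · simp only [b2_ss]; fun_prop
  have h3 : ContinuousOn (fun d => disc (coef R 1 d a b) (f d)) S := by
    cases a <;> cases b
    · simp only [disc_cc, Qf, Kf]; fun_prop
    · simp only [disc_cs, Qf, mf]; fun_prop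
    · simp only [disc_sc, Kf]; fun_prop
    · simp only [disc_ss, mf]; fun_prop
  have h4 : ContinuousOn (fun d => tau (coef R 1 d a b) (f d)) S := by
    unfold tau
    exact (h2.neg.add h3.sqrt).div h1 (fun d hd => ((hS d hd).gp_pos a b _).ne')
  unfold step
  exact hf.add ((continuous_arctan.comp_continuousOn h4).const_mul 2)

lemma continuousOn_orb (R : ℝ) (b : ℕ → Letter) (S : Set ℝ) (hS : ∀ d ∈ S, AdmC R 1 d) (j : ℕ) :
    ContinuousOn (fun d => orb R 1 d b 0 j) S := by
  induction j with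
  | zero => exact continuousOn_const
  | succ j ih => exact continuousOn_step R _ _ ih hS

/-- when the circles touch, the orbit does not pass the contact point -/
lemma step_lt_pi {R : ℝ} (hR : 1 < R) (a b : Letter) {x : ℝ} (_hx0 : 0 ≤ x) (hx : x < π) :
    step (coef R 1 (R-1) a b) x < π := by
  have hC : AdmC R 1 (R-1) := ⟨one_pos, by linarith, le_rfl⟩
  have hrel := rel_step (hC.g0_nonpos a b x) (hC.gp_pos a b x)
  have hle := le_step (hC.g0_nonpos a b x) (hC.gp_pos a b x)
  have hlt := step_lt (k := coef R 1 (R-1) a b) x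
  set y := step (coef R 1 (R-1) a b) x with hy
  by_contra hcon
  push Not at hcon
  -- half angles
  obtain ⟨u, hu⟩ : ∃ u, u = (π - x)/2 := ⟨_, rfl⟩
  obtain ⟨v, hv⟩ : ∃ v, v = (y - π)/2 := ⟨_, rfl⟩
  have hx' : x = π - 2*u := by rw [hu]; ring
  have hy' : y = π + 2*v := by rw [hv]; ring
  have hu0 : 0 < u := by rw [hu]; linarith
  have hu1 : u ≤ π/2 := by rw [hu]; linarith
  have hv0 : 0 ≤ v := by rw [hv]; linarith
  have huv : u + v < π/2 := by rw [hu, hv]; linarith
  have su : 0 < sin u := sin_pos_of_pos_of_lt_pi hu0 (by linarith)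
  have sv : 0 ≤ sin v := sin_nonneg_of_nonneg_of_le_pi hv0 (by linarith)
  have cu : 0 < cos u := cos_pos_of_mem_Ioo ⟨by linarith, by linarith⟩
  have cv : 0 < cos v := cos_pos_of_mem_Ioo ⟨by linarith, by linarith⟩
  have cuv : 0 < cos (u+v) := cos_pos_of_mem_Ioo ⟨by linarith, by linarith⟩
  have suv : sin (u+v)^2 = sin u^2 + sin v^2 + 2*sin u*sin v*cos (u+v) := by
    rw [sin_add, cos_add]
    have e1 := sin_sq' u
    have e2 := sin_sq' v
    linear_combination (sin v^2) * e1 + sin u^2 * e2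
  have cx : cos x = 2*sin u^2 - 1 := by
    rw [hx', cos_pi_sub, cos_two_mul]
    linear_combination (-2)*sin_sq' u
  have cy : cos y = 2*sin v^2 - 1 := by
    rw [hy', cos_add, cos_pi, sin_pi, cos_two_mul]
    linear_combination (-2)*sin_sq' v
  have cyx : cos (y - x) = 1 - 2*sin (u+v)^2 := by
    rw [hx', hy', show π + 2*v - (π - 2*u) = 2*(u+v) by ring, cos_two_mul]
    linear_combination 2*sin_sq' (u+v)
  have hsu : sin u^2 + sin v^2 ≤ sin (u+v)^2 := by
    rw [suv]
    have : 0 ≤ 2*sin u*sin v*cos (u+v) := by positivity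
    linarith
  have hKv : Kf R 1 (R-1) = 4*R := by unfold Kf; ring
  have hQx : Qf R 1 (R-1) x = 4*(R-1)*sin u^2 := by unfold Qf; rw [cx]; ring
  have hQy : Qf R 1 (R-1) y = 4*(R-1)*sin v^2 := by unfold Qf; rw [cy]; ring
  have hsu2 : 0 < sin u^2 := by positivity
  have hsv2 : 0 ≤ sin v^2 := sq_nonneg _
  have hsv1 : sin v^2 ≤ 1 := sin_sq_le_one _
  have hsuv0 : 0 < sin (u+v)^2 := by linarith
  cases a <;> cases b
  · rw [rel_cc, hKv, hQx, hQy, cyx] at hrel
    have e1 : R^2 * sin (u+v)^2 = (R-1)^2 * (sin u^2 * sin v^2) := by nlinarith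
    have e2 : sin u^2 * sin v^2 ≤ sin u^2 := by nlinarith
    have e3 : sin u^2 * sin v^2 ≤ sin (u+v)^2 := by linarith
    have e4 : (R-1)^2 * (sin u^2 * sin v^2) ≤ (R-1)^2 * sin (u+v)^2 :=
      mul_le_mul_of_nonneg_left e3 (sq_nonneg _)
    have e5 : (R-1)^2 * sin (u+v)^2 < R^2 * sin (u+v)^2 :=
      mul_lt_mul_of_pos_right (by nlinarith) hsuv0
    linarith
  · rw [rel_cs, hKv, hQx, cyx] at hrel
    have e1 : R * sin (u+v)^2 = (R-1) * sin u^2 := by linarith
    have e4 : (R-1) * sin u^2 ≤ (R-1) * sin (u+v)^2 :=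
      mul_le_mul_of_nonneg_left (by linarith) (by linarith)
    have e5 : (R-1) * sin (u+v)^2 < R * sin (u+v)^2 :=
      mul_lt_mul_of_pos_right (by linarith) hsuv0
    linarith
  · rw [rel_sc, hKv, hQy, cyx] at hrel
    have e1 : R * sin (u+v)^2 = (R-1) * sin v^2 := by linarith
    have e4 : (R-1) * sin v^2 ≤ (R-1) * sin (u+v)^2 :=
      mul_le_mul_of_nonneg_left (by linarith) (by linarith)
    have e5 : (R-1) * sin (u+v)^2 < R * sin (u+v)^2 :=
      mul_lt_mul_of_pos_right (by linarith) hsuv0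
    linarith
  · rw [rel_ss, cx, cy, cyx] at hrel
    have e1 : (2*R-1) * sin (u+v)^2 = (2*R-2) * (sin u^2 + sin v^2) := by
      linear_combination hrel
    have e4 : (2*R-2) * (sin u^2 + sin v^2) ≤ (2*R-2) * sin (u+v)^2 :=
      mul_le_mul_of_nonneg_left hsu (by linarith)
    have e5 : (2*R-2) * sin (u+v)^2 < (2*R-1) * sin (u+v)^2 :=
      mul_lt_mul_of_pos_right (by linarith) hsuv0
    linarith

lemma orb_lt_pi {R : ℝ} (hR : 1 < R) (b : ℕ → Letter) (j : ℕ) :
    0 ≤ orb R 1 (R-1) b 0 j ∧ orb R 1 (R-1) b 0 j < π := by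
  induction j with
  | zero => exact ⟨le_rfl, pi_pos⟩
  | succ j ih =>
    have hC : AdmC R 1 (R-1) := ⟨one_pos, by linarith, le_rfl⟩
    exact ⟨ih.1.trans (orb_le hC b 0 j), step_lt_pi hR _ _ ih.1 ih.2⟩

/-- far from the outer circle, every step is larger than `2π/3` -/
lemma big_step {R : ℝ} (hR : 18 ≤ R) (a b : Letter) (x : ℝ) :
    x + 2*π/3 < step (coef R 1 (R-17) a b) x := by
  have hA : Adm R 1 (R-17) := ⟨one_pos, by linarith, by linarith⟩
  have hC := hA.toC
  have hrel := rel_step (hC.g0_nonpos a b x) (hC.gp_pos a b x)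
  have hlt0 := lt_step (hA.good a b x).1 (hA.good a b x).2
  have hlt := step_lt (k := coef R 1 (R-17) a b) x
  set y := step (coef R 1 (R-17) a b) x with hy
  have hcos : cos (y - x) < -1/2 := by
    have hKv : Kf R 1 (R-17) = 18*(2*R-16) := by unfold Kf; ring
    have hQ : ∀ z, 16*(2*R-16) ≤ Qf R 1 (R-17) z := by
      intro z
      unfold Qf
      nlinarith [neg_one_le_cos z]
    have hp : 0 < 2*R-16 := by linarith
    cases a <;> cases b
    · rw [rel_cc, hKv] at hrel
      have e1 := mul_le_mul (hQ x) (hQ y) (by positivity) (hC.Qf_nonneg x)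
      by_contra hcon
      push Not at hcon
      have e2 : (18*(2*R-16))^2 * (1 - cos (y-x))/2 ≤ (18*(2*R-16))^2 * (3/4) := by
        have := mul_le_mul_of_nonneg_left (show (1 - cos (y-x))/2 ≤ 3/4 by linarith)
          (sq_nonneg (18*(2*R-16)))
        linarith
      nlinarith [mul_pos hp hp]
    · rw [rel_cs, hKv] at hrel
      have e1 := hQ x
      by_contra hcon
      push Not at hcon
      nlinarith
    · rw [rel_sc, hKv] at hrel
      have e1 := hQ y
      by_contra hcon
      push Not at hcon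
      nlinarith
    · rw [rel_ss] at hrel
      have e1 : cos x + cos y = 2*cos ((x+y)/2)*cos ((y-x)/2) := by
        have e1 : cos y = cos ((x+y)/2) * cos ((y-x)/2) - sin ((x+y)/2) * sin ((y-x)/2) := by
          rw [← cos_add]; congr 1; ring
        have e2 : cos x = cos ((x+y)/2) * cos ((y-x)/2) + sin ((x+y)/2) * sin ((y-x)/2) := by
          rw [← cos_sub]; congr 1; ring
        rw [e1, e2]; ring
      have e2 : cos (y-x) = 2*cos ((y-x)/2)^2 - 1 := by
        rw [← cos_two_mul]; congr 1; ring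
      have e3 : 0 < cos ((y-x)/2) := cos_pos_of_mem_Ioo ⟨by linarith, by linarith⟩
      have e4 := neg_one_le_cos ((x+y)/2)
      rw [e1, e2] at hrel
      rw [e2]
      set C := cos ((y-x)/2)
      have e5 : (R^2-(R-17)^2)*C^2 ≤ 1 + 2*(R-17)*C := by
        have : 0 ≤ (R-17)*C*(1 + cos ((x+y)/2)) :=
          mul_nonneg (mul_nonneg (by linarith) e3.le) (by linarith)
        nlinarith
      have e6 : C < 1/2 := by
        by_contra hcon
        push Not at hcon
        have e7 : 0 ≤ (34*R-289)*(C*(C-1/2)) :=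
          mul_nonneg (by linarith) (mul_nonneg e3.le (by linarith))
        have e8 : 0 ≤ (C-1/2)*(R-18) := mul_nonneg (by linarith) (by linarith)
        nlinarith
      nlinarith
  by_contra hcon
  push Not at hcon
  have h1 : cos (2*π/3) = -1/2 := by
    rw [show 2*π/3 = π - π/3 by ring, cos_pi_sub, cos_pi_div_three]
    norm_num
  have h2 : cos (2*π/3) ≤ cos (y-x) :=
    cos_le_cos_of_nonneg_of_le_pi (by linarith) (by linarith [pi_pos]) (by linarith)
  linarith

/-- there is an annulus in which the orbit of `0` closes after one turn -/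
theorem exists_closing {R : ℝ} (hR : 18 ≤ R) (b : ℕ → Letter) {n : ℕ} (hn : 3 ≤ n) :
    ∃ d, R - 17 ≤ d ∧ d < R - 1 ∧ orb R 1 d b 0 n = 2*π := by
  have hS : ∀ d ∈ Icc (R-17) (R-1), AdmC R 1 d := fun d hd =>
    ⟨one_pos, by linarith [hd.1], hd.2⟩
  have hcont := continuousOn_orb R b _ hS n
  have h1 : 2*π < orb R 1 (R-17) b 0 n := by
    have : ∀ j : ℕ, (2*π/3)*j ≤ orb R 1 (R-17) b 0 j := by
      intro j
      induction j with
      | zero => simp [orb]
      | succ j ih =>
        have := big_step hR (b j) (b (j+1)) (orb R 1 (R-17) b 0 j)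
        rw [← orb_succ] at this
        push_cast
        linarith
    have h2 := this (n-1)
    have h3 := big_step hR (b (n-1)) (b (n-1+1)) (orb R 1 (R-17) b 0 (n-1))
    rw [← orb_succ] at h3
    have h4 : n - 1 + 1 = n := by omega
    rw [h4] at h3
    have h5 : (2:ℝ) ≤ ((n-1 : ℕ) : ℝ) := by exact_mod_cast (by omega : 2 ≤ n-1)
    nlinarith [pi_pos]
  have h2 := (orb_lt_pi (by linarith : 1 < R) b n).2
  have hmem : 2*π ∈ Icc (orb R 1 (R-1) b 0 n) (orb R 1 (R-17) b 0 n) :=
    ⟨by linarith [pi_pos], h1.le⟩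
  obtain ⟨d, hd, hd2⟩ := intermediate_value_Icc' (by linarith : R - 17 ≤ R - 1) hcont hmem
  refine ⟨d, hd.1, ?_, hd2⟩
  rcases lt_or_eq_of_le hd.2 with h | h
  · exact h
  · exfalso
    simp only at hd2
    rw [h] at hd2
    linarith [pi_pos]

end MixedChains
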