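import Pool.Agent.Lib.MP_8152b2_gt.Geometry

/-!
The links of the standard annulus and their contact points with `ω` and `k`.
-/

namespace MixedChains

open Real Letter Metric

section
variable {R r d : ℝ}

/-- contact point of the inscribed circle with `k` -/
noncomputable def bb (R r d x : ℝ) : ℂ :=
  ⟨(cen R r d x).re + rad R r d x/(rad R r d x - R) * (d - (cen R r d x).re),
   (cen R r d x).im + rad R r d x/(rad R r d x - R) * (0 - (cen R r d x).im)⟩

lemma circle_inter_inner (h : Adm R r d) (x : ℝ) :
    link R r d c x ∩ (std h).inner = {pt r x 0} := by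
  have hρ := rad_pos h x
  have hr := h.1
  have hs := sf_eq h x
  have hn := cen_norm (R := R) (r := r) (d := d) x
  have : (std h).inner = sphere (0:ℂ) r := rfl
  rw [this]
  unfold link
  rw [sphere_inter_sphere (σ' := r) hρ.le hr.le rfl (by linarith)]
  · congr 1
    have h1 : rad R r d x + r = sf R r d x := by linarith
    have h2 : sf R r d x ≠ 0 := (sf_pos h x).ne'
    have h3 : rad R r d x = sf R r d x - r := by linarith
    rw [h1]
    apply Complex.ext
    · simp only [cen, pt, Complex.zero_re]
      rw [h3]; field_simp; ring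
    · simp only [cen, pt, Complex.zero_im]
      rw [h3]; field_simp; ring
  · simp only [Complex.zero_re, Complex.zero_im, zero_sub, neg_sq]
    rw [hn, hs]; ring

lemma circle_inter_outer (h : Adm R r d) (x : ℝ) :
    link R r d c x ∩ (std h).outer = {bb R r d x} := by
  have hρ := rad_pos h x
  have hR := h.toC.R_pos
  have hlt := rad_lt h x
  have : (std h).outer = sphere (d:ℂ) R := rfl
  rw [this]
  unfold link
  rw [sphere_inter_sphere (σ' := -R) hρ.le hR.le (by ring) (by linarith)]
  · congr 1
  · simp only [Complex.ofReal_re, Complex.ofReal_im, zero_sub, neg_sq]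
    have := cen_dist h x
    nlinarith

lemma circle_subset_region (h : Adm R r d) (x : ℝ) :
    closedBall (cen R r d x) (rad R r d x) ⊆ (std h).region := by
  have hρ := rad_pos h x
  have hR := h.toC.R_pos
  have hlt := rad_lt h x
  have h1 : dist (cen R r d x) (d:ℂ) = R - rad R r d x := by
    have h2 := (mem_sphere_coord (z := cen R r d x) (P := (d:ℂ))
      (ρ := R - rad R r d x) (by linarith)).mpr ?_
    · exact mem_sphere.mp h2
    · simpa using cen_dist h x
  have h3 : dist (cen R r d x) 0 = sf R r d x := by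
    have h2 := (mem_sphere_coord (z := cen R r d x) (P := 0)
      (ρ := sf R r d x) (sf_pos h x).le).mpr ?_
    · exact mem_sphere.mp h2
    · simpa using cen_norm (R := R) (r := r) (d := d) x
  intro z hz
  rw [mem_closedBall] at hz
  have hreg : (std h).region = closedBall (d:ℂ) R \ ball (0:ℂ) r := rfl
  rw [hreg, Set.mem_sdiff, mem_closedBall, mem_ball, not_lt]
  constructor
  · have := dist_triangle z (cen R r d x) d
    linarith
  · have h4 := dist_triangle (cen R r d x) z 0
    rw [dist_comm (cen R r d x) z] at h4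
    have := sf_eq h x
    linarith

lemma dd_pos (h : Adm R r d) (x : ℝ) : 0 < dd R r d x := by
  have h1 : dd R r d x = (R - r + d*cos x) * mf R r d x := by
    unfold dd mf; ring
  rw [h1]
  have := h.toC.neg_le_dcos x
  exact mul_pos (by linarith [h.3]) (h.toC.mf_pos x)

lemma tp_sq (h : Adm R r d) (x : ℝ) : (tp R r d x + d*sin x)^2 = dd R r d x := by
  have : tp R r d x + d * sin x = √(dd R r d x) := by unfold tp; ring
  rw [this, sq_sqrt (dd_pos h x).le]

lemma tm_sq (h : Adm R r d) (x : ℝ) : (tm R r d x + d*sin x)^2 = dd R r d x := by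
  have : tm R r d x + d * sin x = -√(dd R r d x) := by unfold tm; ring
  rw [this, neg_sq, sq_sqrt (dd_pos h x).le]

lemma tm_lt_tp (h : Adm R r d) (x : ℝ) : tm R r d x < tp R r d x := by
  have := sqrt_pos.mpr (dd_pos h x)
  unfold tm tp
  linarith

lemma tm_mul_tp (h : Adm R r d) (x : ℝ) : tm R r d x * tp R r d x < 0 := by
  have h1 : tm R r d x * tp R r d x = (d * sin x)^2 - √(dd R r d x)^2 := by
    unfold tm tp; ring
  rw [h1, sq_sqrt (dd_pos h x).le]
  have hq := h.Qf_pos x
  have : (d * sin x)^2 - dd R r d x = - Qf R r d x := by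
    unfold dd Qf
    linear_combination d^2 * sin_sq' x
  rw [this]
  linarith

lemma tp_pos (h : Adm R r d) (x : ℝ) : 0 < tp R r d x := by
  have h1 := tm_lt_tp h x
  have h2 := tm_mul_tp h x
  by_contra hcon
  push Not at hcon
  nlinarith

lemma tm_neg (h : Adm R r d) (x : ℝ) : tm R r d x < 0 := by
  have h1 := tm_lt_tp h x
  have h2 := tm_mul_tp h x
  by_contra hcon
  push Not at hcon
  nlinarith

lemma pt_mem_outer (h : Adm R r d) (x t : ℝ) :
    pt r x t ∈ (std h).outer ↔ (t + d*sin x)^2 = dd R r d x := by
  rw [outer_mem, pt_re, pt_im]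
  unfold dd
  have h1 : (r*cos x - t*sin x - d)^2 + (r*sin x + t*cos x)^2 =
    (r^2 + t^2) * (sin x ^2 + cos x^2) - 2*d*(r*cos x - t*sin x) + d^2 := by ring
  rw [h1, sin_sq_add_cos_sq]
  have h2 := sin_sq' x
  constructor <;> intro h3
  · linear_combination h3 + d^2 * h2
  · linear_combination h3 - d^2 * h2

/-- points of the line inside `k` are on the chord -/
lemma pt_mem_chord (h : Adm R r d) (x t : ℝ) (ht : (t + d*sin x)^2 ≤ dd R r d x) :
    pt r x t ∈ link R r d s x := by
  have h1 := abs_le_sqrt ht
  rw [abs_le] at h1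
  unfold link
  rw [mem_segment_pt (tm_lt_tp h x)]
  refine ⟨t, ?_, ?_, rfl⟩
  · unfold tm; linarith
  · unfold tp; linarith

lemma chord_inter_inner (h : Adm R r d) (x : ℝ) :
    link R r d s x ∩ (std h).inner = {pt r x 0} := by
  ext z
  rw [Set.mem_inter_iff, Set.mem_singleton_iff]
  unfold link
  rw [mem_segment_pt (tm_lt_tp h x)]
  constructor
  · rintro ⟨⟨t, h1, h2, rfl⟩, h3⟩
    rw [inner_mem, pt_re, pt_im] at h3
    have h4 : (r*cos x - t*sin x)^2 + (r*sin x + t*cos x)^2 =
      (r^2 + t^2) * (sin x ^2 + cos x^2) := by ring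
    rw [h4, sin_sq_add_cos_sq] at h3
    have : t = 0 := by nlinarith
    rw [this]
  · rintro rfl
    refine ⟨⟨0, (tm_neg h x).le, (tp_pos h x).le, rfl⟩, ?_⟩
    rw [inner_mem, pt_re, pt_im]
    have h4 : (r*cos x - 0*sin x)^2 + (r*sin x + 0*cos x)^2 =
      r^2 * (sin x ^2 + cos x^2) := by ring
    rw [h4, sin_sq_add_cos_sq, mul_one]

lemma isLink (h : Adm R r d) (a : Letter) (x : ℝ) : IsLink (std h) a (link R r d a x) := by
  cases a
  · exact ⟨cen R r d x, rad R r d x, rad_pos h x, rfl, circle_subset_region h x,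
      ⟨_, circle_inter_inner h x⟩, ⟨_, circle_inter_outer h x⟩⟩
  · refine ⟨pt r x (tm R r d x), pt r x (tp R r d x), ?_, ?_, ?_, rfl,
      ⟨_, chord_inter_inner h x⟩⟩
    · rw [pt_mem_outer, tm_sq h]
    · rw [pt_mem_outer, tp_sq h]
    · intro heq
      have h1 := congrArg Complex.re heq
      have h2 := congrArg Complex.im heq
      rw [pt_re, pt_re] at h1
      rw [pt_im, pt_im] at h2
      have h3 := tm_lt_tp h x
      have h4 : (tp R r d x - tm R r d x) * sin x = 0 := by linarith
      have h5 : (tp R r d x - tm R r d x) * cos x = 0 := by linarith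
      have h6 : tp R r d x - tm R r d x ≠ 0 := by linarith
      have h7 := (mul_eq_zero.mp h4).resolve_left h6
      have h8 := (mul_eq_zero.mp h5).resolve_left h6
      have := sin_sq_add_cos_sq x
      rw [h7, h8] at this
      norm_num at this

/-- twice the signed area of the triangle `A B p` -/
def cross (A B p : ℂ) : ℝ := (B.re - A.re)*(p.im - A.im) - (B.im - A.im)*(p.re - A.re)

lemma mem_line_of_cross {A B p : ℂ} (hAB : A ≠ B) (hp : cross A B p = 0) :
    p ∈ line[ℝ, A, B] := by
  rw [mem_affineSpan_pair_iff_exists_lineMap_eq]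
  have hN : 0 < (B.re - A.re)^2 + (B.im - A.im)^2 := by
    rcases lt_or_eq_of_le (add_nonneg (sq_nonneg (B.re - A.re)) (sq_nonneg (B.im - A.im)))
      with h | h
    · exact h
    · exfalso
      apply hAB
      apply Complex.ext <;> nlinarith [sq_nonneg (B.re - A.re), sq_nonneg (B.im - A.im)]
  obtain ⟨l, hl⟩ : ∃ l, l = ((p.re - A.re)*(B.re-A.re) + (p.im-A.im)*(B.im-A.im)) /
    ((B.re - A.re)^2 + (B.im - A.im)^2) := ⟨_, rfl⟩
  have hl' : l * ((B.re - A.re)^2 + (B.im - A.im)^2) =
    ((p.re - A.re)*(B.re-A.re) + (p.im-A.im)*(B.im-A.im)) := by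
    rw [hl]; field_simp
  refine ⟨l, ?_⟩
  unfold cross at hp
  apply Complex.ext
  · simp only [AffineMap.lineMap_apply, vsub_eq_sub, vadd_eq_add, Complex.add_re,
      Complex.real_smul, Complex.mul_re, Complex.ofReal_re, Complex.ofReal_im, Complex.sub_re]
    have : ((B.re - A.re)^2 + (B.im - A.im)^2) * (l * (B.re - A.re) - (p.re - A.re)) = 0 := by
      linear_combination (B.re - A.re) * hl' + (B.im - A.im) * hp
    have := (mul_eq_zero.mp this).resolve_left hN.ne'
    linarith
  · simp only [AffineMap.lineMap_apply, vsub_eq_sub, vadd_eq_add, Complex.add_im,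
      Complex.real_smul, Complex.mul_im, Complex.ofReal_re, Complex.ofReal_im, Complex.sub_im]
    have : ((B.re - A.re)^2 + (B.im - A.im)^2) * (l * (B.im - A.im) - (p.im - A.im)) = 0 := by
      linear_combination (B.im - A.im) * hl' - (B.re - A.re) * hp
    have := (mul_eq_zero.mp this).resolve_left hN.ne'
    linarith

lemma cross_of_mem_line {A B p : ℂ} (hp : p ∈ line[ℝ, A, B]) : cross A B p = 0 := by
  rw [mem_affineSpan_pair_iff_exists_lineMap_eq] at hp
  obtain ⟨l, rfl⟩ := hp
  unfold cross
  simp only [AffineMap.lineMap_apply, vsub_eq_sub, vadd_eq_add, Complex.add_re,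
      Complex.real_smul, Complex.mul_re, Complex.ofReal_re, Complex.ofReal_im, Complex.sub_re,
      Complex.add_im, Complex.mul_im, Complex.sub_im]
  ring

lemma sOppSide_of_cross {A B p q : ℂ} (hp : cross A B p < 0) (hq : 0 < cross A B q) :
    (line[ℝ, A, B]).SOppSide p q := by
  have hAB : A ≠ B := by
    rintro rfl
    simp [cross] at hp
  refine ⟨?_, ?_, ?_⟩
  · obtain ⟨l, hl⟩ : ∃ l, l = (- cross A B p) / (cross A B q - cross A B p) := ⟨_, rfl⟩
    have hpos : 0 < cross A B q - cross A B p := by linarith
    have hl' : l * (cross A B q - cross A B p) = - cross A B p := by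
      rw [hl]; field_simp
    have hl0 : 0 < l := by rw [hl]; exact div_pos (by linarith) hpos
    have hl1 : l < 1 := by rw [hl, div_lt_one hpos]; linarith
    have hmem : p + l • (q - p) ∈ line[ℝ, A, B] := by
      apply mem_line_of_cross hAB
      have : cross A B (p + l • (q - p)) = cross A B p + l * (cross A B q - cross A B p) := by
        unfold cross
        simp only [Complex.add_re, Complex.real_smul, Complex.mul_re, Complex.ofReal_re,
          Complex.ofReal_im, Complex.sub_re, Complex.add_im, Complex.mul_im, Complex.sub_im]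
        ring
      rw [this, hl']
      ring
    refine ⟨p + l • (q - p), hmem, p + l • (q - p), hmem, ?_⟩
    have e1 : p -ᵥ (p + l • (q - p)) = l • (p - q) := by
      rw [vsub_eq_sub]; module
    have e2 : (p + l • (q - p)) -ᵥ q = (1 - l) • (p - q) := by
      rw [vsub_eq_sub]; module
    rw [e1, e2]
    exact (SameRay.refl _).pos_smul_left hl0 |>.pos_smul_right (by linarith)
  · intro hmem
    have := cross_of_mem_line hmem
    linarith
  · intro hmem
    have := cross_of_mem_line hmem
    linarith

end

end MixedChains
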