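import Pool.Agent.Lib.MP_8152b2_gt.Chain

/-!
Words with `a_{j+2} ≠ a_j` for some `j` are not closure sequences.
-/

namespace MixedChains

open Real Letter Metric Set

/-- weight of a direction -/
noncomputable def wt (R r d : ℝ) : Letter → ℝ → ℝ
  | .c, x => Qf R r d x * (2*r*mf R r d x)
  | .s, x => 2*r*Kf R r d*(R-r+d*cos x)

/-- contribution of a step to the square of the derivative -/
noncomputable def kap (R r d : ℝ) : Letter → Letter → ℝ → ℝ → ℝ
  | .s, .s, x, y => mf R r d y / mf R r d x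
  | .c, .c, x, y => (Qf R r d y * mf R r d x) / (Qf R r d x * mf R r d y)
  | .c, .s, _, _ => 1
  | .s, .c, _, _ => 1

section
variable {R r d : ℝ}

lemma wt_pos (h : Adm R r d) (a : Letter) (x : ℝ) : 0 < wt R r d a x := by
  have hr := h.1
  cases a
  · have := h.Qf_pos x
    have := h.toC.mf_pos x
    unfold wt
    positivity
  · have h1 := h.toC.Kf_pos
    have := h.toC.neg_le_dcos x
    have h2 : 0 < R - r + d*cos x := by linarith [h.3]
    unfold wt
    positivity

lemma kap_pos (h : Adm R r d) (a b : Letter) (x y : ℝ) : 0 < kap R r d a b x y := by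
  have := h.Qf_pos x
  have := h.Qf_pos y
  have := h.toC.mf_pos x
  have := h.toC.mf_pos y
  cases a <;> cases b <;> unfold kap <;> positivity

lemma wt_add (a : Letter) (x : ℝ) (k : ℕ) :
    wt R r d a (x + 2*π*k) = wt R r d a x := by
  have : cos (x + 2*π*k) = cos x := by
    rw [show x + 2*π*k = x + (k:ℤ)*(2*π) by push_cast; ring]
    exact cos_add_int_mul_two_pi x k
  cases a <;> simp only [wt, Qf, mf, this]

lemma disc_ratio (h : Adm R r d) (a b : Letter) (x y : ℝ) :
    disc (coef R r d b a) y * wt R r d a x =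
      disc (coef R r d a b) x * (wt R r d b y * kap R r d a b x y) := by
  have hr := h.1
  have q1 := h.Qf_pos x
  have q2 := h.Qf_pos y
  have m1 := h.toC.mf_pos x
  have m2 := h.toC.mf_pos y
  cases a <;> cases b
  · rw [disc_cc, disc_cc]
    unfold kap wt
    field_simp
  · rw [disc_sc, disc_cs]
    unfold kap wt
    ring
  · rw [disc_sc, disc_cs]
    unfold kap wt
    ring
  · rw [disc_ss, disc_ss]
    unfold kap wt
    field_simp

/-- the derivative of an orbit -/
theorem orb_deriv (h : Adm R r d) (a : ℕ → Letter) (x : ℝ) (n : ℕ) :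
    ∃ D, HasDerivAt (fun z => orb R r d a z n) D x ∧
      D^2 * wt R r d (a 0) x = wt R r d (a n) (orb R r d a x n) *
        ∏ m ∈ Finset.range n, kap R r d (a m) (a (m+1)) (orb R r d a x m)
          (orb R r d a x (m+1)) := by
  induction n with
  | zero =>
    refine ⟨1, ?_, ?_⟩
    · exact hasDerivAt_id' x
    · simp [orb]
  | succ n ih =>
    obtain ⟨D, hD, hD2⟩ := ih
    obtain ⟨E, hE⟩ : ∃ E, HasDerivAt (step (coef R r d (a n) (a (n+1)))) E
        (orb R r d a x n) :=
      ⟨_, (differentiableAt_step (h.good _ _ _).1 (h.good _ _ _).2).hasDerivAt⟩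
    refine ⟨E * D, hE.comp x hD, ?_⟩
    have h1 := deriv_step_sq (h.good (a n) (a (n+1))) hE
    rw [coef_swap, ← orb_succ] at h1
    have h2 := disc_ratio h (a n) (a (n+1)) (orb R r d a x n) (orb R r d a x (n+1))
    have h3 := disc_pos (h.good (a n) (a (n+1)) (orb R r d a x n)).1
      (h.good (a n) (a (n+1)) (orb R r d a x n)).2
    rw [← h1] at h2
    have h4 : E^2 * wt R r d (a n) (orb R r d a x n) = wt R r d (a (n+1)) (orb R r d a x (n+1)) *
        kap R r d (a n) (a (n+1)) (orb R r d a x n) (orb R r d a x (n+1)) := by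
      have : disc (coef R r d (a n) (a (n+1))) (orb R r d a x n) *
        (E^2 * wt R r d (a n) (orb R r d a x n) - wt R r d (a (n+1)) (orb R r d a x (n+1)) *
        kap R r d (a n) (a (n+1)) (orb R r d a x n) (orb R r d a x (n+1))) = 0 := by
        linear_combination h2
      have := (mul_eq_zero.mp this).resolve_left h3.ne'
      linarith
    rw [Finset.prod_range_succ]
    linear_combination E^2 * hD2 + (∏ m ∈ Finset.range n, kap R r d (a m) (a (m+1))
      (orb R r d a x m) (orb R r d a x (m+1))) * h4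

end

/-- a product over a period does not depend on the starting point -/
lemma prod_shift (f : ℕ → ℝ) (hf : ∀ m, 0 < f m) (n : ℕ) (hper : ∀ m, f (m+n) = f m) (L : ℕ) :
    ∏ m ∈ Finset.range n, f (L+m) = ∏ m ∈ Finset.range n, f m := by
  induction L with
  | zero => simp
  | succ L ih =>
    rw [← ih]
    have h1 := Finset.prod_range_succ (fun m => f (L+m)) n
    have h2 := Finset.prod_range_succ' (fun m => f (L+m)) n
    rw [h1] at h2
    simp only [add_zero, hper] at h2
    have h3 := mul_right_cancel₀ (hf L).ne' h2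
    rw [h3]
    apply Finset.prod_congr rfl
    intro m _
    congr 1
    ring

section estimates
/-! Estimates for `r = 1`, `R` large and `R - 17 ≤ d < R - 1`. -/

variable {R d : ℝ}

lemma mf_le (hd0 : 0 ≤ d) (hd : d ≤ R) (x : ℝ) : mf R 1 d x ≤ 2*(R+1) := by
  unfold mf
  nlinarith [neg_one_le_cos x]

lemma mf_ge (hd : d ≤ R + 1) (hd0 : 0 ≤ d) {x : ℝ} (hx : cos x ≤ 1/2) :
    (R+1)/2 ≤ mf R 1 d x := by
  unfold mf
  nlinarith

lemma mf_zero_le (hd : R - 17 ≤ d) (k : ℕ) : mf R 1 d (2*π*k) ≤ 18 := by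
  have : cos (2*π*k) = 1 := by
    rw [show 2*π*k = (k:ℤ)*(2*π) by push_cast; ring]
    exact cos_int_mul_two_pi k
  unfold mf
  rw [this]
  linarith

/-- for two touching inscribed circles, `Q` changes at most by a factor `4` -/
lemma Qf_le_four (h : Adm R 1 d) {x y : ℝ} (hrel : Rel (coef R 1 d c c) x y = 0) :
    Qf R 1 d y ≤ 4 * Qf R 1 d x := by
  have hd := h.2
  have hlt := h.3
  have q1 := h.Qf_pos x
  have q2 := h.Qf_pos y
  have hK : 4*d ≤ Kf R 1 d := by unfold Kf; nlinarith
  have hK0 := h.toC.Kf_pos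
  rw [rel_cc] at hrel
  have h1 : (cos y - cos x)^2 ≤ 2*(1 - cos (y-x)) := by
    have e1 : cos y = cos ((x+y)/2) * cos ((y-x)/2) - sin ((x+y)/2) * sin ((y-x)/2) := by
      rw [← cos_add]; congr 1; ring
    have e2 : cos x = cos ((x+y)/2) * cos ((y-x)/2) + sin ((x+y)/2) * sin ((y-x)/2) := by
      rw [← cos_sub]; congr 1; ring
    have e3 : cos (y-x) = 1 - 2*sin ((y-x)/2)^2 := by
      rw [show y - x = 2*((y-x)/2) by ring, cos_two_mul]
      rw [show 2*((y-x)/2)/2 = (y-x)/2 by ring]
      linear_combination 2 * sin_sq' ((y-x)/2)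
    rw [e3, e1, e2]
    have e4 : sin ((x+y)/2)^2 ≤ 1 := sin_sq_le_one _
    have e5 : 0 ≤ sin ((y-x)/2)^2 := sq_nonneg _
    have : (cos ((x+y)/2) * cos ((y-x)/2) - sin ((x+y)/2) * sin ((y-x)/2) -
      (cos ((x+y)/2) * cos ((y-x)/2) + sin ((x+y)/2) * sin ((y-x)/2)))^2 =
      4 * sin ((x+y)/2)^2 * sin ((y-x)/2)^2 := by ring
    rw [this]
    nlinarith
  have h2 : (Qf R 1 d y - Qf R 1 d x)^2 ≤ Qf R 1 d x * Qf R 1 d y := by
    have e1 : (Qf R 1 d y - Qf R 1 d x)^2 = 4*d^2*(cos y - cos x)^2 := by unfold Qf; ring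
    have e2 : Kf R 1 d^2 * (1 - cos (y-x))/2 = Qf R 1 d x * Qf R 1 d y := by linarith
    rw [e1, ← e2]
    have e3 : 16*d^2 ≤ Kf R 1 d^2 := by nlinarith
    have e4 : 0 ≤ 1 - cos (y-x) := by linarith [cos_le_one (y-x)]
    nlinarith
  by_contra hcon
  push Not at hcon
  nlinarith

/-- first step from direction `0` -/
lemma first_cos (h : Adm R 1 d) (hR : 18 ≤ R) (hd : R - 17 ≤ d) (a : Letter) {v : ℝ}
    (hrel : Rel (coef R 1 d a c) 0 v = 0) : cos v ≤ 1/2 := by
  have hlt := h.3
  have hd0 := h.2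
  have hK0 := h.toC.Kf_pos
  have h1 := cos_le_one v
  have h2 := neg_one_le_cos v
  cases a
  · rw [rel_cc, sub_zero] at hrel
    have hQ : (3/4) * Kf R 1 d ≤ Qf R 1 d 0 := by
      unfold Kf Qf; rw [cos_zero]; nlinarith
    have hQm : Qf R 1 d v = Qf R 1 d 0 - 2*d*(1 - cos v) := by
      unfold Qf; rw [cos_zero]; ring
    have hQd : 4*d ≤ Qf R 1 d 0 + 2*d := by
      unfold Qf; rw [cos_zero]; nlinarith
    by_contra hcon
    push Not at hcon
    have h3 : Kf R 1 d^2 * (1 - cos v)/2 < Kf R 1 d^2/4 := by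
      nlinarith [sq_pos_of_pos hK0]
    have h4 : (1/2) * Qf R 1 d 0 ≤ Qf R 1 d v := by
      rw [hQm]; nlinarith
    nlinarith [mul_le_mul hQ h4 (by linarith) (by linarith)]
  · rw [rel_sc, sub_zero] at hrel
    have e0 : 0 ≤ (R-d-1)*(R+d) := mul_nonneg (by linarith) (by linarith)
    have e1 : Kf R 1 d ≤ 4*(R^2-1-d^2+d) := by unfold Kf; nlinarith
    have e2 : Qf R 1 d v = R^2-1-d^2+2*d*cos v := by unfold Qf; ring
    by_contra hcon
    push Not at hcon
    have e3 : Kf R 1 d * (1 - cos v)/2 < Kf R 1 d/4 := by nlinarith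
    have e4 : R^2-1-d^2+d ≤ Qf R 1 d v := by rw [e2]; nlinarith
    linarith

/-- last step to direction `2π` -/
lemma last_cos (h : Adm R 1 d) (hR : 18 ≤ R) (hd : R - 17 ≤ d) (a : Letter) {v : ℝ}
    (hrel : Rel (coef R 1 d s a) v (2*π) = 0) : cos v ≤ 1/2 := by
  have hlt := h.3
  have hd0 := h.2
  have hK0 := h.toC.Kf_pos
  have h1 := cos_le_one v
  have h2 := neg_one_le_cos v
  cases a
  · rw [rel_sc, cos_two_pi_sub] at hrel
    have hQ : (3/4) * Kf R 1 d ≤ Qf R 1 d (2*π) := by
      unfold Kf Qf; rw [cos_two_pi]; nlinarith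
    nlinarith
  · rw [rel_ss, cos_two_pi_sub, cos_two_pi] at hrel
    have hN : 0 < R^2 - d^2 := by nlinarith
    by_contra hcon
    push Not at hcon
    have e1 : (1 + cos v) * (d + (R^2-d^2)/2) = 1 := by linarith
    have e2 : 1 * 1 ≤ (1 + cos v) * (d + (R^2-d^2)/2) :=
      mul_le_mul (by linarith) (by linarith) (by norm_num) (by linarith)
    have e3 : (3/2) * 1 ≤ (1 + cos v) * (d + (R^2-d^2)/2) :=
      mul_le_mul (by linarith) (by linarith) (by norm_num) (by linarith)
    linarith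

end estimates

end MixedChains
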