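import Pool.Agent.Lib.MP_8152b2_gt.Links

/-!
Sign computations: on which side of a link is the contact point with its neighbour.
-/

namespace MixedChains

open Real Letter Metric

lemma posX {L μ K c σ C S : ℝ} (h1 : μ < L) (hμ : 0 ≤ μ) (hK : L < K)
    (hc : c^2 + σ^2 = 1) (hC : C^2 + S^2 = 1) (hC0 : 0 < C) (hS : S ≠ 0)
    (hrel : K^2*S^2 = (L + μ*c) * (L + μ*(c*(2*C^2-1) - 2*S*C*σ))) :
    0 < (L + μ*c)*C - μ*S*σ := by
  have hX2 : ((L + μ*c)*C - μ*S*σ)^2 = (K^2 - L^2 + μ^2)*S^2 := by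
    linear_combination -hrel + L^2*(hC) + μ^2*S^2*hc + (-c^2*μ^2)*hC
  by_contra hcon
  push Not at hcon
  set X := (L + μ*c)*C - μ*S*σ with hX
  have hv1 : (C*c - S*σ)^2 ≤ 1 := by
    have : (C*c - S*σ)^2 + (C*σ + S*c)^2 = 1 := by
      have : (C*c - S*σ)^2 + (C*σ + S*c)^2 = (C^2+S^2)*(c^2+σ^2) := by ring
      rw [this, hC, hc]; ring
    nlinarith [sq_nonneg (C*σ + S*c)]
  have hv2 : -1 ≤ C*c - S*σ := (abs_le_of_sq_le_sq' (by simpa using hv1) (by norm_num)).1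
  have hS2 : 0 < S^2 := by positivity
  have hC1 : C < 1 := by nlinarith
  have h3 : -X ≤ μ*(1-C) := by
    have : X = L*C + μ*(C*c - S*σ) := by rw [hX]; ring
    nlinarith
  have h4 : X^2 ≤ (μ*(1-C))^2 := by
    nlinarith
  have h5 : μ^2*(1-C)^2 ≤ μ^2*S^2 := by
    have : (1-C)^2 ≤ S^2 := by nlinarith
    exact mul_le_mul_of_nonneg_left this (sq_nonneg _)
  have h6 : 0 < (K^2 - L^2)*S^2 := by
    apply mul_pos _ hS2
    nlinarith
  nlinarith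

/-- the sign computation for a segment neighbour of a circle -/
lemma sign_seg {R r d c σ C S : ℝ} (h : Adm R r d)
    (hc : c^2 + σ^2 = 1) (hC : C^2 + S^2 = 1) (hC0 : 0 < C) (hS : S ≠ 0)
    (hrel : Kf R r d*S^2 = R^2-r^2-d^2+2*r*d*c) :
    0 < S*((R+r)*(2*S*C) - d*(σ + (σ*(2*C^2-1)+c*(2*S*C)))) := by
  have hr := h.1
  have hd := h.2
  have hlt := h.3
  have hS2 : 0 < S^2 := by positivity
  have hc1 : -1 ≤ c := by nlinarith
  have hc2 : c ≤ 1 := by nlinarith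
  have hK := h.toC.Kf_pos
  set K := Kf R r d with hKdef
  have hKe : K = (R+r)^2-d^2 := rfl
  set m := R + r - d*c with hm
  have hm0 : 0 < m := by nlinarith
  set Q := R^2-r^2-d^2+2*r*d*c with hQ
  have hKQ : K - Q = 2*r*m := by rw [hKe, hQ, hm]; ring
  have hV : 0 < m*Q - 2*r*d^2*σ^2 := by
    have h1 : 0 < (R+r-d)*(R^2-(r-d)^2) := by
      have : R^2-(r-d)^2 = (R-r+d)*(R+r-d) := by ring
      rw [this]
      exact mul_pos (by linarith) (mul_pos (by linarith) (by linarith))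
    have h2 : 0 < (R+r+d)*(R^2-(r+d)^2) := by
      have : R^2-(r+d)^2 = (R-r-d)*(R+r+d) := by ring
      rw [this]
      exact mul_pos (by linarith) (mul_pos (by linarith) (by linarith))
    have h3 : m*Q - 2*r*d^2*σ^2 = (1+c)/2*((R+r-d)*(R^2-(r-d)^2)) +
        (1-c)/2*((R+r+d)*(R^2-(r+d)^2)) := by
      rw [hm, hQ]
      linear_combination (-2*r*d^2)*hc
    rw [h3]
    rcases le_or_gt 0 c with hc0 | hc0
    · have := mul_pos (by linarith : (0:ℝ) < (1+c)/2) h1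
      have := mul_nonneg (by linarith : (0:ℝ) ≤ (1-c)/2) h2.le
      linarith
    · have := mul_nonneg (by linarith : (0:ℝ) ≤ (1+c)/2) h1.le
      have := mul_pos (by linarith : (0:ℝ) < (1-c)/2) h2
      linarith
  have h4 : (d*σ*C)^2 < (m*S)^2 := by
    have h5 : K*((m*S)^2 - (d*σ*C)^2) = m*(m*Q - 2*r*d^2*σ^2) := by
      have e1 : C^2 = 1 - S^2 := by linarith
      have : K*((m*S)^2 - (d*σ*C)^2) = m^2*(K*S^2) - d^2*σ^2*(K - K*S^2) := by
        rw [mul_pow, mul_pow, e1]; ring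
      rw [this, hrel]
      have : K - Q = 2*r*m := hKQ
      rw [this]; ring
    have h6 : 0 < K*((m*S)^2 - (d*σ*C)^2) := by rw [h5]; exact mul_pos hm0 hV
    have h7 := (mul_pos_iff_of_pos_left hK).mp h6
    linarith
  have h8 : (d*σ*C*S)^2 < (m*S*S)^2 := by
    have : (m*S*S)^2 - (d*σ*C*S)^2 = ((m*S)^2 - (d*σ*C)^2)*S^2 := by ring
    have := mul_pos (sub_pos.mpr h4) hS2
    nlinarith
  have h9 : d*σ*C*S < m*S*S := by
    have h10 : 0 ≤ m*S*S := by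
      have : m*S*S = m*S^2 := by ring
      rw [this]; positivity
    exact lt_of_pow_lt_pow_left₀ 2 h10 h8
  have h11 : S*((R+r)*(2*S*C) - d*(σ + (σ*(2*C^2-1)+c*(2*S*C)))) = 2*C*(m*S*S - d*σ*C*S) := by
    rw [hm]; ring
  rw [h11]
  exact mul_pos (by linarith) (by linarith)

/-- the sign computation for a circle neighbour of a circle -/
lemma sign_circ {R r d c σ C S s' : ℝ} (h : Adm R r d)
    (hc : c^2 + σ^2 = 1) (hC : C^2 + S^2 = 1) (hC0 : 0 < C) (hS : S ≠ 0)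
    (hrel : Kf R r d^2*S^2 = (R^2-r^2-d^2+2*r*d*c) *
      (R^2-r^2-d^2+2*r*d*(c*(2*C^2-1) - 2*S*C*σ)))
    (hm' : 0 < R + r - d*(c*(2*C^2-1) - 2*S*C*σ))
    (hs' : 2*s'*(R + r - d*(c*(2*C^2-1) - 2*S*C*σ)) = Kf R r d)
    (hQ0 : 0 < R^2-r^2-d^2+2*r*d*c) (hm0 : 0 < R + r - d*c) :
    0 < S*(s'*((R+r)*(2*S*C) - d*(σ + (σ*(2*C^2-1)+c*(2*S*C)))) + 2*r*d*σ) := by
  have hr := h.1
  have hd := h.2
  have hlt := h.3
  have hK := h.toC.Kf_pos
  have hX := posX (L := R^2-r^2-d^2) (μ := 2*r*d) (K := Kf R r d) (c := c) (σ := σ) (C := C)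
    (S := S) (by nlinarith) (by positivity) (by unfold Kf; nlinarith) hc hC hC0 hS hrel
  set K := Kf R r d with hKdef
  have hKe : K = (R+r)^2-d^2 := rfl
  set Q := R^2-r^2-d^2+2*r*d*c with hQ
  set Q' := R^2-r^2-d^2+2*r*d*(c*(2*C^2-1) - 2*S*C*σ) with hQ'
  set m' := R + r - d*(c*(2*C^2-1) - 2*S*C*σ) with hm'def
  set m := R + r - d*c with hm
  have hKQ : K - Q = 2*r*m := by rw [hKe, hQ, hm]; ring
  have hKQ' : K - Q' = 2*r*m' := by rw [hKe, hQ', hm'def]; ring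
  have hS2 : 0 < S^2 := by positivity
  set E := s'*((R+r)*(2*S*C) - d*(σ + (σ*(2*C^2-1)+c*(2*S*C)))) + 2*r*d*σ with hE
  have key : (Q*(2*m'))*(S*E) = 2*K*S^2*m*(Q*C - 2*r*d*S*σ) := by
    have e1 : 2*m'*E = K*((R+r)*(2*S*C) - d*(σ + (σ*(2*C^2-1)+c*(2*S*C)))) + 2*d*σ*(K-Q') := by
      rw [hKQ', hE, ← hs']; ring
    have e2 : (Q*(2*m'))*(S*E) = Q*S*(2*m'*E) := by ring
    rw [e2, e1]
    have e3 : Q*S*(K*((R+r)*(2*S*C) - d*(σ + (σ*(2*C^2-1)+c*(2*S*C)))) + 2*d*σ*(K-Q')) =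
      Q*S*K*((R+r)*(2*S*C) - d*(σ + (σ*(2*C^2-1)+c*(2*S*C)))) + 2*d*σ*(Q*K*S) - 2*d*σ*S*(Q*Q') := by
      ring
    rw [e3, ← hrel]
    clear_value Q m
    subst hm
    linear_combination (-2*d*σ*K*S^3) * hKQ + (-2*d*Q*S*K*σ)*hC
  have hpos : 0 < (Q*(2*m'))*(S*E) := by
    rw [key]
    have : 0 < Q*C - 2*r*d*S*σ := hX
    positivity
  exact (mul_pos_iff_of_pos_left (by positivity : 0 < Q*(2*m'))).mp hpos

end MixedChains
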