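import Pool.Agent.Lib.MP_8152b2_gt.Defs

/-!
Analytic description of the steps of a mixed circle-segment chain.

A link of a chain is described by the direction `x` (an angle, seen from the centre of the
inner circle) of its contact point with the inner circle.  Two consecutive links are in
contact iff a symmetric relation, quadratic in the half angle coordinates of each of
them, holds.  This file studies such relations in general.
-/

namespace MixedChains

open Real

/-- Coefficients of a relation
`al Cx²Cy² + be Sx²Cy² + ga Cx²Sy² + ze Sx²Sy² + 2 mu Cx Sx Cy Sy = 0`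
between half angle coordinates. -/
structure Coef (A : Type) where
  al : A
  be : A
  ga : A
  ze : A
  mu : A

/-- The coefficients of the contact relation between links of two given types. -/
def coef {A : Type} [CommRing A] (R r d : A) : Letter → Letter → Coef A
  | .s, .s => ⟨-(R^2-(r-d)^2), r^2, r^2, -(R^2-(r+d)^2), -(R^2-d^2)⟩
  | .c, .s => ⟨-(R^2-(r-d)^2), 2*r*(R+r+d), 2*r*(R+r-d), -(R^2-(r+d)^2), -((R+r)^2-d^2)⟩
  | .s, .c => ⟨-(R^2-(r-d)^2), 2*r*(R+r-d), 2*r*(R+r+d), -(R^2-(r+d)^2), -((R+r)^2-d^2)⟩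
  | .c, .c => ⟨-(R^2-(r-d)^2)^2,
      ((R+r)^2-d^2)^2-(R^2-(r-d)^2)*(R^2-(r+d)^2),
      ((R+r)^2-d^2)^2-(R^2-(r-d)^2)*(R^2-(r+d)^2),
      -(R^2-(r+d)^2)^2, -((R+r)^2-d^2)^2⟩

section relations

variable (k : Coef ℝ)

/-- coefficient of `Cy²` -/
noncomputable def fA (x : ℝ) : ℝ := k.al * (1 + cos x) / 2 + k.be * (1 - cos x) / 2
/-- half the coefficient of `Cy Sy` -/
noncomputable def fB (x : ℝ) : ℝ := k.mu * sin x / 2
/-- coefficient of `Sy²` -/
noncomputable def fD (x : ℝ) : ℝ := k.ga * (1 + cos x) / 2 + k.ze * (1 - cos x) / 2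

/-- the relation -/
noncomputable def Rel (x y : ℝ) : ℝ :=
  fA k x * (1 + cos y) / 2 + fB k x * sin y + fD k x * (1 - cos y) / 2

/-- value of the relation at `y = x` -/
noncomputable def g0 (x : ℝ) : ℝ :=
  fA k x * (1 + cos x) / 2 + fB k x * sin x + fD k x * (1 - cos x) / 2
/-- value of the relation at `y = x + π` -/
noncomputable def gp (x : ℝ) : ℝ :=
  fA k x * (1 - cos x) / 2 - fB k x * sin x + fD k x * (1 + cos x) / 2
/-- derivative of the relation at `y = x` -/
noncomputable def b2 (x : ℝ) : ℝ := (fD k x - fA k x) * sin x / 2 + fB k x * cos x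

/-- discriminant -/
noncomputable def disc (x : ℝ) : ℝ := fB k x ^ 2 - fA k x * fD k x

/-- tangent of half the forward step -/
noncomputable def tau (x : ℝ) : ℝ := (-(b2 k x) + √(disc k x)) / gp k x

/-- the forward step -/
noncomputable def step (x : ℝ) : ℝ := x + 2 * arctan (tau k x)

lemma disc_eq (x : ℝ) : disc k x = b2 k x ^ 2 - g0 k x * gp k x := by
  have h := sin_sq_add_cos_sq x
  unfold disc b2 g0 gp
  set A := fA k x
  set B := fB k x
  set D := fD k x
  have hs : sin x ^ 2 = 1 - cos x ^ 2 := by linarith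
  have : ((D - A) * sin x / 2 + B * cos x) ^ 2 -
      (A * (1 + cos x) / 2 + B * sin x + D * (1 - cos x) / 2) *
        (A * (1 - cos x) / 2 - B * sin x + D * (1 + cos x) / 2) =
      (B ^ 2 + (D - A)^2/4) * (sin x ^ 2 + cos x ^ 2) - (A+D)^2/4 := by
    ring
  rw [this, h]
  ring

/-- the relation along a step, as a quadratic polynomial in the tangent of half the step -/
lemma rel_quad (x t : ℝ) :
    (1 + t ^ 2) * Rel k x (x + 2 * arctan t) = g0 k x + 2 * b2 k x * t + gp k x * t ^ 2 := by
  have h1 : cos (2 * arctan t) = (1 - t^2) / (1 + t^2) := by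
    rw [cos_two_mul, cos_sq_arctan]
    field_simp
    ring
  have h2 : sin (2 * arctan t) = 2 * t / (1 + t^2) := by
    rw [sin_two_mul, sin_arctan, cos_arctan]
    have h3 : √(1 + t^2) ≠ 0 := by positivity
    have h4 : √(1 + t^2) ^ 2 = 1 + t^2 := sq_sqrt (by positivity)
    field_simp
    rw [h4]
  unfold Rel g0 gp b2
  rw [cos_add, sin_add, h1, h2]
  have hne : (1 + t^2) ≠ 0 := by positivity
  field_simp
  ring

variable {k}

lemma disc_nonneg {x : ℝ} (h0 : g0 k x ≤ 0) (hp : 0 < gp k x) : 0 ≤ disc k x := by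
  rw [disc_eq]
  nlinarith [sq_nonneg (b2 k x)]

lemma disc_pos {x : ℝ} (h0 : g0 k x < 0) (hp : 0 < gp k x) : 0 < disc k x := by
  rw [disc_eq]
  nlinarith [sq_nonneg (b2 k x), mul_pos_of_neg_of_neg h0 (neg_lt_zero.mpr hp)]

lemma tau_root {x : ℝ} (h0 : g0 k x ≤ 0) (hp : 0 < gp k x) :
    g0 k x + 2 * b2 k x * tau k x + gp k x * tau k x ^ 2 = 0 := by
  have hs : √(disc k x) ^ 2 = disc k x := sq_sqrt (disc_nonneg h0 hp)
  have hd := disc_eq k x
  unfold tau
  field_simp
  nlinarith

lemma tau_nonneg {x : ℝ} (h0 : g0 k x ≤ 0) (hp : 0 < gp k x) : 0 ≤ tau k x := by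
  unfold tau
  apply div_nonneg _ hp.le
  have : |b2 k x| ≤ √(disc k x) := by
    apply abs_le_sqrt
    rw [disc_eq]
    nlinarith
  have := le_abs_self (b2 k x)
  linarith

lemma tau_pos {x : ℝ} (h0 : g0 k x < 0) (hp : 0 < gp k x) : 0 < tau k x := by
  rcases (tau_nonneg h0.le hp).lt_or_eq with h | h
  · exact h
  · have := tau_root h0.le hp
    rw [← h] at this
    simp at this
    linarith

lemma rel_step {x : ℝ} (h0 : g0 k x ≤ 0) (hp : 0 < gp k x) : Rel k x (step k x) = 0 := by
  have h := rel_quad k x (tau k x)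
  rw [tau_root h0 hp] at h
  have : (1 + tau k x ^ 2) ≠ 0 := by positivity
  exact (mul_eq_zero.mp h).resolve_left this

lemma le_step {x : ℝ} (h0 : g0 k x ≤ 0) (hp : 0 < gp k x) : x ≤ step k x := by
  unfold step
  have := arctan_nonneg.mpr (tau_nonneg h0 hp)
  linarith

lemma lt_step {x : ℝ} (h0 : g0 k x < 0) (hp : 0 < gp k x) : x < step k x := by
  unfold step
  have := arctan_pos.mpr (tau_pos h0 hp)
  linarith

lemma step_lt (x : ℝ) : step k x < x + π := by
  unfold step
  have := arctan_lt_pi_div_two (tau k x)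
  linarith

lemma fA_add (x : ℝ) : fA k (x + 2 * π) = fA k x := by simp [fA]
lemma fB_add (x : ℝ) : fB k (x + 2 * π) = fB k x := by simp [fB]
lemma fD_add (x : ℝ) : fD k (x + 2 * π) = fD k x := by simp [fD]
lemma tau_add (x : ℝ) : tau k (x + 2 * π) = tau k x := by
  simp [tau, b2, disc, gp, fA_add, fB_add, fD_add]

lemma step_add (x : ℝ) : step k (x + 2 * π) = step k x + 2 * π := by
  unfold step
  rw [tau_add]
  ring

/-- differentiability of the step -/
lemma differentiableAt_step {x : ℝ} (h0 : g0 k x < 0) (hp : 0 < gp k x) :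
    DifferentiableAt ℝ (step k) x := by
  have hd : disc k x ≠ 0 := (disc_pos h0 hp).ne'
  have hA : Differentiable ℝ (fA k) := by unfold fA; fun_prop
  have hB : Differentiable ℝ (fB k) := by unfold fB; fun_prop
  have hD : Differentiable ℝ (fD k) := by unfold fD; fun_prop
  have h1 : Differentiable ℝ (disc k) := by unfold disc; fun_prop
  have h2 : Differentiable ℝ (b2 k) := by unfold b2; fun_prop
  have h3 : Differentiable ℝ (gp k) := by unfold gp; fun_prop
  have h4 : DifferentiableAt ℝ (tau k) x := by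
    unfold tau
    exact ((h2.neg x).add ((h1 x).sqrt hd)).div (h3 x) hp.ne'
  unfold step
  exact differentiableAt_id.add ((h4.arctan).const_mul 2)

/-- exchanging the roles of the two links -/
def Coef.swap (k : Coef ℝ) : Coef ℝ := ⟨k.al, k.ga, k.be, k.ze, k.mu⟩

lemma rel_swap (k : Coef ℝ) (x y : ℝ) : Rel k.swap y x = Rel k x y := by
  simp only [Rel, fA, fB, fD, Coef.swap]
  ring

/-- derivative of the relation in the second variable -/
noncomputable def RelY (k : Coef ℝ) (x y : ℝ) : ℝ :=
  (fD k x - fA k x) * sin y / 2 + fB k x * cos y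

lemma relY_sq (k : Coef ℝ) (x y : ℝ) (h : Rel k x y = 0) : RelY k x y ^ 2 = disc k x := by
  have hs := sin_sq_add_cos_sq y
  have h2 : RelY k x y ^ 2 + Rel k x y *
      (-(fA k x * (1 - cos y) / 2 - fB k x * sin y + fD k x * (1 + cos y) / 2)) = disc k x := by
    unfold disc RelY Rel
    set A := fA k x
    set B := fB k x
    set D := fD k x
    have : ((D - A) * sin y / 2 + B * cos y) ^ 2 +
        (A * (1 + cos y) / 2 + B * sin y + D * (1 - cos y) / 2) *
        (-(A * (1 - cos y) / 2 - B * sin y + D * (1 + cos y) / 2)) =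
        (B ^ 2 + (D - A)^2/4) * (sin y ^ 2 + cos y ^ 2) - (A+D)^2/4 := by
      ring
    rw [this, hs]
    ring
  rw [h, zero_mul, add_zero] at h2
  exact h2

/-- the relation has negative value on the diagonal and positive value on the antidiagonal -/
def Good (k : Coef ℝ) : Prop := ∀ x, g0 k x < 0 ∧ 0 < gp k x

lemma hasDerivAt_rel (F : ℝ → ℝ) (F' x : ℝ) (hF : HasDerivAt F F' x) :
    HasDerivAt (fun z => Rel k z (F z)) (RelY k.swap (F x) x + RelY k x (F x) * F') x := by
  have hA : HasDerivAt (fA k) ((k.be - k.al) * sin x / 2) x := by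
    unfold fA
    have := (((hasDerivAt_cos x).const_add 1).const_mul k.al).div_const 2 |>.add
      ((((hasDerivAt_cos x).const_sub 1).const_mul k.be).div_const 2)
    refine this.congr_deriv ?_
    ring
  have hB : HasDerivAt (fB k) (k.mu * cos x / 2) x := by
    unfold fB
    exact (((hasDerivAt_sin x).const_mul k.mu).div_const 2)
  have hD : HasDerivAt (fD k) ((k.ze - k.ga) * sin x / 2) x := by
    unfold fD
    have := (((hasDerivAt_cos x).const_add 1).const_mul k.ga).div_const 2 |>.add
      ((((hasDerivAt_cos x).const_sub 1).const_mul k.ze).div_const 2)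
    refine this.congr_deriv ?_
    ring
  have hc := hF.cos
  have hs := hF.sin
  have h1 := ((hA.mul (hc.const_add 1)).div_const 2).add
    ((hB.mul hs).add ((hD.mul (hc.const_sub 1)).div_const 2))
  have h2 : (fun z => Rel k z (F z)) = ((fun z => (fA k * fun z => 1 + cos (F z)) z / 2) +
      ((fB k * fun z => sin (F z)) + fun z => (fD k * fun z => 1 - cos (F z)) z / 2)) := by
    funext z
    simp only [Rel, Pi.add_apply, Pi.mul_apply]
    ring
  rw [h2]
  refine h1.congr_deriv ?_
  simp only [RelY, fA, fB, fD, Coef.swap]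
  ring

/-- the square of the derivative of a step -/
lemma deriv_step_sq (hk : Good k) {F' x : ℝ} (hF : HasDerivAt (step k) F' x) :
    F' ^ 2 * disc k x = disc k.swap (step k x) := by
  have h := hasDerivAt_rel (k := k) (step k) F' x hF
  have hz : (fun z => Rel k z (step k z)) = fun _ => 0 := by
    funext z
    exact rel_step (hk z).1.le (hk z).2
  rw [hz] at h
  have h0 := h.unique (hasDerivAt_const x 0)
  have hr := rel_step (hk x).1.le (hk x).2
  have h1 := relY_sq k x _ hr
  have h2 := relY_sq k.swap (step k x) x (by rw [rel_swap, hr])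
  rw [← h1, ← h2]
  have : RelY k.swap (step k x) x = - (RelY k x (step k x) * F') := by linarith
  rw [this]
  ring

end relations

end MixedChains
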