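import Pool.Agent.Lib.MP_8152b2_gt.Final

/-!
Transport of chains by isometries, and the main theorem.
-/

namespace MixedChains

open Real Letter Metric Set

section
variable (Φ : ℂ ≃ᵃⁱ[ℝ] ℂ) {a A : Annulus}

lemma image_sphere' (P : ℂ) (ρ : ℝ) : Φ '' sphere P ρ = sphere (Φ P) ρ :=
  Φ.toIsometryEquiv.image_sphere P ρ

lemma image_ball' (P : ℂ) (ρ : ℝ) : Φ '' ball P ρ = ball (Φ P) ρ :=
  Φ.toIsometryEquiv.image_ball P ρ

lemma image_closedBall' (P : ℂ) (ρ : ℝ) : Φ '' closedBall P ρ = closedBall (Φ P) ρ :=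
  Φ.toIsometryEquiv.image_closedBall P ρ

lemma image_segment' (x y : ℂ) : Φ '' segment ℝ x y = segment ℝ (Φ x) (Φ y) :=
  image_segment ℝ Φ.toAffineEquiv.toAffineMap x y

variable (hK : A.K = Φ a.K) (hO : A.O = Φ a.O) (hR : A.R = a.R) (hr : A.r = a.r)
include hK hO hR hr

omit hO hr in
lemma image_outer : Φ '' a.outer = A.outer := by
  unfold Annulus.outer
  rw [image_sphere', hK, hR]

omit hK hR in
lemma image_inner : Φ '' a.inner = A.inner := by
  unfold Annulus.inner
  rw [image_sphere', hO, hr]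

lemma image_region : Φ '' a.region = A.region := by
  unfold Annulus.region
  rw [image_sdiff Φ.injective, image_closedBall', image_ball', hK, hO, hR, hr]

lemma isLink_image (x : Letter) {u : Set ℂ} (hu : IsLink a x u) : IsLink A x (Φ '' u) := by
  have h1 := image_outer Φ hK hR
  have h2 := image_inner Φ hO hr
  have h3 := image_region Φ hK hO hR hr
  cases x
  · obtain ⟨P, ρ, hρ, rfl, hsub, ⟨X, hX⟩, ⟨Y, hY⟩⟩ := hu
    refine ⟨Φ P, ρ, hρ, image_sphere' Φ P ρ, ?_, ⟨Φ X, ?_⟩, ⟨Φ Y, ?_⟩⟩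
    · rw [← image_closedBall', ← h3]
      exact image_mono hsub
    · rw [← h2, ← image_inter Φ.injective, hX, image_singleton]
    · rw [← h1, ← image_inter Φ.injective, hY, image_singleton]
  · obtain ⟨X, Y, hX, hY, hXY, rfl, ⟨T, hT⟩⟩ := hu
    refine ⟨Φ X, Φ Y, ?_, ?_, Φ.injective.ne hXY, image_segment' Φ X Y, ⟨Φ T, ?_⟩⟩
    · rw [← h1]; exact mem_image_of_mem _ hX
    · rw [← h1]; exact mem_image_of_mem _ hY
    · rw [← h2, ← image_inter Φ.injective, hT, image_singleton]

omit hO hr in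
lemma isContact_image (x y : Letter) {u v : Set ℂ} {p : ℂ} (h : IsContact a x y u v p) :
    IsContact A x y (Φ '' u) (Φ '' v) (Φ p) := by
  have h1 := image_outer Φ hK hR
  refine ⟨?_, fun hx hy => ?_⟩
  · rw [← image_inter Φ.injective, h.1, image_singleton]
  · rw [← h1]; exact mem_image_of_mem _ (h.2 hx hy)

lemma separated_image (x : Letter) {u : Set ℂ} {p q : ℂ} (h : Separated a x u p q) :
    Separated A x (Φ '' u) (Φ p) (Φ q) := by
  have h1 := image_outer Φ hK hR
  have h2 := image_inner Φ hO hr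
  cases x
  · obtain ⟨X, Y, hX, hY, hS⟩ := h
    refine ⟨Φ X, Φ Y, ?_, ?_, ?_⟩
    · rw [← h2, ← image_inter Φ.injective, hX, image_singleton]
    · rw [← h1, ← image_inter Φ.injective, hY, image_singleton]
    · have := (AffineEquiv.sOppSide_map_iff (s := line[ℝ, X, Y]) (x := p) (y := q)
        Φ.toAffineEquiv).mpr hS
      rw [AffineSubspace.map_span, image_pair] at this
      exact this
  · obtain ⟨T, hT, hS⟩ := h
    refine ⟨Φ T, ?_, ?_⟩
    · rw [← h2, ← image_inter Φ.injective, hT, image_singleton]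
    · exact (AffineEquiv.sbtw_map_iff Φ.toAffineEquiv).mpr hS

lemma isChain_image {n : ℕ} [NeZero n] (w : Fin n → Letter) {u : Fin (n+1) → Set ℂ}
    (h : IsChain a w u) : IsChain A w (fun i => Φ '' u i) := by
  obtain ⟨hl, p, hp1, hp2⟩ := h
  refine ⟨fun i => isLink_image Φ hK hO hR hr _ (hl i), fun i => Φ (p i),
    fun i => isContact_image Φ hK hR _ _ (hp1 i), fun i j hij => ?_⟩
  exact separated_image Φ hK hO hR hr _ (hp2 i j hij)

lemma closesFrom_image {n : ℕ} [NeZero n] (w : Fin n → Letter) {v : Set ℂ}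
    (h : ClosesFrom a w v) : ClosesFrom A w (Φ '' v) := by
  obtain ⟨u, hu, hu0, hc⟩ := h
  refine ⟨_, isChain_image Φ hK hO hR hr w hu, ?_, ?_⟩
  · show Φ '' u 0 = Φ '' v
    rw [hu0]
  · show Φ '' u (Fin.last n) = Φ '' u 0
    rw [show u (Fin.last n) = u 0 from hc]

end

/-- an isometry taking the standard position to a given pair of centres -/
lemma exists_isometry (K O : ℂ) : ∃ Φ : ℂ ≃ᵃⁱ[ℝ] ℂ, Φ 0 = O ∧ Φ (dist K O : ℝ) = K := by
  obtain ⟨e, he, hKe⟩ : ∃ e : ℂ, ‖e‖ = 1 ∧ K - O = (dist K O : ℝ) * e := by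
    by_cases h : K = O
    · exact ⟨1, norm_one, by rw [h]; simp⟩
    · have h0 : K - O ≠ 0 := sub_ne_zero.mpr h
      refine ⟨(K - O) / (‖K - O‖ : ℝ), ?_, ?_⟩
      · rw [norm_div, Complex.norm_real, norm_norm, div_self (norm_ne_zero_iff.mpr h0)]
      · rw [dist_eq_norm]
        have : ((‖K - O‖ : ℝ) : ℂ) ≠ 0 := by
          exact_mod_cast norm_ne_zero_iff.mpr h0
        field_simp
  let ℓ : ℂ ≃ₗᵢ[ℝ] ℂ := rotation ⟨e, mem_sphere_zero_iff_norm.mpr he⟩
  refine ⟨ℓ.toAffineIsometryEquiv.trans (AffineIsometryEquiv.constVAdd ℝ ℂ O), ?_, ?_⟩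
  · simp
  · simp only [AffineIsometryEquiv.coe_trans, Function.comp_apply,
      AffineIsometryEquiv.coe_constVAdd, LinearIsometryEquiv.coe_toAffineIsometryEquiv,
      vadd_eq_add]
    have : ℓ ((dist K O : ℝ) : ℂ) = e * ((dist K O : ℝ) : ℂ) := by
      simp only [ℓ, rotation_apply]
    rw [this, mul_comm, ← hKe]
    ring

/-- **Main theorem.** For a closure sequence, the closure locus is the zero set of a
polynomial among admissible triples. -/
theorem main {n : ℕ} [NeZero n] (w : Fin n → Letter) (hw : IsClosureSequence w) :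
    ∃ f : MvPolynomial (Fin 3) ℝ, ∀ R r d : ℝ, Admissible R r d →
      (ClosureLocus w R r d ↔ MvPolynomial.eval ![R, r, d] f = 0) := by
  have hper := two_periodic w hw
  refine ⟨(pstate (MvPolynomial.X 0) (MvPolynomial.X 1) (MvPolynomial.X 2)
    (letter w) n).1.2, fun R r d hadm => ?_⟩
  have h : Adm R r d := ⟨hadm.1, hadm.2.2.1, hadm.2.2.2⟩
  have heval : MvPolynomial.eval ![R, r, d] (pstate (MvPolynomial.X 0) (MvPolynomial.X 1)
      (MvPolynomial.X 2) (letter w) n).1.2 = (pstate R r d (letter w) n).1.2 := by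
    have := pstate_map (MvPolynomial.eval ![R, r, d]) (MvPolynomial.X 0) (MvPolynomial.X 1)
      (MvPolynomial.X 2) (letter w) n
    simp only [MvPolynomial.eval_X, Matrix.cons_val_zero, Matrix.cons_val_one,
      Matrix.cons_val] at this
    rw [this]
  have hstd : dist (std h).K (std h).O = d := by
    show dist (d:ℂ) 0 = d
    rw [dist_zero_right, Complex.norm_real, norm_eq_abs, abs_of_nonneg h.2]
  rw [heval, ← orb_closes_iff h (letter w) hper n]
  constructor
  · rintro ⟨A, hR, hr, hd, hex⟩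
    obtain ⟨Φ, hΦ0, hΦd⟩ := exists_isometry A.K A.O
    rw [hd] at hΦd
    have hcl := closesFrom_image Φ.symm (a := A) (A := std h)
      (by rw [← hΦd, AffineIsometryEquiv.symm_apply_apply]; rfl)
      (by rw [← hΦ0, AffineIsometryEquiv.symm_apply_apply]; rfl) hR.symm hr.symm w
      (hw.1 A hex (Φ '' link R r d (letter w 0) 0)
        (isLink_image Φ (a := std h) (A := A) hΦd.symm hΦ0.symm hR hr _ (isLink h _ _)))
    have himg : Φ.symm '' (Φ '' link R r d (letter w 0) 0) = link R r d (letter w 0) 0 := by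
      rw [← image_comp]
      have : (Φ.symm ∘ Φ : ℂ → ℂ) = id := by
        funext z; exact Φ.symm_apply_apply z
      rw [this, image_id]
    rw [himg] at hcl
    obtain ⟨u, hu, hu0, huc⟩ := hcl
    obtain ⟨ε, -, hk⟩ := closes_cases h w hu hu0 huc
    rwa [mul_zero] at hk
  · intro hcl
    rw [← closes_gchain_iff h w 0] at hcl
    exact ⟨std h, rfl, rfl, hstd, _, _, isChain_gchain h w 0, rfl, hcl⟩

/-- A stronger reading of the definition of a closure sequence: in every annulus, if some chain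
for `w` closes, then every chain for `w` (with any initial link and in any direction) closes;
and in some annulus some chain for `w` closes. -/
def IsStrongClosureSequence {n : ℕ} [NeZero n] (w : Fin n → Letter) : Prop :=
  (∀ a : Annulus, (∃ u, IsChain a w u ∧ Closes u) → ∀ u, IsChain a w u → Closes u) ∧
    ∃ a : Annulus, ∃ u, IsChain a w u ∧ Closes u

/-- The strong reading of the definition of a closure sequence implies the weak one. -/
theorem isClosureSequence_of_strong {n : ℕ} [NeZero n] (w : Fin n → Letter)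
    (hw : IsStrongClosureSequence w) : IsClosureSequence w := by
  refine ⟨fun A hA v hv => ?_, ?_⟩
  · have hd0 : 0 ≤ dist A.K A.O := dist_nonneg
    have h : Adm A.R A.r (dist A.K A.O) := ⟨A.r_pos, hd0, A.inside⟩
    obtain ⟨Φ, hΦ0, hΦd⟩ := exists_isometry A.K A.O
    obtain ⟨x, hx⟩ := exists_link h (letter w 0) (isLink_image Φ.symm (a := A) (A := std h)
      (by have := congrArg Φ.symm hΦd; rw [Φ.symm_apply_apply] at this; exact this)
      (by have := congrArg Φ.symm hΦ0; rw [Φ.symm_apply_apply] at this; exact this) rfl rfl _ hv)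
    have hch := isChain_image Φ (a := std h) (A := A) hΦd.symm hΦ0.symm rfl rfl w
      (isChain_gchain h w x)
    obtain ⟨v0, u0, hu0, -, hc0⟩ := hA
    refine ⟨_, hch, ?_, hw.1 A ⟨u0, hu0, hc0⟩ _ hch⟩
    have : gchain A.R A.r (dist A.K A.O) w x 0 = Φ.symm '' v := hx.symm
    simp only [this]
    rw [← image_comp]
    have : (Φ ∘ Φ.symm : ℂ → ℂ) = id := by
      funext z; exact Φ.apply_symm_apply z
    rw [this, image_id]
  · obtain ⟨A, u, hu, hc⟩ := hw.2
    exact ⟨A, _, u, hu, rfl, hc⟩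

end MixedChains
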