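import Pool.Agent.Lib.MP_8152b2_gt.Step

/-!
Closed forms for the four contact relations, and the adjacency relations they express.
-/

namespace MixedChains

open Real Letter

/-- `Q(x) = R² - r² - d² + 2 r d cos x` -/
noncomputable def Qf (R r d x : ℝ) : ℝ := R^2 - r^2 - d^2 + 2*r*d*cos x
/-- `K = (R + r)² - d²` -/
def Kf (R r d : ℝ) : ℝ := (R+r)^2 - d^2
/-- `m(x) = R + r - d cos x` -/
noncomputable def mf (R r d x : ℝ) : ℝ := R + r - d*cos x

lemma Kf_sub_Qf (R r d x : ℝ) : Kf R r d - Qf R r d x = 2*r*mf R r d x := by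
  simp only [Kf, Qf, mf]; ring

lemma coef_swap (R r d : ℝ) (a b : Letter) : (coef R r d a b).swap = coef R r d b a := by
  cases a <;> cases b <;> rfl

section closed
variable (R r d x : ℝ)

lemma sin_sq' : sin x ^ 2 = 1 - cos x ^ 2 := by
  have := sin_sq_add_cos_sq x; linarith

lemma g0_ss : g0 (coef R r d s s) x = - Qf R r d x := by
  simp only [g0, fA, fB, fD, coef, Qf]
  linear_combination (-(R^2-d^2)/2) * sin_sq' x
lemma gp_ss : gp (coef R r d s s) x = r^2 := by
  simp only [gp, fA, fB, fD, coef]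
  linear_combination ((R^2-d^2)/2) * sin_sq' x
lemma b2_ss : b2 (coef R r d s s) x = r*d*sin x := by
  simp only [b2, fA, fB, fD, coef]
  ring
lemma disc_ss : disc (coef R r d s s) x = r^2*(R-r+d*cos x)*mf R r d x := by
  simp only [disc, fA, fB, fD, coef, mf]
  linear_combination ((R^2-d^2)^2/4) * sin_sq' x

lemma g0_cs : g0 (coef R r d c s) x = - Qf R r d x := by
  simp only [g0, fA, fB, fD, coef, Qf]
  linear_combination (-((R+r)^2-d^2)/2) * sin_sq' x
lemma gp_cs : gp (coef R r d c s) x = 2*r*mf R r d x := by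
  simp only [gp, fA, fB, fD, coef, mf]
  linear_combination (((R+r)^2-d^2)/2) * sin_sq' x
lemma b2_cs : b2 (coef R r d c s) x = 0 := by
  simp only [b2, fA, fB, fD, coef]
  ring
lemma disc_cs : disc (coef R r d c s) x = Qf R r d x * (2*r*mf R r d x) := by
  simp only [disc, fA, fB, fD, coef, mf, Qf]
  linear_combination (((R+r)^2-d^2)^2/4) * sin_sq' x

lemma g0_sc : g0 (coef R r d s c) x = - Qf R r d x := by
  simp only [g0, fA, fB, fD, coef, Qf]
  linear_combination (-((R+r)^2-d^2)/2) * sin_sq' x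
lemma gp_sc : gp (coef R r d s c) x = 2*r*(R+r+d*cos x) := by
  simp only [gp, fA, fB, fD, coef]
  linear_combination (((R+r)^2-d^2)/2) * sin_sq' x
lemma b2_sc : b2 (coef R r d s c) x = 2*r*d*sin x := by
  simp only [b2, fA, fB, fD, coef]
  ring
lemma disc_sc : disc (coef R r d s c) x = 2*r*Kf R r d*(R-r+d*cos x) := by
  simp only [disc, fA, fB, fD, coef, Kf]
  linear_combination (((R+r)^2-d^2)^2/4) * sin_sq' x

lemma g0_cc : g0 (coef R r d c c) x = - Qf R r d x ^ 2 := by
  simp only [g0, fA, fB, fD, coef, Qf]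
  linear_combination (-((R+r)^2-d^2)^2/2) * sin_sq' x
lemma gp_cc : gp (coef R r d c c) x = Kf R r d ^ 2 - Qf R r d x * Qf R r d (x+π) := by
  simp only [gp, fA, fB, fD, coef, Qf, Kf, cos_add_pi]
  linear_combination (((R+r)^2-d^2)^2/2) * sin_sq' x
lemma b2_cc : b2 (coef R r d c c) x = 2*r*d*sin x*Qf R r d x := by
  simp only [b2, fA, fB, fD, coef, Qf]
  ring
lemma disc_cc : disc (coef R r d c c) x = 4*r*R*Kf R r d*Qf R r d x ^ 2 := by
  simp only [disc, fA, fB, fD, coef, Qf, Kf]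
  linear_combination (((R+r)^2-d^2)^4/4) * sin_sq' x

lemma rel_ss (y : ℝ) : Rel (coef R r d s s) x y =
    r^2 - r*d*(cos x + cos y) - (R^2-d^2)*(1+cos (y-x))/2 := by
  simp only [Rel, fA, fB, fD, coef, cos_sub]
  ring
lemma rel_cs (y : ℝ) : Rel (coef R r d c s) x y =
    Kf R r d * (1 - cos (y-x))/2 - Qf R r d x := by
  simp only [Rel, fA, fB, fD, coef, cos_sub, Kf, Qf]
  ring
lemma rel_sc (y : ℝ) : Rel (coef R r d s c) x y =
    Kf R r d * (1 - cos (y-x))/2 - Qf R r d y := by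
  simp only [Rel, fA, fB, fD, coef, cos_sub, Kf, Qf]
  ring
lemma rel_cc (y : ℝ) : Rel (coef R r d c c) x y =
    Kf R r d ^ 2 * (1 - cos (y-x))/2 - Qf R r d x * Qf R r d y := by
  simp only [Rel, fA, fB, fD, coef, cos_sub, Kf, Qf]
  ring

end closed

/-- closed admissibility (the circles may touch) -/
structure AdmC (R r d : ℝ) : Prop where
  r_pos : 0 < r
  d_nonneg : 0 ≤ d
  le : d ≤ R - r

/-- admissibility -/
structure Adm (R r d : ℝ) : Prop where
  r_pos : 0 < r
  d_nonneg : 0 ≤ d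
  lt : d < R - r

lemma Adm.toC {R r d : ℝ} (h : Adm R r d) : AdmC R r d := ⟨h.1, h.2, h.3.le⟩

namespace AdmC
variable {R r d : ℝ} (h : AdmC R r d)
include h

lemma R_pos : 0 < R := by linarith [h.1, h.2, h.3]

lemma dcos_le (x : ℝ) : d * cos x ≤ d := by
  nlinarith [h.2, cos_le_one x]
lemma neg_le_dcos (x : ℝ) : -d ≤ d * cos x := by
  nlinarith [h.2, neg_one_le_cos x]

lemma Qf_nonneg (x : ℝ) : 0 ≤ Qf R r d x := by
  have h1 := h.neg_le_dcos x
  have h2 := mul_le_mul_of_nonneg_left h1 h.1.le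
  have h3 : 0 ≤ (R - r - d) * (R + r + d) :=
    mul_nonneg (by linarith [h.3]) (by linarith [h.1, h.2, h.R_pos])
  unfold Qf
  nlinarith

lemma mf_pos (x : ℝ) : 0 < mf R r d x := by
  have := h.dcos_le x
  unfold mf
  linarith [h.1, h.3]

lemma Kf_pos : 0 < Kf R r d := by
  have : Kf R r d = (R + r - d) * (R + r + d) := by unfold Kf; ring
  rw [this]
  exact mul_pos (by linarith [h.1, h.3]) (by linarith [h.1, h.2, h.R_pos])

lemma Qf_lt_Kf (x : ℝ) : Qf R r d x < Kf R r d := by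
  have := Kf_sub_Qf R r d x
  have := h.mf_pos x
  nlinarith [h.1]

lemma g0_nonpos (a b : Letter) (x : ℝ) : g0 (coef R r d a b) x ≤ 0 := by
  have := h.Qf_nonneg x
  cases a <;> cases b
  · rw [g0_cc]; nlinarith
  · rw [g0_cs]; linarith
  · rw [g0_sc]; linarith
  · rw [g0_ss]; linarith

lemma gp_pos (a b : Letter) (x : ℝ) : 0 < gp (coef R r d a b) x := by
  have h1 := h.mf_pos x
  have hr := h.1
  cases a <;> cases b
  · rw [gp_cc]
    have h2 := h.Qf_nonneg x
    have h3 := h.Qf_nonneg (x+π)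
    have h4 := h.Qf_lt_Kf x
    have h5 := h.Qf_lt_Kf (x+π)
    nlinarith
  · rw [gp_cs]; positivity
  · rw [gp_sc]
    have := h.neg_le_dcos x
    have : 0 < R + r + d * cos x := by linarith [h.3]
    positivity
  · rw [gp_ss]; positivity

end AdmC

namespace Adm
variable {R r d : ℝ} (h : Adm R r d)
include h

lemma Qf_pos (x : ℝ) : 0 < Qf R r d x := by
  have h1 := h.toC.neg_le_dcos x
  have h2 := mul_le_mul_of_nonneg_left h1 h.1.le
  have h3 : 0 < (R - r - d) * (R + r + d) :=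
    mul_pos (by linarith [h.3]) (by linarith [h.1, h.2, h.toC.R_pos])
  unfold Qf
  nlinarith

lemma good (a b : Letter) : Good (coef R r d a b) := by
  intro x
  refine ⟨?_, h.toC.gp_pos a b x⟩
  have := h.Qf_pos x
  cases a <;> cases b
  · rw [g0_cc]; nlinarith
  · rw [g0_cs]; linarith
  · rw [g0_sc]; linarith
  · rw [g0_ss]; linarith

end Adm

end MixedChains
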